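import Pool.Agent.MP_77f003_co.H49.Core

/-!
Definitions and the list of statements used for the last case: a compact group with a fixed point
far out in the direction of its end. Each `...Spec` is proved in its own file.
-/

namespace Pool.Agent.MP_77f003_co.H49

open SimpleGraph Filter Set

variable {V : Type}

/-- A lazy proper ray. -/
def LR (G : SimpleGraph V) (w : ℕ → V) : Prop :=
  (∀ n, G.dist (w n) (w (n + 1)) ≤ 1) ∧ ∀ x t, ∀ᶠ n in atTop, t ≤ G.dist x (w n)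

/-- Two rays in the same end. -/
def SE (G : SimpleGraph V) (a b : ℕ → V) : Prop :=
  ∀ x t, ∃ m n, Lk G {z | t ≤ G.dist x z} (a m) (b n)

/-- Two sequences with a common tail. -/
def TE (a b : ℕ → V) : Prop := ∃ m n, ∀ k, a (m + k) = b (n + k)

/-- A family of far rays in the end of `ω`. -/
structure RF (G : SimpleGraph V) (S : ℕ) (ω : ℕ → V) {ι : Type} (R : ι → ℕ → V) : Prop where
  lr : ∀ i, LR G (R i)
  se : ∀ i, SE G (R i) ω
  far : ∀ i j, i ≠ j → Far G S (range (R i)) (range (R j))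

/-- An end with arbitrarily many arbitrarily far rays. -/
def Thk (G : SimpleGraph V) (ω : ℕ → V) : Prop := ∀ S N, ∃ R : Fin N → ℕ → V, RF G S ω R

/-- Four rays in the end of `ω` all of whose pairings are linked. -/
def Crs (G : SimpleGraph V) (κ : ℕ) (ω : ℕ → V) : Prop :=
  ∃ R : Fin 4 → ℕ → V, (∀ i, LR G (R i) ∧ SE G (R i) ω) ∧ Lnk G κ (R 0) (R 1) (R 2) (R 3) ∧
    Lnk G κ (R 0) (R 2) (R 1) (R 3) ∧ Lnk G κ (R 0) (R 3) (R 1) (R 2)

/-- No ball of radius `ρ` separates the tails of the two rays. -/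
def NS (G : SimpleGraph V) (ρ : ℕ) (a b : ℕ → V) : Prop :=
  ∀ z k, ∃ m n, k ≤ m ∧ k ≤ n ∧ Lk G {y | ρ < G.dist z y} (a m) (b n)

/-- Far double rays from the end of `a` to the end of `b`. -/
structure Lanes (G : SimpleGraph V) (S : ℕ) (a b : ℕ → V) {ι : Type} (l : ι → ℤ → V) : Prop where
  neg : RF G S a fun i (n : ℕ) => l i (-n)
  pos : RF G S b fun i (n : ℕ) => l i n
  far : ∀ i j, i ≠ j → Far G S (range (l i)) (range (l j))

/-- The graph of a family of rays at the scale `s`. -/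
def BG (G : SimpleGraph V) (s : ℕ) {ι : Type} (R : ι → ℕ → V) : SimpleGraph ι where
  Adj a b := a ≠ b ∧ ∀ x t, ∃ m n, Lk G
    {z | t ≤ G.dist x z ∧ ∀ c, c ≠ a → c ≠ b → ∀ k, s ≤ G.dist z (R c k)} (R a m) (R b n)
  symm := ⟨fun _ _ h => ⟨h.1.symm, fun x t => let ⟨m, n, l⟩ := h.2 x t
    ⟨n, m, l.symm.mono fun _ k => ⟨k.1, fun c h1 h2 => k.2 c h2 h1⟩⟩⟩⟩
  loopless := ⟨fun _ h => h.1 rfl⟩

/-- Reachability inside a set of vertices. -/
def Rch {ι : Type} (H : SimpleGraph ι) (U : Set ι) (a b : ι) : Prop :=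
  Relation.ReflTransGen (fun p q => p ∈ U ∧ q ∈ U ∧ H.Adj p q) a b

/-- Far tokens containing the anchors `X i`, avoiding the obstacles `O i`, ending in the rays `ρ i`. -/
def PQ (G : SimpleGraph V) (K : ℕ) {ι : Type} (X O : ι → Set V) (ρ : ι → ℕ → V) : Prop :=
  ∃ (Z : ι → Set V) (n : ι → ℕ), (∀ i, (Z i).Finite ∧ X i ⊆ Z i ∧ ρ i (n i) ∈ Z i ∧ Conn G (Z i) ∧
    Far G K (O i) (Br (Z i) (ρ i) (n i))) ∧
    ∀ i j, i ≠ j → Far G K (Br (Z i) (ρ i) (n i)) (Br (Z j) (ρ j) (n j))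

/-- The rays `M i` are rerouted onto the rays `L i` avoiding the obstacles. -/
def Rer (G : SimpleGraph V) (σ : ℕ) (ω : ℕ → V) {ι : Type} (M L : ι → ℕ → V) (O : ι → Set V)
    (Ψ : ι → ℕ → V) : Prop :=
  RF G σ ω Ψ ∧ ∀ i, Ψ i 0 = M i 0 ∧ TE (Ψ i) (L i) ∧ Far G σ (O i) (range (Ψ i))

/-- The rays `M i` can be rerouted onto the rays `L i` arbitrarily far out. -/
def MD (G : SimpleGraph V) (σ : ℕ) {ι : Type} (M L : ι → ℕ → V) : Prop :=
  ∀ x t, ∃ Ψ : ι → ℕ → V, (∀ i, LR G (Ψ i) ∧ TE (Ψ i) (L i) ∧ ∃ n, t ≤ n ∧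
    (∀ k ≤ n, Ψ i k = M i k) ∧ ∀ k, n ≤ k → t ≤ G.dist x (Ψ i k)) ∧
    ∀ i j, i ≠ j → Far G σ (range (Ψ i)) (range (Ψ j))

/-- A cyclically ordered family of rays. -/
structure OF (G : SimpleGraph V) (κ S : ℕ) (ω : ℕ → V) {N : ℕ} (R : ZMod N → ℕ → V) : Prop where
  rf : RF G S ω R
  px : ∀ a b c d : ℤ, a < b → b < c → c < d → d < a + N → Lnk G κ (R a) (R b) (R c) (R d)
  nx : ∀ a b c d : ℤ, a < b → b < c → c < d → d < a + N → ¬ Lnk G κ (R a) (R c) (R b) (R d)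

/-- The distance to a set. -/
noncomputable def dp (G : SimpleGraph V) (Y : Set V) (x : V) : ℕ :=
  sInf {d | ∃ y ∈ Y, G.dist y x = d}

/-- An ordered family of rays leaving a finite connected set straight away. -/
structure PB (G : SimpleGraph V) (κ : ℕ) (Y : Set V) {N : ℕ} (R : ZMod N → ℕ → V) : Prop where
  fin : Y.Finite
  ne : Y.Nonempty
  conn : Conn G Y
  lr : ∀ a, LR G (R a)
  far : ∀ a b, a ≠ b → Far G (12 * κ + 2) (range (R a)) (range (R b))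
  nx : ∀ a b c d : ℤ, a < b → b < c → c < d → d < a + N → ¬ Lnk G κ (R a) (R c) (R b) (R d)
  low : ∀ a k, k ≤ 12 * κ + 2 → dp G Y (R a k) = k
  high : ∀ a k, 12 * κ + 2 ≤ k → 12 * κ + 2 ≤ dp G Y (R a k)

/-- Positions with respect to such a family. -/
structure PS (G : SimpleGraph V) (κ : ℕ) (Y : Set V) {N : ℕ} (R : ZMod N → ℕ → V)
    (pos : V → ZMod N) : Prop extends PB G κ Y R where
  on : ∀ a k z, 2 * κ + 1 < dp G Y z → G.dist z (R a k) ≤ κ → pos z = a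
  step : ∀ x y, G.Adj x y → 2 * κ + 1 < dp G Y x → 2 * κ + 1 < dp G Y y → pos y = pos x ∨
    (pos y = pos x + 1 ∧ ∃ k, G.dist y (R (pos y) k) ≤ κ) ∨
      pos x = pos y + 1 ∧ ∃ k, G.dist x (R (pos x) k) ≤ κ

/-- The displacement along a walk. -/
def dw {G : SimpleGraph V} {N : ℕ} (pos : V → ZMod N) {x y : V} (p : G.Walk x y) : ℤ :=
  (p.darts.map fun d => (pos d.snd - pos d.fst).valMinAbs).sum

/-- A walk far from `Y`. -/
def Deep (G : SimpleGraph V) (Y : Set V) (t : ℕ) {x y : V} (p : G.Walk x y) : Prop :=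
  ∀ z ∈ p.support, t ≤ dp G Y z

/-- A point next to a ray whose tail is far from the walk. -/
def Top (G : SimpleGraph V) (κ : ℕ) {N : ℕ} (R : ZMod N → ℕ → V) (pos : V → ZMod N) (v : V)
    {x y : V} (p : G.Walk x y) : Prop :=
  ∃ m, G.dist v (R (pos v) m) ≤ κ ∧ Far G κ (R (pos v) '' Ici m) {z | z ∈ p.support}

/-- Four terminals all of whose pairings are linked. -/
def Gad (G : SimpleGraph V) (κ : ℕ) (y : Fin 4 → V) (S : Fin 4 → Set V) : Prop :=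
  (∀ a, (S a).Finite) ∧ Pair G κ y S 0 1 2 3 ∧ Pair G κ y S 0 2 1 3 ∧ Pair G κ y S 0 3 1 2

/-! ### Rays -/

/-- Many far double rays between two ends that are not separated by a small ball. -/
def LTSpec : Prop := ∀ {V : Type} (G : SimpleGraph V) [Fact G.Connected] [G.LocallyFinite],
  VT G → ∀ S N : ℕ, ∃ ρ, ∀ a b, LR G a → LR G b → ¬ SE G a b → NS G ρ a b →
  ∃ l : Fin N → ℤ → V, Lanes G S a b l

/-- The end fixed by the stabiliser of the limit cut. -/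
def OmSpec : Prop := ∀ {V : Type} (G : SimpleGraph V) [Fact G.Connected] [G.LocallyFinite],
  VT G → ∀ N u v A, Lim G N u v A → ¬ FinOrb (stab (⋃ j, A j) : Subgroup (G ≃g G)) →
  ∃ ω, LR G ω ∧ (∀ g ∈ (stab (⋃ j, A j) : Subgroup (G ≃g G)), SE G (fun n => g (ω n)) ω ∧
    ∀ r, 2 * r + 2 ≤ G.dist u (g u) → ∀ᶠ n in atTop, Lk G {z | r < G.dist u z} (g u) (ω n)) ∧
    ∀ ρ, ∃ α, LR G α ∧ ¬ SE G α ω ∧ NS G ρ α ω

/-- A deep walk avoiding the rays outside `U` gives a path inside `U`. -/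
def ReachSpec : Prop := ∀ {V ι : Type} (G : SimpleGraph V) [Fact G.Connected] [Finite ι]
  (s : ℕ) (R : ι → ℕ → V) (x : V), 1 ≤ s →
  (∀ i j, i ≠ j → Far G (2 * s) (range (R i)) (range (R j))) →
  ∃ t, ∀ (U : Set ι) a b m n, a ∈ U → b ∈ U →
    Lk G {z | t ≤ G.dist x z ∧ ∀ c ∉ U, ∀ k, s ≤ G.dist z (R c k)} (R a m) (R b n) →
    Rch (BG G s R) U a b

/-- A token moves to a free neighbour. -/
def MoveSpec : Prop := ∀ {V ι κ : Type} (G : SimpleGraph V) [Fact G.Connected] [Finite ι]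
  [DecidableEq ι] (K : ℕ) (R : κ → ℕ → V) (f : ι → κ) (X O : ι → Set V) (F : Set V) (i : ι) (b : κ),
  (∀ c, LR G (R c)) → (∀ c d, c ≠ d → Far G K (range (R c)) (range (R d))) →
  Function.Injective f → (BG G K R).Adj (f i) b → b ∉ range f → F.Finite →
  O i ⊆ F ∪ ⋃ c ∈ {c | c ≠ f i ∧ c ≠ b}, range (R c) →
  PQ G K X O (fun j => R (f j)) → PQ G K X O fun j => R (Function.update f i b j)

/-- Two adjacent tokens are joined by a new far set. -/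
def EdgeSpec : Prop := ∀ {V ι : Type} (G : SimpleGraph V) [Fact G.Connected] [Finite ι]
  (K : ℕ) (ρ : ι → ℕ → V) (X O : ι → Set V) (F : Set V) (i j : ι),
  (∀ c, LR G (ρ c)) → (BG G K ρ).Adj i j → F.Finite → PQ G K X O ρ →
  ∃ (E : Set V) (x y : V), E.Finite ∧ Conn G E ∧ x ∈ E ∧ y ∈ E ∧ Far G K F E ∧
    PQ G K (fun k => X k ∪ {z | k = i ∧ z = x ∨ k = j ∧ z = y})
      (fun k => O k ∪ {z | k ≠ i ∧ k ≠ j ∧ z ∈ E}) ρ

/-- The tokens inside a connected region move to any set of places of the same size. -/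
def SlideSpec : Prop := ∀ {V ι κ : Type} (G : SimpleGraph V) [Fact G.Connected] [Finite ι]
  [Finite κ] (K : ℕ) (R : κ → ℕ → V) (f : ι → κ) (U T : Set κ),
  (∀ c, LR G (R c)) → (∀ c d, c ≠ d → Far G K (range (R c)) (range (R d))) →
  Function.Injective f → (∀ a ∈ U, ∀ b ∈ U, Rch (BG G K R) U a b) → T ⊆ U →
  T.ncard = (f ⁻¹' U).ncard → ∃ f' : ι → κ, Function.Injective f' ∧ (∀ i, f i ∉ U → f' i = f i) ∧
    f' '' (f ⁻¹' U) = T ∧ ∀ (X O : ι → Set V) (F : Set V), F.Finite →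
      (∀ i, f i ∈ U → O i ⊆ F ∪ ⋃ c ∈ Uᶜ, range (R c)) →
      PQ G K X O (fun j => R (f j)) → PQ G K X O fun j => R (f' j)

/-- A stable matching along contacts. -/
def PymSpec : Prop := ∀ {ι κ : Type} [Finite ι] (c : ι → ℕ → κ → ℤ → Prop) (B : ℕ),
  (∀ i k l, BddAbove {j | c i k l j}) → (∀ i k l j l' j', c i k l j → c i k l' j' → l = l') →
  ∃ (n : ι → ℕ) (μ : ι → Option (κ × ℤ)), (∀ i, n i ≤ B) ∧ (∀ i, μ i = none → n i = B) ∧
    (∀ i l J, μ i = some (l, J) → c i (n i) l J ∧ ∀ i' k j, k ≤ n i' → c i' k l j → j ≤ J) ∧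
    ∀ i' k l j, k ≤ n i' → c i' k l j → ∃ i J, μ i = some (l, J)

/-- Far rays are rerouted onto a large family in the same end. -/
def UPSpec : Prop := ∀ {V ι κ : Type} (G : SimpleGraph V) [Fact G.Connected] [G.LocallyFinite]
  [Fintype ι] [Fintype κ] (σ : ℕ) (ω : ℕ → V) (M : ι → ℕ → V) (L : κ → ℕ → V) (O : ι → Set V)
  (P : κ → Set V), 1 ≤ σ → LR G ω → RF G (9 * σ) ω M → RF G (9 * σ) ω L →
  Fintype.card ι ^ 2 + 2 * Fintype.card ι ≤ Fintype.card κ →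
  (∀ i, (O i).Finite ∧ Far G (9 * σ) (O i) (range (M i)) ∧
    ∀ l, Far G (9 * σ) (O i) (range (L l))) →
  (∀ l, (P l).Finite ∧ (∀ i, Far G (9 * σ) (P l) (range (M i))) ∧
    ∀ l', l' ≠ l → Far G (9 * σ) (P l) (range (L l'))) →
  (∃ (τ : ι → κ) (T : Finset κ) (Ψ : ι → ℕ → V), Function.Injective τ ∧
    T.card ≤ Fintype.card ι ^ 2 + 2 * Fintype.card ι ∧ Rer G σ ω M (fun i => L (τ i)) O Ψ ∧
    ∀ i, ∀ l ∉ T, Far G σ (range (Ψ i)) (P l ∪ range (L l))) ∧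
  ∀ e : ι → κ, Function.Injective e →
    ∃ (π : Equiv.Perm ι) (Ψ : ι → ℕ → V), Rer G σ ω M (fun i => L (e (π i))) O Ψ

/-- Far rays are rerouted to another end along many double rays. -/
def USESpec : Prop := ∀ {V ι κ : Type} (G : SimpleGraph V) [Fact G.Connected] [G.LocallyFinite]
  [Fintype ι] [Fintype κ] (σ : ℕ) (a b : ℕ → V) (M : ι → ℕ → V) (l : κ → ℤ → V) (O : ι → Set V),
  1 ≤ σ → LR G a → LR G b → ¬ SE G a b → RF G (9 * σ) a M → Lanes G (9 * σ) a b l →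
  Fintype.card ι ^ 2 + 2 * Fintype.card ι ≤ Fintype.card κ →
  (∀ i, (O i).Finite ∧ Far G (9 * σ) (O i) (range (M i)) ∧
    ∀ j, Far G (9 * σ) (O i) (range (l j))) →
  ∃ Ψ : ι → ℕ → V, RF G σ b Ψ ∧ ∀ i, Ψ i 0 = M i 0 ∧ Far G σ (O i) (range (Ψ i))

/-- Rerouting far out: composition, transfer of links, existence. -/
def MDSpec : Prop := ∀ {V ι : Type} (G : SimpleGraph V) [Fact G.Connected] [G.LocallyFinite]
  [Fintype ι] (σ : ℕ),
  (∀ M L L' : ι → ℕ → V, MD G σ M L → MD G σ L L' → MD G σ M L') ∧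
  (∀ (M L : ι → ℕ → V) (κ : ℕ) (a b c d : ι), κ ≤ σ → (∀ i, LR G (M i)) → MD G σ M L → a ≠ c →
    a ≠ d → b ≠ c → b ≠ d → Lnk G κ (M a) (M b) (M c) (M d) → Lnk G κ (L a) (L b) (L c) (L d)) ∧
  ∀ {κ : Type} [Fintype κ] (ω : ℕ → V) (M : ι → ℕ → V) (L : κ → ℕ → V) (e : ι → κ), 1 ≤ σ →
    LR G ω → RF G (9 * σ) ω M → RF G (9 * σ) ω L →
    Fintype.card ι ^ 2 + 2 * Fintype.card ι ≤ Fintype.card κ → Function.Injective e →
    ∃ π : Equiv.Perm ι, MD G σ M fun i => L (e (π i))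

/-- Diverging families. -/
def DivSpec : Prop := ∀ {V : Type} (G : SimpleGraph V) [Fact G.Connected] [G.LocallyFinite]
  (ω : ℕ → V), LR G ω → Thk G ω → ∀ S N : ℕ, ∃ R : Fin N → ℕ → V, RF G S ω R ∧
    ∀ i j, i ≠ j → Div G (R i) (R j)

/-- A crossing gadget next to any ray, avoiding any finite set. -/
def GadSpec : Prop := ∀ {V : Type} (G : SimpleGraph V) [Fact G.Connected] [G.LocallyFinite]
  (κ : ℕ) (ω r : ℕ → V) (X : Set V), VT G → 1 ≤ κ → LR G ω → Thk G ω → Crs G (81 * κ) ω →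
  X.Finite → LR G r → SE G r ω → ∃ D, ∀ k₀, ∃ k, k₀ ≤ k ∧ ∃ (c : Fin 4 → ℕ → V) (S : Fin 4 → Set V),
    RF G κ ω c ∧ Gad G κ (fun a => c a 0) S ∧
    ∀ a, (∀ v ∈ insert (c a 0) (S a), G.dist (r k) v ≤ D) ∧ Far G κ (S a ∪ X) (range (c a))

/-- A cross at a thick end gives all fat cliques. -/
def RSpec : Prop := ∀ {V : Type} (G : SimpleGraph V) [Fact G.Connected] [G.LocallyFinite]
  (K h : ℕ) (ω : ℕ → V), VT G → 1 ≤ K → LR G ω → Thk G ω → Crs G (729 * K) ω → FatCl G K h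

/-! ### No cross -/

/-- Without a cross the rays are cyclically ordered. -/
def OrdSpec : Prop := ∀ {V : Type} (G : SimpleGraph V) [Fact G.Connected] [G.LocallyFinite]
  (κ σ N : ℕ) [NeZero N] (ω : ℕ → V), 1 ≤ κ → κ ≤ σ → 4 ≤ N → LR G ω → Thk G ω → ¬ Crs G κ ω →
  ∃ R : ZMod N → ℕ → V, OF G κ (9 * σ) ω R ∧ ∀ M : ZMod N → ℕ → V, RF G (9 * σ) ω M →
    ∃ π : Equiv.Perm (ZMod N), MD G σ M fun a => R (π a)

/-- Positions exist. -/
def PosSpec : Prop := ∀ {V : Type} (G : SimpleGraph V) [Fact G.Connected] (κ N : ℕ) [NeZero N]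
  (Y : Set V) (R : ZMod N → ℕ → V), 1 ≤ κ → 4 ≤ N → PB G κ Y R → ∃ pos, PS G κ Y R pos

/-- Rays starting in a finite set can be made to leave it straight away. -/
def FootSpec : Prop := ∀ {V ι : Type} (G : SimpleGraph V) [Fact G.Connected] (σ r : ℕ) (Y : Set V)
  (M : ι → ℕ → V), Y.Finite → (∀ i, LR G (M i) ∧ M i 0 ∈ Y) →
  (∀ i j, i ≠ j → Far G (σ + 2 * r) (range (M i)) (range (M j))) →
  ∃ M' : ι → ℕ → V, (∀ i, LR G (M' i) ∧ TE (M' i) (M i) ∧ (∀ k ≤ r, dp G Y (M' i k) = k) ∧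
    ∀ k, r ≤ k → r ≤ dp G Y (M' i k)) ∧ ∀ i j, i ≠ j → Far G σ (range (M' i)) (range (M' j))

/-- Far walks do not cross. -/
def ZSpec : Prop := ∀ {V : Type} (G : SimpleGraph V) [Fact G.Connected] (κ N : ℕ) [NeZero N]
  (Y : Set V) (R : ZMod N → ℕ → V) (pos : V → ZMod N), 1 ≤ κ → 8 ≤ N → PS G κ Y R pos →
  ∀ {x₁ x₂ y₁ y₂ : V} (p : G.Walk x₁ x₂) (q : G.Walk y₁ y₂) (P Q : ℤ), Deep G Y (10 * κ + 2) p →
  Deep G Y (10 * κ + 2) q → Far G (8 * κ + 1) {z | z ∈ p.support} {z | z ∈ q.support} →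
  (P : ZMod N) = pos x₁ → (Q : ZMod N) = pos y₁ → dp G Y x₁ ≤ 11 * κ + 2 → Top G κ R pos x₂ q →
  Top G κ R pos y₂ p → pos x₂ ≠ pos y₂ →
  (Top G κ R pos y₁ p → pos x₂ ≠ pos y₁ → (Q < P + dw pos p ↔ Q + dw pos q < P + dw pos p)) ∧
    (dp G Y y₁ ≤ 11 * κ + 2 → P + 4 < Q → P + dw pos p < Q + dw pos q)

/-- A rotating group with a fixed point almost fixes the positions of the feet. -/
def RLSpec : Prop := ∀ {V : Type} (G : SimpleGraph V) [Fact G.Connected] (κ N : ℕ) [NeZero N]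
  (Y : Set V) (R : ZMod N → ℕ → V) (pos : V → ZMod N) (W : Subgroup (G ≃g G)) (z : V), 1 ≤ κ →
  16 ≤ N → PS G κ Y R pos → FinOrb W → (∀ w ∈ W, w ∈ stab Y ∧ w z = z ∧
    ∃ c, MD G (12 * κ + 2) (fun a n => w (R a n)) fun a => R (a + c)) →
  (∀ a, Lk G {v | 11 * κ + 2 ≤ dp G Y v} z (R a (11 * κ + 2))) →
  ∀ w ∈ W, ∀ a, ∃ e : ℤ, |e| ≤ 12 ∧ pos (w (R a (11 * κ + 2))) = a + e

/-- The rotating elements form a subgroup of index at most two. -/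
def EpsSpec : Prop := ∀ {V : Type} (G : SimpleGraph V) [Fact G.Connected] [G.LocallyFinite]
  (κ N : ℕ) [NeZero N] (ω : ℕ → V) (R : ZMod N → ℕ → V) (P : Subgroup (G ≃g G)), 1 ≤ κ → 16 ≤ N →
  LR G ω → OF G κ (9 * (12 * κ + 2)) ω R → (∀ M : ZMod N → ℕ → V, RF G (9 * (12 * κ + 2)) ω M →
    ∃ π : Equiv.Perm (ZMod N), MD G (12 * κ + 2) M fun a => R (π a)) →
  (∀ g ∈ P, SE G (fun n => g (ω n)) ω) → ∃ P' ≤ P,
    (∀ w ∈ P', ∃ c, MD G (12 * κ + 2) (fun a n => w (R a n)) fun a => R (a + c)) ∧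
    ∀ w ∈ P, ∀ w' ∈ P, w ∈ P' ∨ w' ∈ P' ∨ w⁻¹ * w' ∈ P'

/-- A rotating group with a fixed point far out has orbits that are connected at a bounded scale. -/
def FinSpec : Prop := ∀ Δ κ : ℕ, 1 ≤ κ → ∃ N : ℕ, 16 ≤ N ∧ ∀ [NeZero N] {V : Type}
  (G : SimpleGraph V) [Fact G.Connected] [G.LocallyFinite] (ω : ℕ → V) (R : ZMod N → ℕ → V)
  (x : V), (∀ v, G.degree v ≤ Δ) → LR G ω → OF G κ (9 * (12 * κ + 2)) ω R →
  ∃ T, ∀ (W : Subgroup (G ≃g G)) (D : ℕ) (z : V), FinOrb W →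
    (∀ w ∈ W, w z = z ∧ G.dist x (w x) ≤ D ∧
      ∃ c, MD G (12 * κ + 2) (fun a n => w (R a n)) fun a => R (a + c)) →
    (∀ᶠ n in atTop, Lk G {v | 2 * D + (12 * κ + 2) < G.dist x v} z (ω n)) →
    Conn G {v | ∃ w ∈ W, G.dist (w x) v ≤ T}

/-- The last case. -/
def HSpec : Prop := ∀ {V : Type} (G : SimpleGraph V) [Fact G.Connected] [G.LocallyFinite],
  VT G → ∀ N u v A, Lim G N u v A → ¬ FinOrb (stab (⋃ j, A j) : Subgroup (G ≃g G)) →
  (∃ C, ∀ j, ¬ Large (stab (⋃ j, A j) ⊓ stab (A j) : Subgroup (G ≃g G)) C) → ∀ K h, FatCl G K h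

end Pool.Agent.MP_77f003_co.H49
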