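import Pool.Agent.MP_77f003_co.H51.HBasic

/-!
The last case follows from the listed statements.
-/

namespace Pool.Agent.MP_77f003_co.H49

open SimpleGraph Filter Set MulAction

variable {V : Type} {G : SimpleGraph V}

theorem FatCl.le {K K' h : ℕ} (H : FatCl G K h) (h' : K' ≤ K) : FatCl G K' h :=
  let ⟨I, B, E, h1, h2, h3, h4, h5, h6⟩ := H
  ⟨I, B, E, h1, h2, h3, fun i hi j hj e => (h4 i hi j hj e).le h',
    fun i hi j hj k hk l hl a b c => (h5 i hi j hj k hk l hl a b c).le h',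
    fun i hi j hj k hk a b c => (h6 i hi j hj k hk a b c).le h'⟩

theorem orbit_mono_sub {W W' : Subgroup (G ≃g G)} (h : W ≤ W') (x : V) :
    orbit W x ⊆ orbit W' x := by
  rintro _ ⟨φ, rfl⟩
  exact ⟨⟨φ.1, h φ.2⟩, rfl⟩

theorem orbit_le {W : Subgroup (G ≃g G)} (hW : FinOrb W) (x y : V) : (orbit W x).ncard ≤
    (orbit W y).ncard * (orbit (W ⊓ stabilizer (G ≃g G) y : Subgroup (G ≃g G)) x).ncard := by
  have := (hW y).to_subtype
  have := ((hW.mono (inf_le_left (b := stabilizer (G ≃g G) y))) x).to_subtype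
  rw [← Nat.card_coe_set_eq, ← Nat.card_coe_set_eq, ← Nat.card_coe_set_eq, ← Nat.card_prod]
  choose g hg using fun z : orbit W y => z.2
  refine Nat.card_le_card_of_surjective (fun p => ⟨(g p.1).1 p.2.1, ?_⟩) ?_
  · obtain ⟨q, _, ψ, rfl⟩ := p
    exact ⟨g q * ⟨ψ.1, ψ.2.1⟩, rfl⟩
  · rintro ⟨_, w, rfl⟩
    have e : (g ⟨_, w, rfl⟩).1 y = w.1 y := hg ⟨_, w, rfl⟩
    refine ⟨(⟨_, w, rfl⟩, ⟨_, ⟨((g ⟨_, w, rfl⟩)⁻¹ * w).1, ((g ⟨_, w, rfl⟩)⁻¹ * w).2, ?_⟩, rfl⟩),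
      Subtype.ext ?_⟩
    · change (g ⟨_, w, rfl⟩).1.symm (w.1 y) = y
      rw [← e, RelIso.symm_apply_apply]
    · exact (g ⟨_, w, rfl⟩).1.apply_symm_apply (w.1 x)

variable [Fact G.Connected]

theorem le_cl {W : Subgroup (G ≃g G)} {x : V} {T : ℕ}
    (h : Conn G {v | ∃ w ∈ W, G.dist (w x) v ≤ T}) : W ≤ Cl G W (2 * T + 1) {x} := by
  have key : ∀ {a b : V} (p : G.Walk a b), (∀ z ∈ p.support, ∃ w ∈ W, G.dist (w x) z ≤ T) →
      ∀ w ∈ W, G.dist (w x) a ≤ T + 1 → ∀ w' ∈ W, G.dist (w' x) b ≤ T →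
        w⁻¹ * w' ∈ Cl G W (2 * T + 1) {x} := by
    have base : ∀ a, ∀ w ∈ W, G.dist (w x) a ≤ T + 1 → ∀ w' ∈ W, G.dist (w' x) a ≤ T →
        w⁻¹ * w' ∈ Cl G W (2 * T + 1) {x} := fun a w h1 h2 w' h3 h4 =>
      Subgroup.subset_closure ⟨mul_mem (inv_mem h1) h3, x, rfl, x, rfl, by
        have := tri (G := G) (w x) a (w' x)
        rw [dcomm a] at this
        rw [← dist_iso w]
        simp only [RelIso.mul_apply, RelIso.apply_inv_self]
        omega⟩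
    intro a b p
    induction p with
    | nil => exact fun _ => base _
    | @cons a c b e p ih =>
      intro hp w h1 h2 w' h3 h4
      obtain ⟨t, t1, t2⟩ := hp a (by simp)
      have := tri (G := G) (t x) a c
      rw [dist_adj e] at this
      simpa [mul_assoc] using mul_mem (base a w h1 h2 t t1 t2)
        (ih (fun z hz => hp z (by simp [hz])) t t1 (by omega) w' h3 h4)
  intro w hw
  obtain ⟨p, hp⟩ := h x ⟨1, one_mem _, by simp⟩ (w x) ⟨w, hw, by simp⟩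
  simpa using key p hp 1 (one_mem _) (by simp) w hw (by simp)

theorem exists_far [G.LocallyFinite] {P : Subgroup (G ≃g G)} {x : V} (h : (orbit P x).Infinite)
    (t n : ℕ) : ∃ g : Fin n → G ≃g G, (∀ i, g i ∈ P) ∧
      ∀ i j, i ≠ j → t ≤ G.dist (g i x) (g j x) := by
  induction n with
  | zero => exact ⟨Fin.elim0, fun i => i.elim0, fun i => i.elim0⟩
  | succ n ih =>
    obtain ⟨g, h1, h2⟩ := ih
    obtain ⟨_, ⟨φ, rfl⟩, k⟩ := h.exists_notMem_finite
      (finite_iUnion fun i => finite_ball (G := G) (g i x) t)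
    simp only [mem_iUnion, mem_ofPred_eq, not_exists, not_le] at k
    refine ⟨Fin.cons φ.1 g, Fin.cases φ.2 h1, Fin.cases (Fin.cases (by simp) fun j _ => ?_)
      fun i => Fin.cases (fun _ => (k i).le) fun j e => h2 i j fun e' => e (by rw [e'])⟩
    exact (k j).le.trans_eq (dcomm _ _)

theorem hSpec (h1 : LTSpec) (h2 : OmSpec) (h3 : RSpec) (h4 : OrdSpec) (h5 : EpsSpec)
    (h6 : FinSpec) (h7 : ClusterSpec) : HSpec := by
  intro V G _ _ ht N u v A hl hP ⟨C, hC⟩ K h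
  by_contra hno
  replace hno : ¬ FatCl G (K + 1) h := fun k => hno (k.le K.le_succ)
  obtain ⟨ω, o1, o2, o3⟩ := h2 G ht N u v A hl hP
  have hT : Thk G ω := fun S n => by
    obtain ⟨ρ, k⟩ := h1 G ht S n
    obtain ⟨α, a1, a2, a3⟩ := o3 ρ
    obtain ⟨l, k⟩ := k α ω a1 o1 a2 a3
    exact ⟨_, k.pos⟩
  have hx := fun k => hno (h3 G (K + 1) h ω ht (by omega) o1 hT k)
  obtain ⟨M, m1, m2⟩ := h6 (G.degree u) (729 * (K + 1)) (by omega)
  have : NeZero M := ⟨by omega⟩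
  obtain ⟨R, r1, r2⟩ := h4 G (729 * (K + 1)) (12 * (729 * (K + 1)) + 2) M ω (by omega) (by omega)
    (by omega) o1 hT hx
  obtain ⟨P', p1, p2, p3⟩ := h5 G _ M ω R _ (by omega) m1 o1 r1 r2 fun g hg => (o2 g hg).1
  obtain ⟨T, t1⟩ := m2 G ω R u (fun x => (degree_eq ht x u).le) o1 r1
  obtain ⟨n, n1⟩ := h7 G (K + 1) h (2 * T + 1) ht hno
  have i1 : (orbit (stab (⋃ j, A j) : Subgroup (G ≃g G)) u).Infinite := fun e => hP (finOrb_of e)
  have i2 : (orbit P' u).Infinite := fun e => by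
    by_cases c : ∀ w ∈ (stab (⋃ j, A j) : Subgroup (G ≃g G)), w ∈ P'
    · exact i1 (e.subset (by rintro _ ⟨φ, rfl⟩; exact ⟨⟨φ.1, c _ φ.2⟩, rfl⟩))
    · push Not at c
      obtain ⟨w, c1, c2⟩ := c
      refine i1 ((e.union (e.image w)).subset ?_)
      rintro _ ⟨φ, rfl⟩
      rcases (p3 w c1 φ.1 φ.2).resolve_left c2 with k | k
      exacts [Or.inl ⟨⟨φ.1, k⟩, rfl⟩, Or.inr ⟨_, ⟨⟨_, k⟩, rfl⟩, w.apply_symm_apply (φ.1 u)⟩]
  obtain ⟨f, f1, f2⟩ := exists_far i2 1 (C * n + 1)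
  let W := Subgroup.closure (range f)
  have w1 : W ≤ P' := (Subgroup.closure_le _).2 (range_subset_iff.2 f1)
  have w2 : ∀ᶠ j in atTop, W ≤ stab (A j) := (eventually_all.2 fun i => hl.ev (p1 (f1 i))).mono
    fun j hj => (Subgroup.closure_le _).2 (range_subset_iff.2 hj)
  have w3 : FinOrb W := let ⟨j, hj⟩ := w2.exists; (hl.finOrb j).mono hj
  obtain ⟨D, hD⟩ := ((w3 u).image (G.dist u)).bddAbove
  obtain ⟨g, g1, g2⟩ := exists_far i1 (2 * (2 * D + (12 * (729 * (K + 1)) + 2)) + 2) C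
  obtain ⟨j, j1, j2⟩ := (w2.and (eventually_all.2 fun i => hl.ev (g1 i))).exists
  obtain ⟨y, hy⟩ := not_forall.1 (hC j)
  have q1 := (hl.finOrb j).mono (inf_le_right (a := stab (⋃ j, A j)))
  obtain ⟨a, b, ab, e⟩ : ∃ a b, a ≠ b ∧ g a y = g b y := by
    by_contra k
    push Not at k
    refine hy (le_of_eq_of_le ?_ (ncard_le_ncard (s := range fun i => g i y) ?_ (q1 y)))
    · rw [ncard_range_of_injective fun a b e => by_contra fun c => k a b c e]
      simp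
    · rintro _ ⟨i, rfl⟩
      exact ⟨⟨g i, g1 i, j2 i⟩, rfl⟩
  have e1 : ((g a)⁻¹ * g b) y = y := by simp [← e]
  have e2 : 2 * (2 * D + (12 * (729 * (K + 1)) + 2)) + 2 ≤ G.dist u (((g a)⁻¹ * g b) u) := by
    rw [← dist_iso (g a)]
    simpa using g2 a b ab
  have e3 := le_cl (t1 (W ⊓ stabilizer (G ≃g G) y) D y (w3.mono inf_le_left)
    (fun w hw => ⟨hw.2, hD ⟨_, ⟨⟨w, hw.1⟩, rfl⟩, rfl⟩, p2 w (w1 hw.1)⟩)
    (((o2 _ (mul_mem (inv_mem (g1 a)) (g1 b))).2 _ e2).mono fun m hm => (Lk.geo fun z hz => by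
      have k1 := dist_iso ((g a)⁻¹ * g b) y u
      have k2 := tri (G := G) y z u
      have k3 := tri (G := G) u z (((g a)⁻¹ * g b) u)
      rw [e1] at k1
      rw [dcomm z u] at k2
      rw [mem_ofPred_eq]
      omega).trans hm))
  have e4 := (ncard_le_ncard (orbit_mono_sub e3 u) (((w3.mono inf_le_left).mono
    ((Subgroup.closure_le _).2 fun w hw => hw.1)) u)).trans (n1 _ u (w3.mono inf_le_left))
  have e5 := ncard_le_ncard (orbit_mono_sub (le_inf (w1.trans p1) j1) y) (q1 y)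
  have e6 := (orbit_le w3 u y).trans (Nat.mul_le_mul (e5.trans (not_le.1 hy).le) e4)
  have e7 := ncard_le_ncard (s := range fun i => f i u) (by
    rintro _ ⟨i, rfl⟩
    exact ⟨⟨f i, Subgroup.subset_closure ⟨i, rfl⟩⟩, rfl⟩) (w3 u)
  rw [ncard_range_of_injective fun a b e => by_contra fun c => by
    simpa [show f a u = f b u from e] using f2 a b c] at e7
  simp at e7
  omega

end Pool.Agent.MP_77f003_co.H49
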