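import Pool.Agent.MP_77f003_co.H51.HBasic

/-!
A rotating group with finite orbits and a fixed point almost fixes the positions of the feet.
-/

namespace Pool.Agent.MP_77f003_co.H49

namespace RL

open SimpleGraph Filter Set MulAction

theorem count {Γ X : Type} [Group Γ] [MulAction Γ X] (x : X) (hf : (orbit Γ x).Finite) (φ : Γ → ℤ)
    (h1 : ∀ g g', g • x = g' • x → φ g = φ g')
    (h2 : ∀ w g g', φ g + 3 < φ g' → φ (w * g) ≤ φ (w * g') + 8) (g g' : Γ) : φ g ≤ φ g' + 11 := by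
  obtain ⟨ψ, e⟩ : ∃ ψ : X → ℤ, ∀ g, ψ (g • x) = φ g :=
    ⟨_, Function.FactorsThrough.extend_apply (f := fun g : Γ => g • x) h1 0⟩
  obtain ⟨_, ⟨a, rfl⟩, ha⟩ := exists_max_image _ ψ hf ⟨x, mem_orbit_self x⟩
  obtain ⟨_, ⟨b, rfl⟩, hb⟩ := exists_min_image _ ψ hf ⟨x, mem_orbit_self x⟩
  have k1 := ha _ (mem_orbit x g)
  have k2 := hb _ (mem_orbit x g')
  simp only [e] at k1 k2
  by_contra c
  have hS : {y ∈ orbit Γ x | ψ y + 3 < φ a}.Finite := hf.subset fun _ k => k.1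
  have hb' : b • x ∈ {y ∈ orbit Γ x | ψ y + 3 < φ a} := ⟨mem_orbit x b, by rw [e]; omega⟩
  obtain ⟨y, y1, y2⟩ := ((hS.injOn_iff_bijOn_of_mapsTo (f := fun y => (b * a⁻¹) • y) (by
    rintro _ ⟨⟨t, rfl⟩, k⟩
    simp only [e] at k
    have := h2 (b * a⁻¹) t a k
    rw [inv_mul_cancel_right] at this
    simp only [smul_smul]
    exact ⟨mem_orbit x _, by rw [e]; omega⟩)).1 (MulAction.injective _).injOn).surjOn hb'
  obtain rfl : y = a • x := MulAction.injective (b * a⁻¹) (by simpa [smul_smul] using y2)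
  have := y1.2
  rw [e] at this
  omega

variable {V : Type} {G : SimpleGraph V} {κ N : ℕ} {Y F : Set V} {R Ψ : ZMod N → ℕ → V}
  {pos : V → ZMod N} {x y z : V} {w : G ≃g G} {c : ZMod N} {T : ℕ}

theorem cast_ne {m n : ℤ} (h : m < n) (h' : n < m + N) : (m : ZMod N) ≠ n := fun e => by
  have := Int.le_of_dvd (by omega) ((ZMod.intCast_eq_intCast_iff_dvd_sub _ _ _).1 e)
  omega

/-- The image of a walk. -/
def mp (w : G ≃g G) (p : G.Walk x y) : G.Walk (w x) (w y) := p.map w.toHom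

theorem dw_mp (p : G.Walk x y) : dw pos (mp w p) = dw (fun v => pos (w v)) p := by
  induction p with
  | nil => rfl
  | cons e p ih => exact congrArg _ ih

theorem mem_mp {p : G.Walk x y} : z ∈ (mp w p).support ↔ ∃ v ∈ p.support, w v = z := by
  simp [mp]

theorem dw_congr {pos' : V → ZMod N} (p : G.Walk x y) (h : ∀ v ∈ p.support, pos v = pos' v) :
    dw pos p = dw pos' p := by
  induction p with
  | nil => rfl
  | @cons u v _ e p ih =>
    rw [dw_cons, dw_cons, ih fun t ht => h t (by simp [ht]), h u (by simp), h v (by simp)]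

theorem first (h : PS G κ Y R pos) (hN : 3 ≤ N) (p : G.Walk x y)
    (hp : Deep G Y (2 * κ + 2) p) (hy : ∃ k, G.dist y (R (pos y) k) ≤ κ) :
    ∃ (v : V) (μ : G.Walk x v) (ρ : G.Walk v y), p = μ.append ρ ∧
      (∃ k, G.dist v (R (pos v) k) ≤ κ) ∧ (dw pos μ = 0 ∨ dw pos μ = 1) ∧
      ∀ z ∈ μ.support, z = v ∨ pos z = pos x := by
  induction p with
  | nil => exact ⟨_, Walk.nil, Walk.nil, rfl, hy, by simp, by simp⟩
  | @cons u v z e p ih =>
    rcases h.dstep hN e (hp u (by simp)) (hp v (by simp)) with k | ⟨k, k'⟩ | ⟨-, k⟩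
    · obtain ⟨t, μ, ρ, rfl, m2, m3, m4⟩ := ih (fun z hz => hp z (by simp [hz])) hy
      have e' : pos v = pos u := sub_eq_zero.1 ((ZMod.valMinAbs_eq_zero _).1 k)
      refine ⟨t, Walk.cons e μ, ρ, rfl, m2, by rwa [dw_cons, k, zero_add], fun z hz => ?_⟩
      rcases List.mem_cons.1 hz with rfl | hz
      exacts [Or.inr rfl, e' ▸ m4 z hz]
    · exact ⟨v, Walk.cons e Walk.nil, p, rfl, k', by simp [dw_cons, k], by simp⟩
    · exact ⟨u, Walk.nil, _, rfl, k, by simp, by simp⟩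

/-- The images of the rays rerouted onto the rays. -/
structure Rot (G : SimpleGraph V) (κ : ℕ) (Y F : Set V) (R Ψ : ZMod N → ℕ → V) (w : G ≃g G)
    (c : ZMod N) (T : ℕ) : Prop where
  st : w ∈ (stab Y : Subgroup (G ≃g G))
  lr : ∀ a, LR G (Ψ a)
  far : ∀ a b, a ≠ b → Far G (12 * κ + 2) (range (Ψ a)) (range (Ψ b))
  top : ∀ a, ∃ m, Ψ a T = R (a + c) m ∧ R (a + c) '' Ici m ⊆ range (Ψ a)
  deep : ∀ a k, 10 * κ + 2 ≤ k → 10 * κ + 2 ≤ dp G Y (Ψ a k)
  eq : ∀ x ∈ F, ∀ a k, G.dist x (R a k) ≤ κ → Ψ a k = w (R a k)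
  out : ∀ x ∈ F, ∀ a j, 8 * κ + 1 ≤ G.dist (w x) (Ψ a j) ∨ ∃ k, Ψ a j = w (R a k)
  le : 10 * κ + 2 ≤ T
  foot : ∀ a, R a (11 * κ + 2) ∈ F

/-- The deep points next to a rerouted ray. -/
def Ar (G : SimpleGraph V) (κ : ℕ) (Y : Set V) (ψ : ℕ → V) : Set V :=
  {v | 10 * κ + 2 ≤ dp G Y v ∧ ∃ k, G.dist v (ψ k) ≤ κ}

/-- A point far from a ray. -/
def Off (G : SimpleGraph V) (κ : ℕ) (r : ℕ → V) (x : V) : Prop := ∀ k, 8 * κ + 1 ≤ G.dist x (r k)

theorem Rot.ps (r : Rot G κ Y F R Ψ w c T) (h : PS G κ Y R pos) (a : ZMod N) :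
    pos (Ψ a T) = a + c :=
  let ⟨m, e, _⟩ := r.top a
  h.on _ m _ (lt_of_lt_of_le (by omega) (r.deep a T r.le)) (by simp [e])

theorem Rot.tp (r : Rot G κ Y F R Ψ w c T) (h : PS G κ Y R pos) {a : ZMod N} {q : G.Walk x y}
    (k : ∀ z ∈ q.support, ∀ j, κ ≤ G.dist z (Ψ a j)) : Top G κ R pos (Ψ a T) q := by
  obtain ⟨m, e, e'⟩ := r.top a
  rw [Top, r.ps h]
  refine ⟨m, by simp [e], fun v hv z hz => ?_⟩
  obtain ⟨j, rfl⟩ := e' hv
  exact dcomm z _ ▸ k z hz j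

variable [Fact G.Connected]

theorem exists_rot [NeZero N] (h : PB G κ Y R) (hw : w ∈ (stab Y : Subgroup (G ≃g G)))
    (hm : MD G (12 * κ + 2) (fun a n => w (R a n)) fun a => R (a + c)) (hF : F.Finite)
    (hf : ∀ a, R a (11 * κ + 2) ∈ F) : ∃ Ψ T, Rot G κ Y F R Ψ w c T := by
  obtain ⟨t, ⟨t1, t2⟩, t3⟩ := (((far_out (G := G) (hF.image w) (R 0 0) (8 * κ + 1)).and
    (far_out (G := G) h.fin (R 0 0) (10 * κ + 2))).and
    (eventually_all.2 fun a => (h.lr a).tail hF (κ + 1))).exists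
  obtain ⟨Ψ, k1, k2⟩ := hm (R 0 0) t
  choose l1 l2 n l3 l4 l5 using k1
  choose m m' l2 using l2
  refine ⟨Ψ, Finset.univ.sup m + (10 * κ + 2), hw, l1, k2, fun a => ?_, fun a k hk => ?_,
    fun x hx a k e => l4 a k (le_trans ?_ (l3 a)), fun x hx a j => ?_, by omega, hf⟩
  · obtain ⟨j, hj⟩ := Nat.exists_eq_add_of_le ((Finset.le_sup (f := m) (Finset.mem_univ a)).trans
      (Nat.le_add_right _ (10 * κ + 2)))
    refine ⟨m' a + j, hj ▸ l2 a j, ?_⟩
    rintro _ ⟨i, hi, rfl⟩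
    obtain ⟨i, rfl⟩ := Nat.exists_eq_add_of_le (le_of_add_le_left (show m' a + j ≤ i from hi))
    exact ⟨_, l2 a i⟩
  · rcases le_total k (n a) with e | e
    · rw [l4 a k e, dp_map hw]
      exact h.up (by omega) (h.low a _ (by omega)).ge hk
    · obtain ⟨y, y1, y2⟩ := dp_ex (G := G) h.ne (Ψ a k)
      exact y2 ▸ t2 y y1 _ (l5 a k e)
  · exact not_lt.1 fun l => (t3 a x hx _ ⟨k, l.le, rfl⟩).not_gt (Nat.lt_succ_of_le e)
  · rcases le_total j (n a) with e | e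
    exacts [Or.inr ⟨j, l4 a j e⟩, Or.inl (t1 _ ⟨x, hx, rfl⟩ _ (l5 a j e))]

theorem Rot.nu (r : Rot G κ Y F R Ψ w c T) (h : PS G κ Y R pos) (hx : x ∈ F)
    (d : 11 * κ + 2 ≤ dp G Y x) (k : ∃ k, G.dist x (R (pos x) k) ≤ κ) :
    Lk G (Ar G κ Y (Ψ (pos x))) (w x) (Ψ (pos x) T) := by
  obtain ⟨k, e⟩ := k
  have e1 := r.eq x hx _ k e
  have e2 := dp_tri (G := G) h.ne (R (pos x) k) x
  rw [dcomm] at e2
  have e3 : 10 * κ + 2 ≤ k := by
    by_contra l
    rw [h.low _ k (by omega)] at e2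
    omega
  have e4 := r.le
  refine (Lk.geo fun v hv => ?_).trans ((r.lr _).lk (i := k) fun j _ _ =>
    ⟨r.deep _ j (by omega), j, by simp⟩)
  have := dp_tri (G := G) h.ne v (w x)
  have e5 : G.dist (w x) (Ψ (pos x) k) ≤ κ := by rwa [e1, dist_iso]
  rw [dp_map r.st, dcomm] at this
  exact ⟨by omega, k, by omega⟩

theorem Rot.pi (r : Rot G κ Y F R Ψ w c T) (e : ZMod N) :
    Lk G {v | 10 * κ + 2 ≤ dp G Y v ∧ v ∈ range (Ψ e)} (w (R e (11 * κ + 2))) (Ψ e T) := by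
  have := r.le
  rw [← r.eq _ (r.foot e) e _ (by simp)]
  exact (r.lr e).lk fun j _ _ => ⟨r.deep e j (by omega), j, rfl⟩

theorem Rot.off (r : Rot G κ Y F R Ψ w c T) (hx : x ∈ F) {e : ZMod N} (k : Off G κ (R e) x) :
    Off G κ (Ψ e) (w x) := fun j =>
  (r.out x hx e j).elim id fun ⟨i, hi⟩ => by rw [hi, dist_iso]; exact k i

theorem off_near {r r' : ℕ → V} (h : Far G (12 * κ + 2) (range r) (range r'))
    (k : ∃ k, G.dist x (r k) ≤ κ) : Off G κ r' x := fun j => by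
  obtain ⟨i, hi⟩ := k
  have := h _ ⟨i, rfl⟩ _ ⟨j, rfl⟩
  have := tri (G := G) (r i) x (r' j)
  rw [dcomm (r i) x] at this
  omega

theorem off_pos (h : PS G κ Y R pos) (hN : 3 ≤ N) (d : 10 * κ + 2 ≤ dp G Y x) {e : ZMod N}
    (k : ∀ i : ℤ, |i| ≤ 1 → e ≠ pos x + i) : Off G κ (R e) x := fun j => not_lt.1 fun l => by
  obtain ⟨i, i1, i2⟩ := h.near hN d (Nat.le_of_lt_succ l)
  have := dp_tri (G := G) h.ne (R e j) x
  rw [dcomm] at this
  exact k i i1 ((h.on e j _ (by omega) (by simp)).symm.trans i2)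

theorem Rot.deep_mp (r : Rot G κ Y F R Ψ w c T) {p : G.Walk x y} {t : ℕ} (d : Deep G Y t p) :
    Deep G Y t (mp w p) := fun z hz => by
  obtain ⟨v, hv, rfl⟩ := mem_mp.1 hz
  exact (dp_map r.st v).symm ▸ d v hv

variable [NeZero N]

theorem Rot.piece (r : Rot G κ Y F R Ψ w c T) (hZ : ZSpec) (h : PS G κ Y R pos) (hκ : 1 ≤ κ)
    (hN : 16 ≤ N) (p : G.Walk x y) (hF : ∀ v ∈ p.support, v ∈ F) (d : Deep G Y (11 * κ + 2) p)
    (k1 : ∀ v ∈ p.support, ∃ i : ℤ, -1 ≤ i ∧ i ≤ 2 ∧ pos v = pos x + i)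
    (k2 : -1 ≤ dw pos p ∧ dw pos p ≤ 2) (ν : G.Walk (w x) (Ψ (pos x) T))
    (ν' : G.Walk (w y) (Ψ (pos y) T)) (n1 : ∀ v ∈ ν.support, v ∈ Ar G κ Y (Ψ (pos x)))
    (n2 : ∀ v ∈ ν'.support, v ∈ Ar G κ Y (Ψ (pos y))) :
    dw pos (mp w p) + dw pos ν' - dw pos ν = dw pos p := by
  have ne : ∀ v ∈ p.support, ∀ j : ℤ, |j| ≤ 1 → pos x + 5 ≠ pos v + j := fun v hv j hj e => by
    obtain ⟨i, i1, i2, i3⟩ := k1 v hv
    rw [abs_le] at hj
    refine cast_ne (N := N) (m := i + j) (n := 5) (by omega) (by omega) ?_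
    rw [i3, add_assoc, add_right_inj] at e
    simp [e]
  have ne' : ∀ v ∈ p.support, pos v ≠ pos x + 5 := fun v hv e => ne v hv 0 (by simp) (by simp [e])
  obtain ⟨π, hπ⟩ := r.pi (pos x + 5)
  let ζ := ν.reverse.append ((mp w p).append ν')
  have z1 : ∀ v ∈ ζ.support, 10 * κ + 2 ≤ dp G Y v ∧ Off G κ (Ψ (pos x + 5)) v := fun v hv => by
    simp only [ζ, Walk.mem_support_append_iff, Walk.support_reverse, List.mem_reverse] at hv
    rcases hv with hv | hv | hv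
    · exact ⟨(n1 v hv).1, off_near (r.far _ _ (ne' x p.start_mem_support)) (n1 v hv).2⟩
    · refine ⟨le_trans (by omega) (r.deep_mp d v hv), ?_⟩
      obtain ⟨u, hu, rfl⟩ := mem_mp.1 hv
      exact r.off (hF u hu) (off_pos h (by omega) (le_trans (by omega) (d u hu)) (ne u hu))
    · exact ⟨(n2 v hv).1, off_near (r.far _ _ (ne' y p.end_mem_support)) (n2 v hv).2⟩
  have z2 : dw pos ζ = dw pos (mp w p) + dw pos ν' - dw pos ν := by
    rw [dw_append, dw_append, h.dw_reverse (by omega) ν fun v hv =>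
      le_trans (by omega) (n1 v hv).1]
    ring
  have t : ∀ v ∈ p.support, Top G κ R pos (Ψ (pos v) T) π ∧
      pos (Ψ (pos x + 5) T) ≠ pos (Ψ (pos v) T) := fun v hv =>
    ⟨r.tp h fun z hz j => le_trans (by omega) (r.far _ _ (ne' v hv).symm z (hπ z hz).2 _ ⟨j, rfl⟩),
      by rw [r.ps h, r.ps h]; simpa using (ne' v hv).symm⟩
  have key : ∀ X Q : ℤ, (X : ZMod N) = pos x + 5 + c → (Q : ZMod N) = pos x + c →
      (Q < X ↔ Q + dw pos ζ < X) := fun X Q hX hQ => by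
    simpa using (hZ G κ N Y R pos hκ (by omega) h π ζ (X - dw pos π) Q (fun v hv => (hπ v hv).1)
      (fun v hv => (z1 v hv).1) (fun u hu v hv => by
        obtain ⟨j, rfl⟩ := (hπ u hu).2
        exact dcomm v _ ▸ (z1 v hv).2 j) (by simp [dw_cast, hX, r.ps h]) (by rw [hQ, r.ps h])
      (by rw [dp_map r.st, h.low _ _ (by omega)])
      (r.tp h fun v hv j => le_trans (by omega) ((z1 v hv).2 j)) (t y p.end_mem_support).1
      (t y p.end_mem_support).2).1 (t x p.start_mem_support).1 (t x p.start_mem_support).2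
  have e1 := key ((pos x + c).val + 5) (pos x + c).val (by simp; ring) (by simp)
  have e2 := key ((pos x + c).val + 5 - N) (pos x + c).val (by simp; ring) (by simp)
  have e3 : ((dw pos ζ : ℤ) : ZMod N) = dw pos p := by simp [dw_cast, r.ps h]
  rw [← z2]
  by_contra l
  rcases lt_or_gt_of_ne l with l | l
  exacts [cast_ne l (by omega) e3, cast_ne l (by omega) e3.symm]

theorem Rot.hom (r : Rot G κ Y F R Ψ w c T) (hZ : ZSpec) (h : PS G κ Y R pos) (hκ : 1 ≤ κ)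
    (hN : 16 ≤ N) (n : ℕ) : ∀ {x y : V} (p : G.Walk x y), p.length < n →
    (∀ v ∈ p.support, v ∈ F) → Deep G Y (11 * κ + 2) p → (∃ k, G.dist y (R (pos y) k) ≤ κ) →
    ∀ (ν : G.Walk (w x) (Ψ (pos x) T)) (ν' : G.Walk (w y) (Ψ (pos y) T)),
    (∀ v ∈ ν.support, v ∈ Ar G κ Y (Ψ (pos x))) → (∀ v ∈ ν'.support, v ∈ Ar G κ Y (Ψ (pos y))) →
    dw pos (mp w p) + dw pos ν' - dw pos ν = dw pos p := by
  induction n with
  | zero => exact fun _ e => absurd e (Nat.not_lt_zero _)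
  | succ n ih =>
  intro x y p hn hF d hy ν ν' n1 n2
  cases p with
  | nil => exact r.piece hZ h hκ hN _ hF d (fun v hv => ⟨0, by simpa using congrArg pos (by
      simpa using hv)⟩) (by simp) ν ν' n1 n2
  | @cons _ u _ e p =>
    obtain ⟨v, μ, ρ, rfl, m2, m3, m4⟩ := first h (by omega) p
      (fun z hz => le_trans (by omega) (d z (by simp [hz]))) hy
    have s1 : ∀ z ∈ (Walk.cons e μ).support, z ∈ (Walk.cons e (μ.append ρ)).support :=
      fun z hz => by simp only [Walk.support_cons, List.mem_cons] at hz; rcases hz with hz | hz <;>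
        simp [hz]
    have s2 : ∀ z ∈ ρ.support, z ∈ (Walk.cons e (μ.append ρ)).support := fun z hz => by simp [hz]
    obtain ⟨ν₁, n3⟩ := r.nu h (hF v (s2 v ρ.start_mem_support)) (d v (s2 v ρ.start_mem_support)) m2
    have k : -1 ≤ (pos u - pos x).valMinAbs ∧ (pos u - pos x).valMinAbs ≤ 1 := by
      rcases h.dstep (by omega) e (lt_of_lt_of_le (by omega) (d x (by simp)))
        (lt_of_lt_of_le (by omega) (d u (by simp))) with k | k | k <;> omega
    have e1 := r.piece hZ h hκ hN (Walk.cons e μ) (fun z hz => hF z (s1 z hz))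
      (fun z hz => d z (s1 z hz)) (fun z hz => by
        rcases List.mem_cons.1 hz with rfl | hz
        · exact ⟨0, by simp⟩
        rcases m4 z hz with rfl | l
        · exact ⟨dw pos (Walk.cons e μ), by rw [dw_cons]; omega, by rw [dw_cons]; omega,
            by simp [dw_cast]⟩
        · exact ⟨_, k.1, by omega, by simp [l]⟩) (by rw [dw_cons]; omega) ν ν₁ n1 n3
    have e2 := ih ρ (by simp at hn; omega) (fun z hz => hF z (s2 z hz)) (fun z hz => d z (s2 z hz))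
      hy ν₁ ν' n3 n2
    rw [← Walk.cons_append, dw_mp, dw_append, dw_append, ← dw_mp, ← dw_mp]
    omega

theorem Rot.core (r : Rot G κ Y F R Ψ w c T) (hZ : ZSpec) (h : PS G κ Y R pos) (hκ : 1 ≤ κ)
    (hN : 16 ≤ N) {μ : G.Walk x y} (hF : ∀ v ∈ μ.support, v ∈ F) (d : Deep G Y (11 * κ + 2) μ)
    (d' : dp G Y x ≤ 11 * κ + 2) (hy : ∃ k, G.dist y (R (pos y) k) ≤ κ)
    (m3 : dw pos μ = 0 ∨ dw pos μ = 1) (m4 : ∀ z ∈ μ.support, z = y ∨ pos z = pos x) {e : ZMod N}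
    (k : ∀ i : ℤ, |i| ≤ 1 → e ≠ pos x + i) {ν : G.Walk (w y) (Ψ (pos y) T)}
    (n1 : ∀ v ∈ ν.support, v ∈ Ar G κ Y (Ψ (pos y)))
    {π : G.Walk (w (R e (11 * κ + 2))) (Ψ e T)}
    (hπ : ∀ v ∈ π.support, 10 * κ + 2 ≤ dp G Y v ∧ v ∈ range (Ψ e)) {P X : ℤ}
    (hP : (P : ZMod N) = pos (w x)) (hX : (X : ZMod N) = e + c) :
    (P + dw pos (mp w μ) + dw pos ν < X → P ≤ X - dw pos π + 4) ∧
      (X < P + dw pos (mp w μ) + dw pos ν → X - dw pos π ≤ P + 4) := by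
  have ne : pos y ≠ e := fun l => k (dw pos μ) (by rcases m3 with k | k <;> simp [k])
    (by simp [dw_cast, l])
  have z1 : ∀ v ∈ ((mp w μ).append ν).support, 10 * κ + 2 ≤ dp G Y v ∧ Off G κ (Ψ e) v :=
    fun v hv => by
      rcases (Walk.mem_support_append_iff _ _).1 hv with hv | hv
      · refine ⟨le_trans (by omega) (r.deep_mp d v hv), ?_⟩
        obtain ⟨u, hu, rfl⟩ := mem_mp.1 hv
        refine r.off (hF u hu) ?_
        rcases m4 u hu with rfl | l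
        exacts [off_near (h.far _ _ ne) hy,
          off_pos h (by omega) (le_trans (by omega) (d u hu)) (l ▸ k)]
      · exact ⟨(n1 v hv).1, off_near (r.far _ _ ne) (n1 v hv).2⟩
  have f : Far G (8 * κ + 1) {v | v ∈ π.support} {v | v ∈ ((mp w μ).append ν).support} :=
    fun u hu v hv => by
      obtain ⟨j, rfl⟩ := (hπ u hu).2
      exact dcomm v _ ▸ (z1 v hv).2 j
  have t1 : Top G κ R pos (Ψ e T) ((mp w μ).append ν) :=
    r.tp h fun v hv j => le_trans (by omega) ((z1 v hv).2 j)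
  have t2 : Top G κ R pos (Ψ (pos y) T) π :=
    r.tp h fun z hz j => le_trans (by omega) (r.far _ _ ne.symm z (hπ z hz).2 _ ⟨j, rfl⟩)
  have n : pos (Ψ e T) ≠ pos (Ψ (pos y) T) := by rw [r.ps h, r.ps h]; simpa using ne.symm
  have q : ((X - dw pos π : ℤ) : ZMod N) = pos (w (R e (11 * κ + 2))) := by
    simp [dw_cast, hX, r.ps h]
  have a1 : dp G Y (w (R e (11 * κ + 2))) ≤ 11 * κ + 2 := by
    rw [dp_map r.st, h.low _ _ (by omega)]
  have a2 : dp G Y (w x) ≤ 11 * κ + 2 := by rwa [dp_map r.st]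
  have e1 := (hZ G κ N Y R pos hκ (by omega) h π _ _ P (fun v hv => (hπ v hv).1)
    (fun v hv => (z1 v hv).1) f q hP a1 t1 t2 n).2 a2
  have e2 := (hZ G κ N Y R pos hκ (by omega) h _ π P _ (fun v hv => (z1 v hv).1)
    (fun v hv => (hπ v hv).1) f.symm hP q a2 t2 t1 n.symm).2 a1
  rw [dw_append] at e1 e2
  omega

theorem mono (hZ : ZSpec) (h : PS G κ Y R pos) (hκ : 1 ≤ κ) (hN : 16 ≤ N)
    (hw : w ∈ (stab Y : Subgroup (G ≃g G)))
    (hm : MD G (12 * κ + 2) (fun a n => w (R a n)) fun a => R (a + c)) {u u' : V}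
    (α : G.Walk z u) (α' : G.Walk z u') (β : G.Walk z y) (d : Deep G Y (11 * κ + 2) α)
    (d' : Deep G Y (11 * κ + 2) α') (d₀ : Deep G Y (11 * κ + 2) β)
    (hy : ∃ k, G.dist y (R (pos y) k) ≤ κ) (hu : dp G Y u ≤ 11 * κ + 2)
    (hu' : dp G Y u' ≤ 11 * κ + 2) (l : dw pos α + 3 < dw pos α') :
    dw pos (mp w α) ≤ dw pos (mp w α') + 8 := by
  let S := {v | v ∈ α.support ∨ v ∈ α'.support ∨ v ∈ β.support}
  have s1 : ∀ v ∈ S, 11 * κ + 2 ≤ dp G Y v := by
    rintro v (k | k | k)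
    exacts [d v k, d' v k, d₀ v k]
  have s2 : ∀ {a b} (p : G.Walk a b), (∀ v ∈ p.support, v ∈ S) → Deep G Y (2 * κ + 2) p :=
    fun p k v hv => le_trans (by omega) (s1 v (k v hv))
  obtain ⟨Ψ, T, r⟩ := exists_rot (F := S ∪ range fun a => R a (11 * κ + 2)) h.toPB hw hm
    ((α.support.finite_toSet.union (α'.support.finite_toSet.union β.support.finite_toSet)).union
      (finite_range _)) fun a => Or.inr ⟨a, rfl⟩
  have s3 : ∀ {a b} (p : G.Walk a b), (∀ v ∈ p.support, v ∈ S) →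
      dw pos p.reverse = -dw pos p ∧ dw pos (mp w p.reverse) = -dw pos (mp w p) := fun p k =>
    ⟨h.dw_reverse (by omega) p (s2 p k), by
      rw [← h.dw_reverse (by omega) _ (r.deep_mp (s2 p k)), mp, mp, Walk.reverse_map]⟩
  have b1 : ∀ v ∈ (α.reverse.append β).support, v ∈ S := by simp +contextual [S, or_imp]
  have b2 : ∀ v ∈ (α'.reverse.append β).support, v ∈ S := by simp +contextual [S]
  have b3 : ∀ v ∈ (α.reverse.append α').support, v ∈ S := by simp +contextual [S, or_imp]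
  obtain ⟨x, μ, ρ, e, m2, m3, m4⟩ := first h (by omega) _ (s2 _ b1) hy
  obtain ⟨x', μ', ρ', e', m2', m3', m4'⟩ := first h (by omega) _ (s2 _ b2) hy
  have c1 : ∀ v ∈ μ.support, v ∈ S := fun v hv => b1 v (by simp [e, hv])
  have c2 : ∀ v ∈ μ'.support, v ∈ S := fun v hv => b2 v (by simp [e', hv])
  obtain ⟨m, i1, i2, i3, i4⟩ : ∃ m : ℤ, dw pos α + 2 ≤ m ∧ m ≤ dw pos α + 5 ∧ m + 2 ≤ dw pos α' ∧
      ∀ j : ℤ, |j| ≤ 1 → ¬ (N : ℤ) ∣ dw pos α' + j - m := by
    by_cases k : ∀ j : ℤ, |j| ≤ 1 → ¬ (N : ℤ) ∣ dw pos α' + j - (dw pos α + 2)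
    · exact ⟨_, le_rfl, by omega, by omega, k⟩
    push Not at k
    obtain ⟨j, j1, j2⟩ := k
    rw [abs_le] at j1
    have := Int.le_of_dvd (by omega) j2
    refine ⟨dw pos α + 5, by omega, le_rfl, by omega, fun i i1 i2 => ?_⟩
    rw [abs_le] at i1
    have := Int.le_of_dvd (by omega) (dvd_sub j2 i2)
    omega
  have a1 := s3 α fun v hv => Or.inl hv
  obtain ⟨v, γ, γ', e3, v1, j, v2⟩ := h.split (by omega) _ (s2 _ b3)
    (P := (pos z).val + dw pos α) (m := (pos z).val + m) (by simp [dw_cast])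
    (Or.inl (by rw [dw_append, a1.1]; omega))
  have c3 : ∀ t ∈ γ.support, t ∈ S := fun t hv => b3 t (by simp [e3, hv])
  have c4 : ∀ t ∈ γ'.support, t ∈ S := fun t hv => b3 t (by simp [e3, hv])
  have v3 := h.on _ j v (s2 _ c3 v γ.end_mem_support) v2
  have v4 : ∃ k, G.dist v (R (pos v) k) ≤ κ := ⟨j, v3 ▸ v2⟩
  replace v3 : pos v = pos z + m := by simp [v3]
  have nu := fun t (k : t ∈ S) => r.nu h (Or.inl k) (s1 t k)
  obtain ⟨ν, n1⟩ := nu x (c1 x μ.end_mem_support) m2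
  obtain ⟨ν', n2⟩ := nu x' (c2 x' μ'.end_mem_support) m2'
  obtain ⟨ν₀, n3⟩ := nu v (c3 v γ.end_mem_support) v4
  obtain ⟨π, hπ⟩ := r.pi (pos v)
  have b4 : ∀ t ∈ (μ.reverse.append γ).support, t ∈ S := by
    simpa [or_imp, forall_and] using ⟨c1, c3⟩
  have b5 : ∀ t ∈ (γ'.append μ').support, t ∈ S := by simpa [or_imp, forall_and] using ⟨c4, c2⟩
  have h1 := r.hom hZ h hκ hN _ _ (Nat.lt_succ_self _) (fun t k => Or.inl (b4 t k))
    (fun t k => s1 t (b4 t k)) v4 ν ν₀ n1 n3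
  have h2 := r.hom hZ h hκ hN _ _ (Nat.lt_succ_self _) (fun t k => Or.inl (b5 t k))
    (fun t k => s1 t (b5 t k)) m2' ν₀ ν' n3 n2
  have a2 := s3 μ c1
  have a3 := congrArg (dw pos) e3
  have a4 := congrArg (dw fun v => pos (w v)) e3
  have hX : (((pos (w z)).val + dw pos (mp w α) + dw pos (mp w γ) + dw pos ν₀ : ℤ) : ZMod N) =
      pos v + c := by simp [dw_cast, r.ps h]
  have g1 := (r.core hZ h hκ hN (fun t k => Or.inl (c1 t k)) (fun t k => s1 t (c1 t k)) hu m2 m3 m4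
    (e := pos v) (fun i i0 k => by
      rw [abs_le] at i0
      refine cast_ne (N := N) (m := dw pos α + i) (n := m) (by omega) (by omega) ?_
      rw [v3] at k
      simp only [Int.cast_add, dw_cast]
      linear_combination -k) n1 hπ
    (P := (pos (w z)).val + dw pos (mp w α)) (by simp [dw_cast]) hX).1
  have g2 := (r.core hZ h hκ hN (fun t k => Or.inl (c2 t k)) (fun t k => s1 t (c2 t k)) hu' m2' m3'
    m4' (e := pos v) (fun i i0 k => i4 i i0 ((ZMod.intCast_eq_intCast_iff_dvd_sub _ _ _).1 (by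
      rw [v3] at k
      simp only [Int.cast_add, dw_cast]
      linear_combination k))) n2 hπ
    (P := (pos (w z)).val + dw pos (mp w α')) (by simp [dw_cast]) hX).2
  simp only [dw_mp, dw_append] at *
  omega

end RL

open RL in
theorem rlSpec (hZ : ZSpec) : RLSpec := by
  intro V G _ κ N _ Y R pos W z hκ hN h hW hw hz w w1 a
  obtain ⟨p, hp⟩ := hz a
  have f1 : dp G Y (R a (11 * κ + 2)) = 11 * κ + 2 := h.low _ _ (by omega)
  have f2 : pos (R a (11 * κ + 2)) = a := h.on a (11 * κ + 2) _ (by omega) (by simp)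
  have : Finite {v // v ∈ p.support} := p.support.finite_toSet
  have key := count (Γ := W) (fun v : {v // v ∈ p.support} => v.1)
    ((Set.Finite.pi' fun v : {v // v ∈ p.support} => hW v.1).subset (by
      rintro _ ⟨g, rfl⟩ v
      exact ⟨g, rfl⟩)) (fun g => dw (fun v => pos (g.1 v)) p)
    (fun g g' e => dw_congr p fun v hv => congrArg pos (congrFun e ⟨v, hv⟩)) fun w g g' l => by
      have d : ∀ g : W, Deep G Y (11 * κ + 2) ((mp g.1 p).copy (hw _ g.2).2.1 rfl) :=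
        fun g v hv => by
          obtain ⟨u, hu, rfl⟩ := mem_mp.1 (by simpa using hv)
          exact (dp_map (hw _ g.2).1 u).symm ▸ hp u hu
      obtain ⟨k1, -, c, k2⟩ := hw _ w.2
      have := mono hZ h hκ hN k1 k2 _ _ p (d g) (d g') hp ⟨11 * κ + 2, by rw [f2]; simp⟩
        (by rw [dp_map (hw _ g.2).1, f1]) (by rw [dp_map (hw _ g'.2).1, f1])
        (by simpa only [dw_copy, dw_mp] using l)
      simp only [dw_copy, dw_mp] at this
      exact this
  have k1 := key ⟨w, w1⟩ 1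
  have k2 := key 1 ⟨w, w1⟩
  refine ⟨dw (fun v => pos (w v)) p - dw pos p, abs_le.2 ⟨?_, ?_⟩, ?_⟩
  · change dw pos p ≤ dw (fun v => pos (w v)) p + 11 at k2
    omega
  · change dw (fun v => pos (w v)) p ≤ dw pos p + 11 at k1
    omega
  · simp [dw_cast, f2, (hw w w1).2.1]

end Pool.Agent.MP_77f003_co.H49
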