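import Pool.Agent.MP_77f003_co.H51.HBasic

/-!
Far walks between rays in cyclic order do not cross.
-/

namespace Pool.Agent.MP_77f003_co.H49

namespace Z

open SimpleGraph Filter Set

variable {V : Type} {G : SimpleGraph V} {κ N : ℕ} {Y : Set V} {R : ZMod N → ℕ → V}
  {pos : V → ZMod N} {x₁ x₂ y₁ y₂ : V} {p : G.Walk x₁ x₂} {q : G.Walk y₁ y₂} {f g : Prop} {P Q : ℤ}

/-- The order of the boundary: feet upwards, then tops downwards. -/
def lt (f : Prop) (P : ℤ) (g : Prop) (Q : ℤ) : Prop :=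
  f ∧ ¬ g ∨ f ∧ g ∧ P < Q ∨ ¬ f ∧ ¬ g ∧ Q < P

/-- The ends do not interleave. -/
def Ok (f g : Prop) (P P' Q Q' : ℤ) : Prop :=
  (lt f P g Q ↔ lt f P False Q') ↔ (lt False P' g Q ↔ lt False P' False Q')

/-- Two far walks with typed ends. -/
structure Cf (G : SimpleGraph V) (κ : ℕ) (Y : Set V) (R : ZMod N → ℕ → V) (pos : V → ZMod N)
    {x₁ x₂ y₁ y₂ : V} (p : G.Walk x₁ x₂) (q : G.Walk y₁ y₂) (f g : Prop) (P Q : ℤ) : Prop where
  d1 : Deep G Y (10 * κ + 2) p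
  d2 : Deep G Y (10 * κ + 2) q
  far : Far G (8 * κ + 1) {z | z ∈ p.support} {z | z ∈ q.support}
  hP : (P : ZMod N) = pos x₁
  hQ : (Q : ZMod N) = pos y₁
  f1 : f → dp G Y x₁ ≤ 11 * κ + 2
  t1 : ¬ f → Top G κ R pos x₁ q
  t2 : Top G κ R pos x₂ q
  g1 : g → dp G Y y₁ ≤ 11 * κ + 2
  s1 : ¬ g → Top G κ R pos y₁ p
  s2 : Top G κ R pos y₂ p
  n22 : pos x₂ ≠ pos y₂
  n21 : ¬ g → pos x₂ ≠ pos y₁
  n12 : ¬ f → pos x₁ ≠ pos y₂
  n11 : ¬ f → ¬ g → pos x₁ ≠ pos y₁
  ff : f → g → P + 4 < Q ∨ Q + 4 < P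

theorem Cf.symm (h : Cf G κ Y R pos p q f g P Q) : Cf G κ Y R pos q p g f Q P :=
  ⟨h.d2, h.d1, h.far.symm, h.hQ, h.hP, h.g1, h.s1, h.s2, h.f1, h.t1, h.t2, h.n22.symm,
    fun e => (h.n12 e).symm, fun e => (h.n21 e).symm, fun e e' => (h.n11 e' e).symm,
    fun e e' => (h.ff e' e).symm⟩

theorem Cf.hP' (h : Cf G κ Y R pos p q f g P Q) : ((P + dw pos p : ℤ) : ZMod N) = pos x₂ := by
  simp [h.hP, dw_cast]

theorem Cf.ne (h : Cf G κ Y R pos p q f g P Q) : P + dw pos p ≠ Q + dw pos q ∧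
    (¬ g → P + dw pos p ≠ Q) ∧ (¬ f → P ≠ Q + dw pos q) ∧ (¬ f → ¬ g → P ≠ Q) :=
  ⟨fun e => h.n22 (by rw [← h.hP', e, h.symm.hP']), fun k e => h.n21 k (by rw [← h.hP', e, h.hQ]),
    fun k e => h.n12 k (by rw [← h.hP, e, h.symm.hP']),
    fun k k' e => h.n11 k k' (by rw [← h.hP, e, h.hQ])⟩

theorem Cf.ok (h : Cf G κ Y R pos p q f g P Q) (k : Ok g f Q (Q + dw pos q) P (P + dw pos p)) :
    Ok f g P (P + dw pos p) Q (Q + dw pos q) := by
  obtain ⟨e1, e2, e3, e4⟩ := h.ne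
  have e5 := h.ff
  by_cases a : f <;> by_cases b : g <;> simp only [Ok, lt, a, b] at * <;> grind

theorem top_mono {v a b : V} {r : G.Walk a b} (h : Top G κ R pos v p)
    (k : ∀ z ∈ r.support, z ∈ p.support) : Top G κ R pos v r :=
  let ⟨m, h1, h2⟩ := h; ⟨m, h1, h2.mono le_rfl k⟩

theorem Cf.split {v : V} {p₁ : G.Walk x₁ v} {p₂ : G.Walk v x₂}
    (h : Cf G κ Y R pos (p₁.append p₂) q f g P Q) (t : Top G κ R pos v q) (n2 : pos v ≠ pos y₂)
    (n1 : ¬ g → pos v ≠ pos y₁) :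
    Cf G κ Y R pos p₁ q f g P Q ∧ Cf G κ Y R pos p₂ q False g (P + dw pos p₁) Q := by
  have e1 : ∀ z ∈ p₁.support, z ∈ (p₁.append p₂).support := fun z hz => by simp [hz]
  have e2 : ∀ z ∈ p₂.support, z ∈ (p₁.append p₂).support := fun z hz => by simp [hz]
  exact ⟨⟨fun z hz => h.d1 z (e1 z hz), h.d2, h.far.mono e1 le_rfl, h.hP, h.hQ, h.f1, h.t1, t, h.g1,
    fun k => top_mono (h.s1 k) e1, top_mono h.s2 e1, n2, n1, h.n12, h.n11, h.ff⟩,
    ⟨fun z hz => h.d1 z (e2 z hz), h.d2, h.far.mono e2 le_rfl, by simp [h.hP, dw_cast], h.hQ,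
      False.elim, fun _ => t, h.t2, h.g1, fun k => top_mono (h.s1 k) e2, top_mono h.s2 e2, h.n22,
      h.n21, fun _ => n2, fun _ => n1, False.elim⟩⟩

theorem lnk_of {K : ℕ} {a b c d : ℕ → V} {S S' : Set V} {m1 m2 m3 m4 : ℕ}
    (h1 : Lk G S (a m1) (b m2)) (h2 : Lk G S' (c m3) (d m4)) (h3 : Far G K S S')
    (k1 : a '' Ici m1 ⊆ S) (k2 : b '' Ici m2 ⊆ S) (k3 : c '' Ici m3 ⊆ S') (k4 : d '' Ici m4 ⊆ S') :
    Lnk G K a b c d :=
  let ⟨L, l1, l2, l3, l4⟩ := h1.fin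
  let ⟨L', l5, l6, l7, l8⟩ := h2.fin
  ⟨L, L', m1, m2, m3, m4, l1, l5, l4 _ l3, l8 _ l7, h3.mono
    (union_subset (union_subset l2 k1) k2) (union_subset (union_subset l6 k3) k4)⟩

theorem nx' (h : PB G κ Y R) {a b c d E : ℤ} (l : Lnk G κ (R a) (R c) (R b) (R d))
    (e : (E - N < a ∧ a ≤ E) ∧ (E - N < b ∧ b ≤ E) ∧ (E - N < c ∧ c ≤ E) ∧ E - N < d ∧ d ≤ E)
    (n : a ≠ b ∧ a ≠ d ∧ c ≠ b ∧ c ≠ d) : (b < a ↔ d < a) ↔ (b < c ↔ d < c) := by
  have k1 := fun e1 e2 e3 e4 => h.nx a b c d e1 e2 e3 e4 l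
  have k2 := fun e1 e2 e3 e4 => h.nx c b a d e1 e2 e3 e4 l.s1
  have k3 := fun e1 e2 e3 e4 => h.nx a d c b e1 e2 e3 e4 l.s2.s1.s2
  have k4 := fun e1 e2 e3 e4 => h.nx c d a b e1 e2 e3 e4 l.s1.s2.s1.s2
  have k5 := fun e1 e2 e3 e4 => h.nx b a d c e1 e2 e3 e4 l.s2
  have k6 := fun e1 e2 e3 e4 => h.nx d a b c e1 e2 e3 e4 l.s2.s1
  have k7 := fun e1 e2 e3 e4 => h.nx b c d a e1 e2 e3 e4 l.s1.s2
  have k8 := fun e1 e2 e3 e4 => h.nx d c b a e1 e2 e3 e4 l.s1.s2.s1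
  grind

theorem exists_lift [NeZero N] (e : ZMod N) (P : ℤ) :
    ∃ E : ℤ, (E : ZMod N) = e ∧ E - N ≤ P ∧ P < E := by
  have := ZMod.val_lt (e - (P : ZMod N) - 1)
  exact ⟨P + 1 + (e - (P : ZMod N) - 1).val, by simp, by omega, by omega⟩

theorem window (h : PS G κ Y R pos) (hN : 3 ≤ N) (d : Deep G Y (10 * κ + 2) p)
    (hP : (P : ZMod N) = pos x₁) {E : ℤ} (k : ∀ v ∈ p.support, ∀ j, κ < G.dist v (R E j)) :
    P < E ↔ P + dw pos p < E := by
  by_contra c
  obtain ⟨v, v1, j, v2⟩ := h.pass hN p (fun z hz => le_trans (by omega) (d z hz)) hP (m := E)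
    (by grind)
  exact (k v v1 j).not_ge v2

theorem small (h : PS G κ Y R pos) (hN : 3 ≤ N) (d : Deep G Y (10 * κ + 2) p) {a b : ZMod N}
    (k : ∀ v ∈ p.support, ∀ c j, G.dist v (R c j) ≤ κ → c = a ∨ c = b) : |dw pos p| ≤ 2 := by
  have : NeZero N := ⟨by omega⟩
  have key : ∀ m : ℤ, ((pos x₁).val < m ∧ m ≤ (pos x₁).val + dw pos p ∨
      (pos x₁).val + dw pos p < m ∧ m ≤ (pos x₁).val) → (m : ZMod N) = a ∨ (m : ZMod N) = b :=
    fun m hm => by
      obtain ⟨v, v1, j, v2⟩ := h.pass hN p (fun z hz => le_trans (by omega) (d z hz)) (by simp) hm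
      exact k v v1 _ j v2
  have ne : ∀ m n : ℤ, m < n → n ≤ m + 2 → (m : ZMod N) ≠ n := fun m n h1 h2 e => by
    have := Int.le_of_dvd (by omega) ((ZMod.intCast_eq_intCast_iff_dvd_sub _ _ _).1 e)
    omega
  by_contra c
  obtain ⟨m, m1⟩ : ∃ m : ℤ, ∀ i : ℤ, 0 ≤ i → i ≤ 2 →
      ((pos x₁).val < m + i ∧ m + i ≤ (pos x₁).val + dw pos p ∨
      (pos x₁).val + dw pos p < m + i ∧ m + i ≤ (pos x₁).val) := by
    rcases lt_abs.1 (not_le.1 c) with k | k
    exacts [⟨(pos x₁).val + 1, by omega⟩, ⟨(pos x₁).val - 2, by omega⟩]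
  have k0 := key _ (m1 0 (by omega) (by omega))
  have k1 := key _ (m1 1 (by omega) (by omega))
  have k2 := key _ (m1 2 (by omega) (by omega))
  have e0 := ne (m + 0) (m + 1) (by omega) (by omega)
  have e1 := ne (m + 0) (m + 2) (by omega) (by omega)
  have e2 := ne (m + 1) (m + 2) (by omega) (by omega)
  grind

variable [Fact G.Connected]

/-- The way from a top to infinity. -/
structure Arm (G : SimpleGraph V) (κ : ℕ) (Y : Set V) (r : ℕ → V) (v : V) (S A : Set V) (m : ℕ) :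
    Prop where
  lk : Lk G A v (r m)
  tail : r '' Ici m ⊆ A
  near : ∀ z ∈ A, ∃ k, G.dist z (r k) ≤ κ
  far : Far G κ A S
  up : ∀ z ∈ A, 9 * κ + 2 ≤ dp G Y z ∧ (dp G Y z < 12 * κ + 2 → G.dist v z + 8 * κ + 2 ≤ dp G Y z)

theorem arm (h : PB G κ Y R) {v : V} (t : Top G κ R pos v q) (d : 10 * κ + 2 ≤ dp G Y v)
    (k : ∀ z ∈ q.support, 8 * κ + 1 ≤ G.dist v z) :
    ∃ A m, Arm G κ Y (R (pos v)) v {z | z ∈ q.support} A m := by
  obtain ⟨m, t1, t2⟩ := t
  have e := dp_tri (G := G) h.ne (R (pos v) m) v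
  rw [dcomm] at e
  refine ⟨{z | G.dist v z + G.dist z (R (pos v) m) ≤ κ} ∪ R (pos v) '' Ici m, m,
    Lk.geo fun z hz => Or.inl (hz.trans t1), subset_union_right, ?_,
    Far.union (fun z hz w hw => ?_) t2, ?_⟩
  · rintro z (hz | ⟨k, -, rfl⟩)
    exacts [⟨m, le_of_add_le_right hz⟩, ⟨k, by simp⟩]
  · have := k w hw
    have := tri (G := G) v z w
    have : G.dist v z ≤ κ := le_of_add_le_left hz
    omega
  · rintro z (hz | ⟨j, hj, rfl⟩)
    · have := dp_tri (G := G) h.ne z v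
      have : G.dist v z ≤ κ := le_of_add_le_left hz
      rw [dcomm z] at *
      omega
    · refine ⟨h.up (k := m) (by omega) (by omega) hj, fun c => ?_⟩
      have hj' : j ≤ 12 * κ + 2 := by_contra fun c' => c.not_ge (h.high _ j (by omega))
      have := tri (G := G) v (R (pos v) m) (R (pos v) j)
      have := (h.lr (pos v)).dist_le hj
      have : m ≤ j := hj
      rw [h.low _ m (by omega)] at e
      rw [h.low _ j hj']
      omega

theorem Arm.ray (h : PB G κ Y R) {a b : ZMod N} {v : V} {S A T : Set V} {m : ℕ}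
    (k : Arm G κ Y (R a) v S A m) (e : a ≠ b) (hT : ∀ z ∈ T, ∃ k, G.dist z (R b k) ≤ κ) :
    Far G κ A T := fun z hz w hw => by
  obtain ⟨i, hi⟩ := k.near z hz
  obtain ⟨j, hj⟩ := hT w hw
  have := h.far a b e _ ⟨i, rfl⟩ _ ⟨j, rfl⟩
  have := tri (G := G) (R a i) z (R b j)
  have := tri (G := G) z w (R b j)
  rw [dcomm (R a i) z] at *
  omega

theorem Cf.tt (c : Cf G κ Y R pos p q False False P Q) (h : PB G κ Y R) :
    Lnk G κ (R (pos x₁)) (R (pos x₂)) (R (pos y₁)) (R (pos y₂)) := by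
  obtain ⟨A, _, a⟩ := arm h (c.t1 id) (c.d1 _ p.start_mem_support) (c.far _ p.start_mem_support)
  obtain ⟨B, _, b⟩ := arm h c.t2 (c.d1 _ p.end_mem_support) (c.far _ p.end_mem_support)
  obtain ⟨C, _, d⟩ := arm h (c.s1 id) (c.d2 _ q.start_mem_support)
    (c.far.symm _ q.start_mem_support)
  obtain ⟨D, _, e⟩ := arm h c.s2 (c.d2 _ q.end_mem_support) (c.far.symm _ q.end_mem_support)
  refine lnk_of (S := {z | z ∈ p.support} ∪ A ∪ B) (S' := {z | z ∈ q.support} ∪ C ∪ D)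
    (((a.lk.symm.mono (by grind)).trans ⟨p, by grind⟩).trans (b.lk.mono (by grind)))
    (((d.lk.symm.mono (by grind)).trans ⟨q, by grind⟩).trans (e.lk.mono (by grind)))
    (((((c.far.le (by omega)).union' d.far.symm).union' e.far.symm).union
      ((a.far.union' (a.ray h (c.n11 id id) d.near)).union' (a.ray h (c.n12 id) e.near))).union
      ((b.far.union' (b.ray h (c.n21 id) d.near)).union' (b.ray h c.n22 e.near)))
    (a.tail.trans (by grind)) (b.tail.trans (by grind)) (d.tail.trans (by grind))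
    (e.tail.trans (by grind))

theorem Cf.ft (c : Cf G κ Y R pos p q True False P Q) (h : PB G κ Y R) {e : ZMod N}
    (e1 : pos y₁ ≠ e) (e2 : pos y₂ ≠ e) (e3 : ∀ v ∈ q.support, ∀ j, κ < G.dist v (R e j)) :
    Lnk G κ (R (pos y₁)) (R (pos y₂)) (R (pos x₂)) (R e) := by
  obtain ⟨B, _, b⟩ := arm h c.t2 (c.d1 _ p.end_mem_support) (c.far _ p.end_mem_support)
  obtain ⟨C, _, d⟩ := arm h (c.s1 id) (c.d2 _ q.start_mem_support)
    (c.far.symm _ q.start_mem_support)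
  obtain ⟨D, _, k⟩ := arm h c.s2 (c.d2 _ q.end_mem_support) (c.far.symm _ q.end_mem_support)
  let W := {z | dp G Y z = 0 ∨ G.dist x₁ z + dp G Y z ≤ 11 * κ + 2}
  have w1 : Y ⊆ W := fun y hy => Or.inl (by simpa using dp_le (G := G) hy y)
  have w2 : Lk G W x₁ (R e 0) := by
    obtain ⟨y, k1, k2⟩ := dp_ex (G := G) h.ne x₁
    obtain ⟨z, z1, z2⟩ := dp_ex (G := G) h.ne (R e 0)
    rw [h.low e 0 (by omega)] at z2
    refine (Lk.geo fun w hw => Or.inr ?_).trans ((h.conn y k1 _ (eq_of_dist z2 ▸ z1)).mono w1)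
    have := dp_le (G := G) k1 w
    have := c.f1 trivial
    rw [dcomm y] at *
    omega
  have w3 : Far G κ {z | z ∈ q.support} W := fun z hz w hw => by
    have := c.d2 z hz
    have := c.far _ p.start_mem_support z hz
    have := dp_tri (G := G) h.ne w z
    have := tri (G := G) x₁ w z
    rw [dcomm w z] at *
    rcases hw with hw | hw <;> omega
  have w4 : ∀ {r v S A m}, Arm G κ Y r v S A m → v ∈ q.support → Far G κ A W :=
    fun {r v S A m} a hv z hz w hw => by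
      have := a.up z hz
      have := c.far _ p.start_mem_support v hv
      have := dp_tri (G := G) h.ne w z
      have := tri (G := G) x₁ w v
      have := tri (G := G) w z v
      rw [dcomm w z, dcomm z v] at *
      rcases hw with hw | hw <;> omega
  have w5 : ∀ z ∈ range (R e), ∃ k, G.dist z (R e k) ≤ κ := by
    rintro _ ⟨j, rfl⟩
    exact ⟨j, by simp⟩
  refine lnk_of (S := {z | z ∈ q.support} ∪ C ∪ D)
    (S' := {z | z ∈ p.support} ∪ B ∪ W ∪ range (R e))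
    (((d.lk.symm.mono (by grind)).trans ⟨q, by grind⟩).trans (k.lk.mono (by grind)))
    (((b.lk.symm.mono (by grind)).trans (Lk.symm ⟨p, by grind⟩)).trans (w2.mono (by grind)))
    ((((((c.far.symm.le (by omega)).union' b.far.symm).union' w3).union' ?_).union
      (((d.far.union' (d.ray h (c.n21 id).symm b.near)).union' (w4 d q.start_mem_support)).union'
        (d.ray h e1 w5))).union (((k.far.union' (k.ray h c.n22.symm b.near)).union'
        (w4 k q.end_mem_support)).union' (k.ray h e2 w5)))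
    (d.tail.trans (by grind)) (k.tail.trans (by grind)) (b.tail.trans (by grind)) (by grind)
  rintro z hz _ ⟨j, rfl⟩
  exact (e3 z hz j).le

theorem Cf.fin (c : Cf G κ Y R pos p q f g P Q) (h : PS G κ Y R pos) (hN : 8 ≤ N) (hg : g → f)
    (k : ∀ v, v ∈ p.support ∨ v ∈ q.support → ∀ a j, G.dist v (R a j) ≤ κ →
      a = pos x₂ ∨ a = pos y₂ ∨ ¬ f ∧ a = pos x₁ ∨ ¬ g ∧ a = pos y₁) :
    Ok f g P (P + dw pos p) Q (Q + dw pos q) := by
  have : NeZero N := ⟨by omega⟩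
  obtain ⟨n1, n2, n3, n4⟩ := c.ne
  by_cases b : g
  · have a := hg b
    have e1 := small h (by omega) c.d1 (a := pos x₂) (b := pos y₂) fun v hv a' j e => by
      simpa [a, b] using k v (Or.inl hv) a' j e
    have e2 := small h (by omega) c.d2 (a := pos x₂) (b := pos y₂) fun v hv a' j e => by
      simpa [a, b] using k v (Or.inr hv) a' j e
    have := c.ff a b
    rw [abs_le] at e1 e2
    simp only [Ok, lt, a, b]
    grind
  obtain ⟨e, -, he⟩ := Finset.exists_mem_notMem_of_card_lt_card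
    (s := {pos x₁, pos x₂, pos y₁, pos y₂}) (t := Finset.univ)
    (Finset.card_le_four.trans_lt (by rw [Finset.card_univ, ZMod.card]; omega))
  simp only [Finset.mem_insert, Finset.mem_singleton, not_or] at he
  have k' : ∀ v, v ∈ p.support ∨ v ∈ q.support → ∀ j, κ < G.dist v (R e j) := fun v hv j =>
    not_le.1 fun l => by have := k v hv e j l; grind
  obtain ⟨E, E1, E2, E3⟩ := exists_lift e Q
  have E4 : ((E - N : ℤ) : ZMod N) = e := by simp [E1]
  have q1 := window h (by omega) c.d2 c.hQ (E := E) fun v hv => E1 ▸ k' v (Or.inr hv)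
  have q2 := window h (by omega) c.d2 c.hQ (E := E - N) fun v hv => E4 ▸ k' v (Or.inr hv)
  have q3 : Q ≠ E - N := fun l => he.2.2.1 (by rw [← E4, ← l, c.hQ])
  have q4 : Q + dw pos q ≠ E - N := fun l => he.2.2.2 (by rw [← E4, ← l, c.symm.hP'])
  obtain rfl : g = False := eq_false b
  by_cases a : f
  · obtain rfl : f = True := eq_true a
    have l := c.ft h.toPB (Ne.symm he.2.2.1) (Ne.symm he.2.2.2) fun v hv => k' v (Or.inr hv)
    rw [← c.hQ, ← c.symm.hP', ← c.hP', ← E1] at l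
    have := nx' h.toPB l (E := E)
    simp only [Ok, lt]
    grind
  · obtain rfl : f = False := eq_false a
    have l := c.tt h.toPB
    rw [← c.hQ, ← c.symm.hP', ← c.hP', ← c.hP] at l
    have := nx' h.toPB l (E := E - 1)
    have p1 := window h (by omega) c.d1 c.hP (E := E) fun v hv => E1 ▸ k' v (Or.inl hv)
    have p2 := window h (by omega) c.d1 c.hP (E := E - N) fun v hv => E4 ▸ k' v (Or.inl hv)
    simp only [Ok, lt]
    grind

open Classical in
theorem core (h : PS G κ Y R pos) (hN : 8 ≤ N) (n : ℕ) : ∀ {x₁ x₂ y₁ y₂ : V} (p : G.Walk x₁ x₂)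
    (q : G.Walk y₁ y₂) (f g : Prop) (P Q : ℤ), Cf G κ Y R pos p q f g P Q →
    p.length + (if f then 1 else 0) + (q.length + if g then 1 else 0) < n →
    Ok f g P (P + dw pos p) Q (Q + dw pos q) := by
  induction n with
  | zero => exact fun _ _ _ _ _ _ _ e => absurd e (Nat.not_lt_zero _)
  | succ n ih =>
  have step : ∀ {x₁ x₂ y₁ y₂ : V} (p : G.Walk x₁ x₂) (q : G.Walk y₁ y₂) (f g : Prop) (P Q : ℤ),
      Cf G κ Y R pos p q f g P Q →
      p.length + (if f then 1 else 0) + (q.length + if g then 1 else 0) < n + 1 →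
      ∀ v ∈ p.support, ∀ a m, G.dist v (R a m) ≤ κ →
      (∀ z ∈ q.support, ∀ j, m < j → κ < G.dist z (R a j)) → a ≠ pos x₂ → a ≠ pos y₂ →
      (¬ f → a ≠ pos x₁) → (¬ g → a ≠ pos y₁) → Ok f g P (P + dw pos p) Q (Q + dw pos q) := by
    intro x₁ x₂ y₁ y₂ p q f g P Q c hn v hv a m e1 e2 e3 e4 e5 e6
    obtain rfl : pos v = a := h.on a m v (lt_of_lt_of_le (by omega) (c.d1 v hv)) e1
    obtain ⟨p₁, p₂, rfl⟩ := Walk.mem_support_iff_exists_append.1 hv
    obtain ⟨c1, c2⟩ := c.split ⟨m, e1, by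
      rintro _ ⟨j, hj, rfl⟩ z hz
      rcases eq_or_lt_of_le (show m ≤ j from hj) with rfl | hj
      · have := c.far v hv z hz
        have := tri (G := G) v (R (pos v) m) z
        omega
      · exact dcomm z _ ▸ (e2 z hz j hj).le⟩ e4 e6
    rw [Walk.length_append] at hn
    have l2 : p₂.length ≠ 0 := fun e => e3 (congrArg pos (Walk.eq_of_length_eq_zero e))
    have l1 : ¬ f → p₁.length ≠ 0 := fun k e =>
      e5 k (congrArg pos (Walk.eq_of_length_eq_zero e)).symm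
    rw [dw_append, ← add_assoc]
    refine (ih _ _ _ _ _ _ c1 (by omega)).trans (ih _ _ _ _ _ _ c2 ?_)
    by_cases k : f
    · simp only [k, if_true, if_false] at hn ⊢
      omega
    · have := l1 k
      simp only [k, if_false] at hn ⊢
      omega
  intro x₁ x₂ y₁ y₂ p q f g P Q c hn
  by_cases k : ∀ v, v ∈ p.support ∨ v ∈ q.support → ∀ a j, G.dist v (R a j) ≤ κ →
      a = pos x₂ ∨ a = pos y₂ ∨ ¬ f ∧ a = pos x₁ ∨ ¬ g ∧ a = pos y₁
  · by_cases hg : g → f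
    · exact c.fin h hN hg k
    · exact c.ok (c.symm.fin h hN (by tauto) fun v hv a j e => by
        have := k v hv.symm a j e; tauto)
  push Not at k
  obtain ⟨v, hv, a, j, e, e3, e4, e5, e6⟩ := k
  obtain ⟨t, ht⟩ := eventually_atTop.1 ((h.lr a).tail (S := {z | z ∈ p.support ∨ z ∈ q.support})
    (p.support.finite_toSet.union q.support.finite_toSet) (κ + 1))
  obtain ⟨m, ⟨w, w1, w2⟩, hm⟩ := Set.exists_max_image
    {j | ∃ v, (v ∈ p.support ∨ v ∈ q.support) ∧ G.dist v (R a j) ≤ κ} id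
    ((finite_Iio t).subset fun i ⟨w, w1, w2⟩ => not_le.1 fun l =>
      (ht i l w w1 _ ⟨i, self_mem_Ici, rfl⟩).not_gt (Nat.lt_succ_of_le w2)) ⟨j, v, hv, e⟩
  have k : ∀ z, z ∈ p.support ∨ z ∈ q.support → ∀ j, m < j → κ < G.dist z (R a j) :=
    fun z hz j hj => not_le.1 fun l => hj.not_ge (hm j ⟨z, hz, l⟩)
  rcases w1 with w1 | w1
  · exact step p q f g P Q c hn w w1 a m w2 (fun z hz => k z (Or.inr hz)) e3 e4 e5 e6
  · exact c.ok (step q p g f Q P c.symm (by omega) w w1 a m w2 (fun z hz => k z (Or.inl hz))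
      e4 e3 e6 e5)

end Z

theorem zSpec : ZSpec := by
  intro V G _ κ N _ Y R pos _ hN h x₁ x₂ y₁ y₂ p q P Q d1 d2 far hP hQ f1 t2 s2 n22
  refine ⟨fun s1 n21 => ?_, fun g1 e => ?_⟩
  · simpa [Z.Ok, Z.lt] using Z.core h hN _ p q True False P Q ⟨d1, d2, far, hP, hQ, fun _ => f1,
      by simp, t2, by simp, fun _ => s1, s2, n22, fun _ => n21, by simp, by simp, by simp⟩
      (Nat.lt_succ_self _)
  · have c : Z.Cf G κ Y R pos p q True True P Q := ⟨d1, d2, far, hP, hQ, fun _ => f1, by simp, t2,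
      fun _ => g1, by simp, s2, n22, by simp, by simp, by simp, fun _ _ => Or.inl e⟩
    have k := Z.core h hN _ p q True True P Q c (Nat.lt_succ_self _)
    have := c.ne.1
    simp only [Z.Ok, Z.lt] at k
    grind

end Pool.Agent.MP_77f003_co.H49
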