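import Pool.Agent.MP_77f003_co.H51.TrC
import Pool.Agent.MP_77f003_co.H95.Scatter

/-!
The tracks of a nested family form an invariant abstract system of tracks.
-/

namespace Pool.Agent.MP_77f003_co.H49

open scoped Pointwise
open SimpleGraph MulAction Relation

variable {V : Type} {G : SimpleGraph V} {L : ℕ} {M : Set (Set V)} {Γ : Subgroup (G ≃g G)}
  {τ σ : Set (V × V)} {B C : Set V}

/-- `τ` is a track of the member `B`. -/
def IsT (G : SimpleGraph V) (L : ℕ) (M : Set (Set V)) (τ : Set (V × V)) (B : Set V) : Prop :=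
  B ∈ M ∧ ∃ e ∈ cb G L B, τ = trk G L B e

theorem IsT.sub (h : IsT G L M τ B) : τ ⊆ cb G L B :=
  let ⟨_, _, h1, h2⟩ := h
  h2 ▸ scatter_sub h1

theorem IsT.eq (h : IsT G L M τ B) {e} (he : e ∈ τ) : τ = trk G L B e := by
  obtain ⟨-, _, -, rfl⟩ := h
  exact (scatter_eq he).symm

theorem IsT.left (h : IsT G L M τ B) {a b b'} (k : (a, b) ∈ τ) (h1 : b' ∉ B)
    (h2 : G.dist a b' ≤ L) (h3 : G.dist b b' ≤ L) : (a, b') ∈ τ :=
  h.eq k ▸ ReflTransGen.single ⟨h.sub k, ⟨(h.sub k).1, h1, h2⟩, Or.inl ⟨rfl, h3⟩⟩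

theorem IsT.right (h : IsT G L M τ B) {a a' b} (k : (a, b) ∈ τ) (h1 : a' ∈ B)
    (h2 : G.dist a' b ≤ L) (h3 : G.dist a a' ≤ L) : (a', b) ∈ τ :=
  h.eq k ▸ ReflTransGen.single ⟨h.sub k, ⟨h1, (h.sub k).2.1, h2⟩, Or.inr ⟨rfl, h3⟩⟩

theorem trSwap {p q : V × V} (h : q ∈ trk G L B p) : q.swap ∈ trk G L Bᶜ p.swap := by
  have k : ∀ {q : V × V}, q ∈ cb G L B → q.swap ∈ cb G L Bᶜ := fun h =>
    ⟨h.2.1, not_not.2 h.1, dcomm (G := G) _ _ ▸ h.2.2⟩
  induction h with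
  | refl => exact scatter_self _ _
  | tail _ h ih => exact ih.tail ⟨k h.1, k h.2.1, h.2.2.symm⟩

theorem IsT.rev (hM : GFam G Γ M) (h : IsT G L M τ B) : IsT G L M (Prod.swap ⁻¹' τ) Bᶜ := by
  obtain ⟨h1, e, h2, rfl⟩ := h
  exact ⟨hM.compl _ h1, e.swap, ⟨h2.2.1, not_not.2 h2.1, dcomm (G := G) _ _ ▸ h2.2.2⟩,
    Set.ext fun q => ⟨fun k => trSwap k, fun k => by simpa using trSwap k⟩⟩

theorem IsT.conv {B' : Set V} (h : IsT G L M τ B) (h' : IsT G L M τ C) (k : B' ∈ M) (h1 : B ⊆ B')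
    (h2 : B' ⊆ C) : IsT G L M τ B' := by
  obtain ⟨e, he⟩ : τ.Nonempty := let ⟨_, e, _, h2⟩ := h; ⟨e, h2 ▸ scatter_self _ _⟩
  have s : τ ⊆ cb G L B' := fun p hp =>
    ⟨h1 (h.sub hp).1, fun k => (h'.sub hp).2.1 (h2 k), (h.sub hp).2.2⟩
  refine ⟨k, e, s he, Set.ext fun q => ⟨fun hq => ?_, fun hq => ?_⟩⟩
  · rw [h.eq he] at hq s
    induction hq with
    | refl => exact scatter_self _ _
    | tail a b ih => exact ih.tail ⟨s a, s (a.tail b), b.2.2⟩
  · induction hq with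
    | refl => exact he
    | @tail a b _ k ih =>
      obtain ⟨-, ⟨k1, k2, k3⟩, ⟨e1, e2⟩ | ⟨e1, e2⟩⟩ := k
      · exact (e1 ▸ h.left ih (fun k => k2 (h1 k)) (e1 ▸ k3) e2 : (b.1, b.2) ∈ τ)
      · exact (e1 ▸ h'.right ih (h2 k1) (e1 ▸ k3) e2 : (b.1, b.2) ∈ τ)

theorem IsT.comp (hM : GFam G Γ M) (h : IsT G L M τ B) (h' : IsT G L M σ C) {e} (he : e ∈ τ)
    (he' : e ∈ σ) : B ⊆ C ∨ C ⊆ B := by
  rcases hM.nest B h.1 C h'.1 with k | k | k | k
  exacts [Or.inl k, absurd (h'.sub he').1 (k (h.sub he).1),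
    absurd (k (h.sub he).2.1) (h'.sub he').2.1, Or.inr (Set.compl_subset_compl.1 k)]

theorem IsT.all (hM : GFam G Γ M) (h : IsT G L M τ B) (h' : IsT G L M σ C) {e} (he : e ∈ τ)
    (he' : e ∈ σ) (k : B ⊆ C) : τ = σ ∨ ∀ B' C', IsT G L M τ B' → IsT G L M σ C' → B' ⊆ C' := by
  refine or_iff_not_imp_left.2 fun hn B' C' k1 k2 => (k1.comp hM k2 he he').elim id fun k3 => ?_
  rcases k1.comp hM h' he he' with k4 | k4
  · exact absurd (((k2.conv h' k1.1 k3 k4).eq he').trans (k1.eq he).symm).symm hn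
  · exact absurd (((h.conv k1 h'.1 k k4).eq he).trans (h'.eq he').symm) hn

open Classical in
theorem IsT.cocycle (h : IsT G L M τ B) {x y z : V} (h1 : G.dist x y ≤ L) (h2 : G.dist y z ≤ L)
    (h3 : G.dist x z ≤ L) :
    ((if (x, y) ∈ τ then 1 else 0) - if (y, x) ∈ τ then 1 else 0 : ℝ) +
      ((if (y, z) ∈ τ then 1 else 0) - if (z, y) ∈ τ then 1 else 0) =
      (if (x, z) ∈ τ then 1 else 0) - if (z, x) ∈ τ then 1 else 0 := by
  have n1 : ∀ a b, a ∉ B → (a, b) ∉ τ := fun a b k k' => k (h.sub k').1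
  have n2 : ∀ a b, b ∈ B → (a, b) ∉ τ := fun a b k k' => (h.sub k').2.1 k
  have k1 : ∀ {a b b'}, b ∉ B → b' ∉ B → G.dist a b ≤ L → G.dist a b' ≤ L → G.dist b b' ≤ L →
      ((a, b) ∈ τ ↔ (a, b') ∈ τ) := fun e1 e2 e3 e4 e5 =>
    ⟨fun k => h.left k e2 e4 e5, fun k => h.left k e1 e3 (dcomm (G := G) _ _ ▸ e5)⟩
  have k2 : ∀ {a a' b}, a ∈ B → a' ∈ B → G.dist a b ≤ L → G.dist a' b ≤ L → G.dist a a' ≤ L →
      ((a, b) ∈ τ ↔ (a', b) ∈ τ) := fun e1 e2 e3 e4 e5 =>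
    ⟨fun k => h.right k e2 e4 e5, fun k => h.right k e1 e3 (dcomm (G := G) _ _ ▸ e5)⟩
  have h1' := dcomm (G := G) x y ▸ h1
  have h2' := dcomm (G := G) y z ▸ h2
  have h3' := dcomm (G := G) x z ▸ h3
  by_cases hx : x ∈ B <;> by_cases hy : y ∈ B <;> by_cases hz : z ∈ B
  · simp [*]
  · simp [n1, n2, hx, hy, hz, k2 hx hy h3 h2 h1]
  · simp [n1, n2, hx, hy, hz, k2 hx hz h1 h2' h3]
  · simp [n1, hy, hz, k1 hy hz h1 h3 h2]
  · simp [n1, n2, hx, hy, hz, k2 hy hz h1' h3' h2]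
  · simp [n1, hx, hz, k1 hx hz h1' h2 h3]
  · simp [n1, hx, hy, k1 hx hy h3' h2' h1]
  · simp [*]

variable [Fact G.Connected]

theorem IsT.smul (hM : GFam G Γ M) (h : IsT G L M τ B) (g : Γ) :
    IsT G L M (g • τ) ((g⁻¹).1 ⁻¹' B) := by
  obtain ⟨h1, e, h2, rfl⟩ := h
  refine ⟨hM.inv _ h1 _ (g⁻¹).2, Prod.map g.1 g.1 e, by simpa [cb, dist_iso] using h2,
    Set.ext fun q => ⟨?_, fun k => ?_⟩⟩
  · rintro ⟨p, hp, rfl⟩
    exact scatter_map g.1 (by simp) hp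
  · rw [Set.mem_smul_set_iff_inv_smul_mem]
    have := scatter_map (g⁻¹).1 (fun _ => Iff.rfl) k
    rwa [show Prod.map (g⁻¹).1 (g⁻¹).1 (Prod.map g.1 g.1 e) = e by ext <;> simp] at this

theorem trDiam (hL : 1 ≤ L) {s : ℕ} {e q : V × V} (h : (trk G L B e).encard ≤ s)
    (hq : q ∈ trk G L B e) : G.dist e.1 q.1 ≤ s * L := by
  have key : ∀ i, i * L ≤ G.dist e.1 q.1 → ∃ p ∈ trk G L B e, G.dist e.1 p.1 / L = i := by
    induction hq with
    | refl => exact fun i hi => ⟨e, scatter_self _ _, by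
        rw [dist_self] at hi ⊢; rw [Nat.zero_div]; nlinarith⟩
    | @tail a b k1 k2 ih =>
      intro i hi
      by_cases k : i * L ≤ G.dist e.1 a.1
      · exact ih i k
      · have t1 := tri (G := G) e.1 a.1 b.1
        have t2 : G.dist a.1 b.1 ≤ L := k2.2.2.elim (fun k => by simp [k.1]) (·.2)
        exact ⟨b, k1.tail k2, Nat.div_eq_of_lt_le hi (by rw [add_mul]; omega)⟩
  by_contra k
  have : ((Finset.range (s + 1) : Finset ℕ) : Set ℕ) ⊆
      (fun p => G.dist e.1 p.1 / L) '' trk G L B e := fun i hi =>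
    key i ((Nat.mul_le_mul_right L (Nat.lt_succ_iff.1 (Finset.mem_range.1 hi))).trans (by omega))
  have := ((Set.encard_le_encard this).trans (Set.encard_image_le _ _)).trans h
  rw [Set.encard_coe_eq_coe_finsetCard, Finset.card_range] at this
  exact absurd (by exact_mod_cast this) (Nat.not_succ_le_self s)

/-- The tracks. -/
def TX (hM : GFam G Γ M) (L : ℕ) : SubMulAction Γ (Set (V × V)) where
  carrier := {τ | ∃ B, IsT G L M τ B}
  smul_mem' := fun g _ ⟨_, h⟩ => ⟨_, h.smul hM g⟩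

/-- The tracks as an abstract system. -/
def trTO (hM : GFam G Γ M) (L : ℕ) (hf : ∀ e, {x : TX hM L | e ∈ x.1}.Finite) :
    TO (TX hM L) (V × V) where
  m e x := e ∈ x.1
  rv x := ⟨Prod.swap ⁻¹' x.1, let ⟨_, h⟩ := x.2; ⟨_, h.rev hM⟩⟩
  sw := Prod.swap
  le x y := x = y ∨ ∀ B C, IsT G L M x.1 B → IsT G L M y.1 C → B ⊆ C
  rv_rv _ := rfl
  sw_sw _ := rfl
  m_rv _ _ := Iff.rfl
  refl _ := Or.inl rfl
  trans := by
    rintro x y z (rfl | h) (rfl | h')
    exacts [Or.inl rfl, Or.inr h', Or.inr h, let ⟨_, k⟩ := y.2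
      Or.inr fun B C k1 k2 => (h _ _ k1 k).trans (h' _ _ k k2)]
  tot := fun {e x y} h h' => by
    obtain ⟨B, k⟩ := x.2
    obtain ⟨C, k'⟩ := y.2
    exact (k.comp hM k' h h').imp (fun e => (k.all hM k' h h' e).imp_left Subtype.ext)
      fun e => (k'.all hM k h' h e).imp_left Subtype.ext
  anti := fun {e x y} h h' k k' => k.elim id fun k => k'.elim Eq.symm fun k' => by
    obtain ⟨B, k1⟩ := x.2
    obtain ⟨C, k2⟩ := y.2
    obtain rfl := (k _ _ k1 k2).antisymm (k' _ _ k2 k1)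
    exact Subtype.ext ((k1.eq h).trans (k2.eq h').symm)
  le_rv := fun h => h.imp (by rintro rfl; rfl) fun h B C k k' =>
    Set.compl_subset_compl.1 (h _ _ (k'.rev hM) (k.rev hM))
  fin := hf
  ne x := let ⟨_, _, e, _, h⟩ := x.2; ⟨e, h ▸ scatter_self _ _⟩
  asym := fun {e x} h h' => let ⟨_, k⟩ := x.2; (k.sub h).2.1 (k.sub h').1
  ext h := Subtype.ext (Set.ext h)
  conn := fun {x e e'} h h' => by
    obtain ⟨B, k⟩ := x.2
    rw [k.eq h] at h'
    induction h' with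
    | refl => exact ReflTransGen.refl
    | @tail a b k1 k2 ih =>
      have ha : a ∈ x.1 := k.eq h ▸ k1
      have hb : b ∈ x.1 := k.eq h ▸ k1.tail k2
      refine ih.tail ⟨hb, k2.2.2.imp (fun ⟨e1, e2⟩ y hy => ?_) fun ⟨e1, e2⟩ y hy => ?_⟩
      all_goals
        rcases hy with rfl | hy
        · exact iff_of_true ha hb
        obtain ⟨C, k'⟩ := y.2
      · have := hy _ _ k' k
        exact ⟨fun t => (e1 ▸ k'.left t (fun t => k2.2.1.2.1 (this t)) (e1 ▸ k2.2.1.2.2) e2 :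
          (b.1, b.2) ∈ y.1), fun t => (e1 ▸ k'.left t (fun t => k2.1.2.1 (this t))
            (e1 ▸ k2.1.2.2) (dcomm (G := G) _ _ ▸ e2) : (a.1, a.2) ∈ y.1)⟩
      · have := hy _ _ k k'
        exact ⟨fun t => (e1 ▸ k'.right t (this k2.2.1.1) (e1 ▸ k2.2.1.2.2) e2 :
          (b.1, b.2) ∈ y.1), fun t => (e1 ▸ k'.right t (this k2.1.1)
            (e1 ▸ k2.1.2.2) (dcomm (G := G) _ _ ▸ e2) : (a.1, a.2) ∈ y.1)⟩

theorem trEqv (hM : GFam G Γ M) (hf : ∀ e, {x : TX hM L | e ∈ x.1}.Finite)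
    (hf' : ∀ x : TX hM L, x.1.Finite) : (trTO hM L hf).Eqv Γ where
  m _ _ _ h := Set.smul_mem_smul_set h
  rv g x := Subtype.ext (Set.ext fun p => by
    change p.swap ∈ g • x.1 ↔ p ∈ g • (Prod.swap ⁻¹' x.1)
    simp only [Set.mem_smul_set_iff_inv_smul_mem]
    rfl)
  le g x y h := h.imp (congrArg _) fun h B C k k' => by
    have := h _ _ (by simpa using k.smul hM g⁻¹) (by simpa using k'.smul hM g⁻¹)
    exact (Set.preimage_subset_preimage_iff (by rw [g.1.surjective.range_eq]; simp)).1 this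
  fin := hf'

omit [Fact G.Connected] in
theorem trEquiv {Γ X : Type} [Group Γ] [MulAction Γ X] (P : Subgroup Γ)
    (h : ∀ x : X, ∃ g : Γ, ∀ φ : Γ, φ • x = x → g⁻¹ * φ * g ∈ P) :
    ∃ π : X → Γ ⧸ P, ∀ (g : Γ) x, π (g • x) = g • π x := by
  let r : X → X := fun x => (Quotient.mk (orbitRel Γ X) x).out
  have k : ∀ x, ∃ g : Γ, g • r x = x := fun x =>
    (orbitRel Γ X).symm (Quotient.mk_out (s := orbitRel Γ X) x)
  choose a ha using k
  choose b hb using h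
  refine ⟨fun x => (a x * b (r x) : Γ), fun g x => ?_⟩
  have : r (g • x) = r x := congrArg Quotient.out (Quotient.sound (mem_orbit x g))
  have e := hb (r x) ((a (g • x))⁻¹ * (g * a x)) (by
    rw [mul_smul, mul_smul, ha, inv_smul_eq_iff, ← this, ha])
  dsimp only
  rw [this, MulAction.Quotient.smul_mk, QuotientGroup.eq]
  simpa [mul_assoc] using e

variable [G.LocallyFinite]

theorem trBall (o x : V) (r : ℕ) : {w : orbit Γ o | G.dist w x ≤ r}.Finite :=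
  ((finite_ball (G := G) x r).preimage Subtype.val_injective.injOn).subset fun w hw =>
    (dcomm (G := G) _ _ ▸ hw : G.dist x w ≤ r)

theorem trQuot {P : Subgroup (G ≃g G)} (o : V) {u v : V} (hP : FinOrb P)
    (h : ∀ φ ∈ Γ, φ u = u → φ v = v → φ ∈ P) :
    GS Γ fun y : Γ ⧸ P.subgroupOf Γ => {w | ∃ g : Γ, (g : Γ ⧸ P.subgroupOf Γ) = y ∧ g • bp Γ o = w} where
  fin y := by
    obtain ⟨a, rfl⟩ := QuotientGroup.mk_surjective y
    refine (((hP o).image a.1).preimage Subtype.val_injective.injOn).subset ?_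
    rintro _ ⟨g, k, rfl⟩
    exact ⟨_, ⟨⟨_, Subgroup.mem_subgroupOf.1 (QuotientGroup.eq.1 k.symm)⟩, rfl⟩, by
      change a.1 ((a⁻¹ * g : Γ).1 o) = g.1 o
      simp⟩
  ne y := let ⟨a, h⟩ := QuotientGroup.mk_surjective y; ⟨_, a, h, rfl⟩
  eqv := by
    rintro g _ _ ⟨a, rfl, rfl⟩
    exact ⟨g * a, rfl, mul_smul _ _ _⟩
  lf w := by
    refine (((finite_ball (G := G) w (G.dist o u)).prod (finite_ball (G := G) w (G.dist o v))).biUnion
      (t := fun p => {y | ∃ g : Γ, (g : Γ ⧸ P.subgroupOf Γ) = y ∧ (g.1 u, g.1 v) = p})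
      fun p _ => Set.Subsingleton.finite ?_).subset ?_
    · rintro _ ⟨a, rfl, rfl⟩ _ ⟨b, rfl, k⟩
      simp only [Prod.mk.injEq] at k
      exact QuotientGroup.eq.2 (h _ (a⁻¹ * b).2 (by simp [k.1]) (by simp [k.2]))
    · rintro _ ⟨a, rfl, rfl⟩
      exact Set.mem_biUnion (x := (a.1 u, a.1 v)) ⟨(dist_iso a.1 _ _).le, (dist_iso a.1 _ _).le⟩
        ⟨a, rfl, rfl⟩

theorem gTrackSpec : GTrackSpec := by
  classical
  intro V G _ _ Γ P M o u v D hT hM hP h1 h2 h3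
  have gq := trQuot o hP h1
  refine ⟨wsum (fun y : Γ ⧸ P.subgroupOf Γ =>
    {w | ∃ g : Γ, (g : Γ ⧸ P.subgroupOf Γ) = y ∧ g • bp Γ o = w}) (bp Γ o) 1, ?_,
    fun L s hL hs => ?_⟩
  · rw [wsum, finsum_mem_eq_finite_toFinset_sum _ (gq.lf _)]
    refine Finset.sum_pos (fun y _ => div_pos one_pos (Nat.cast_pos.2
      ((Set.ncard_pos (gq.fin y)).2 (gq.ne y)))) ⟨(1 : Γ), ?_⟩
    exact (Set.Finite.mem_toFinset _).2 ⟨1, rfl, one_smul _ _⟩
  have cs : ∀ x : TX hM L, x.1.encard ≤ s := fun x =>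
    let ⟨B, k, e, k1, k2⟩ := x.2; k2 ▸ hs B k e k1
  have hf' : ∀ x : TX hM L, x.1.Finite := fun x => Set.finite_of_encard_le_coe (cs x)
  have fp : ∀ x r, {q : V × V | G.dist x q.1 ≤ r ∧ G.dist q.1 q.2 ≤ L}.Finite := fun x r =>
    ((finite_ball (G := G) x r).prod (finite_ball (G := G) x (r + L))).subset fun q hq =>
      ⟨hq.1, (tri x q.1 q.2).trans (add_le_add hq.1 hq.2)⟩
  have hf : ∀ e, {x : TX hM L | e ∈ x.1}.Finite := fun e =>
    ((fp e.1 (s * L)).finite_subsets.preimage Subtype.val_injective.injOn).subset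
      fun x hx q hq => let ⟨_, k⟩ := x.2
        ⟨trDiam hL (k.eq hx ▸ cs x) (k.eq hx ▸ hq), (k.sub hq).2.2⟩
  have gs : GS Γ fun x : TX hM L => {w : orbit Γ o | ∃ p ∈ x.1, G.dist w p.1 ≤ D + L} :=
    { fin := fun x => ((hf' x).biUnion fun p _ => trBall o p.1 (D + L)).subset
        fun w ⟨p, k, k'⟩ => Set.mem_biUnion k k'
      ne := fun x => by
        obtain ⟨B, k, e, k1, k2⟩ := x.2
        obtain ⟨p, p1, p2, -⟩ := cross_geo (G := G) k1.1 k1.2.1
        obtain ⟨φ, p3, p4⟩ := h3 B k p p1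
        exact ⟨⟨φ o, ⟨φ, p3⟩, rfl⟩, e, k2 ▸ scatter_self _ _, (tri _ p.1 _).trans
          (add_le_add p4 (dcomm (G := G) _ _ ▸ p2.trans k1.2.2))⟩
      eqv := fun g x w ⟨p, k, k'⟩ => ⟨_, Set.smul_mem_smul_set k, (dist_iso g.1 _ _).trans_le k'⟩
      lf := fun w => ((fp w (D + L)).biUnion fun p _ => hf p).subset fun x ⟨p, k, k'⟩ =>
        Set.mem_biUnion (x := p) ⟨k', let ⟨_, k''⟩ := x.2; (k''.sub k).2.2⟩ k }
  have ev := trEqv hM hf hf'
  obtain ⟨R, _, sR, D', q, a1, a2, a3, a4, a5, a6, a7, a8⟩ := ev.exact hT gs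
  obtain ⟨n, hn⟩ := gs.trBdd hT (f := fun x => {y | ∃ e, e ∈ x.1 ∧ e ∈ y.1})
    (fun x => ((hf' x).biUnion fun e _ => hf e).subset fun y ⟨e, k, k'⟩ =>
      Set.mem_biUnion k k') fun g x y ⟨e, k, k'⟩ => ⟨_, ev.m g _ _ k, ev.m g _ _ k'⟩
  have mt : ∀ f : ND G Γ o D → V × V, Function.Injective f →
      Mat fun (x : TX hM L) d => if f d ∈ x.1 then (1 : ℝ) else 0 := fun f i => by
    refine trMat_ind (b := s + n) (fun x => ((Set.encard_le_encard_of_injOn (f := f) (t := x.1)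
      (fun _ h => h) i.injOn).trans (cs x)).trans (by simp)) fun d => ?_
    rcases Set.eq_empty_or_nonempty {y : TX hM L | f d ∈ y.1} with k | ⟨x, k⟩
    · simp [k]
    · refine le_trans (Set.encard_le_encard fun y hy => ?_) ((hn x).trans (by simp))
      exact ⟨_, k, hy⟩
  have i1 : Function.Injective fun d : ND G Γ o D => d.1.toProd :=
    Dart.toProd_injective.comp Subtype.val_injective
  let S : (TX hM L → ℝ) → V × V → ℝ := fun c p =>
    ∑ᶠ x : TX hM L, ((if p ∈ x.1 then 1 else 0) - if p.swap ∈ x.1 then 1 else 0 : ℝ) * c x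
  have sf : ∀ (c : TX hM L → ℝ) p, (Function.support fun x : TX hM L =>
      (if p ∈ x.1 then 1 else 0 : ℝ) * c x).Finite := fun c p =>
    (hf p).subset fun x hx => by_contra fun k => hx (by simp [show p ∉ x.1 from k])
  have sf' : ∀ (c : TX hM L → ℝ) (p : V × V), (Function.support fun x : TX hM L =>
      ((if p ∈ x.1 then 1 else 0) - if p.swap ∈ x.1 then 1 else 0 : ℝ) * c x).Finite := fun c p =>
    ((hf p).union (hf p.swap)).subset fun x hx => by_contra fun k => hx (by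
      simp [show p ∉ x.1 from fun h => k (Or.inl h), show p.swap ∉ x.1 from fun h => k (Or.inr h)])
  have hS : ∀ c p, S c p = ∑ᶠ z ∈ {z | (trTO hM L hf).m p z}, (c z - c ((trTO hM L hf).rv z)) := by
    intro c p
    simp only [S, sub_mul]
    rw [finsum_sub_distrib (sf c p) (sf c p.swap), finsum_mem_sub_distrib _ _ ((trTO hM L hf).fin p),
      ← finsum_comp_equiv (Function.Involutive.toPerm _ (trTO hM L hf).rv_rv)
        (f := fun x : TX hM L => (if p.swap ∈ x.1 then 1 else 0 : ℝ) * c x)]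
    exact congrArg₂ _ (trApp_ind (fun p (x : TX hM L) => p ∈ x.1) c p)
      (trApp_ind (fun p (x : TX hM L) => p ∈ x.1) (fun z => c ((trTO hM L hf).rv z)) p)
  have z0 : ∀ c p, (∀ B ∈ M, p ∉ cb G L B) → S c p = 0 := fun c p k => by
    rw [hS, show {z | (trTO hM L hf).m p z} = ∅ from Set.eq_empty_of_forall_notMem fun x hx =>
      let ⟨B, k'⟩ := x.2; k B k'.1 (k'.sub hx), finsum_mem_empty]
  obtain ⟨π, hπ⟩ := trEquiv (X := TX hM L) (P.subgroupOf Γ) fun x => by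
    obtain ⟨B, k⟩ := x.2
    obtain ⟨g, g1, g2⟩ := h2 B k.1
    refine ⟨⟨g, g1⟩, fun φ hφ => g2 φ.1 φ.2 ?_⟩
    obtain ⟨e, he⟩ := (trTO hM L hf).ne x
    have el := (finOrb_of (W := (stabilizer Γ x).map Γ.subtype) (x := e.1)
      (((hf' x).image Prod.fst).subset (by
        rintro _ ⟨⟨_, ψ, k, rfl⟩, rfl⟩
        exact ⟨_, (show ψ • x = x from k) ▸ ev.m ψ _ _ he, rfl⟩))).ell φ ⟨φ, hφ, rfl⟩
    have k' : IsT G L M x.1 (φ.1 ⁻¹' B) := by
      have := k.smul hM φ⁻¹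
      rwa [← SubMulAction.val_smul, inv_smul_eq_iff.2 hφ.symm, inv_inv] at this
    rcases k.comp hM k' he he with t | t
    exacts [stab_of_maps el t, stab_compl (stab_of_maps el fun x hx h => hx (t h))]
  have fπ : ∀ y, {x | π x = y}.Finite := fun y => by
    refine ((gs.lf (bp Γ o)).biUnion (t := fun x => {z | ∃ g : Γ, g • x = z ∧ g • π x = y})
      fun x _ => ?_).subset fun x hx => ?_
    · obtain ⟨w, hw⟩ := gq.ne (π x)
      obtain ⟨w', hw'⟩ := gs.ne x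
      refine ((((gq.fin y).biUnion fun a _ => trBall o a (G.dist w' w))).biUnion
        fun a _ => gs.lf a).subset ?_
      rintro _ ⟨g, rfl, rfl⟩
      exact Set.mem_biUnion (Set.mem_biUnion (gq.eqv g _ _ hw) (dist_iso g.1 _ _).le)
        (gs.eqv g _ _ hw')
    · obtain ⟨g, hg⟩ := gs.trRep hT x
      exact Set.mem_biUnion hg ⟨g⁻¹, inv_smul_smul _ _, by rw [hπ, inv_smul_smul, hx]⟩
  let F := (fπ (1 : Γ)).toFinset
  refine ⟨TX hM L, R, inferInstance, inferInstance, _, sR, fun x d => sg G x.1 d.1, D', gs, a1,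
    by simpa only [sg, sub_eq_add_neg, Function.comp] using
      (mt _ i1).trAdd (mt _ (Prod.swap_injective.comp i1)).trNeg, a2, fun g x d => ?_, a3, a4,
    fun c => Iff.trans (and_congr_right fun _ => ⟨fun k => ?_, fun k d => ?_⟩) (a5 c),
    Set.ext fun z => ⟨?_, ?_⟩, F.card, fun i => q (F.equivFin.symm i), fun i => a7 _, ?_⟩
  · have : ∀ p : V × V, g • p ∈ (g • x).1 ↔ p ∈ x.1 := fun p => Set.smul_mem_smul_set_iff
    exact congrArg₂ (· - ·) (if_congr (this d.1.toProd) rfl rfl)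
      (if_congr (this d.1.toProd.swap) rfl rfl)
  · have key : ∀ m x z, G.dist x z = m → m ≤ L → S c (x, z) = 0 := fun m => by
      induction m with
      | zero => exact fun x z e _ => z0 c _ fun B _ k => k.2.1 (eq_of_dist e ▸ k.1)
      | succ m ih =>
        intro x z e e'
        obtain ⟨y, e1, e2⟩ := exists_step e
        have : S c (x, y) = 0 := by
          by_cases t : Near G Γ o D x
          · exact k ⟨⟨(x, y), e1⟩, t⟩
          · exact z0 c _ fun B hB k => t (h3 B hB (x, y) ⟨k.1, k.2.1, (dist_adj e1).le⟩)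
        refine Eq.trans ?_ ((congrArg₂ (· + ·) this (ih y z e2 (by omega))).trans (add_zero 0))
        refine Eq.trans (finsum_congr fun w => ?_) (finsum_add_distrib (sf' c _) (sf' c _))
        obtain ⟨B, k⟩ := w.2
        rw [← add_mul]
        exact congrArg (· * c w) (k.cocycle ((dist_adj e1).le.trans hL) (by omega) (by omega)).symm
    intro p
    rw [← hS]
    by_cases t : G.dist p.1 p.2 ≤ L
    exacts [key _ _ _ rfl t, z0 c _ fun B _ k => t k.2.2]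
  · exact (hS c d.1.toProd).trans (k _)
  · rintro ⟨⟨_, B, k, e, k', rfl⟩, rfl⟩
    exact ⟨B, k, e, k', rfl⟩
  · rintro ⟨B, k, e, k', rfl⟩
    exact ⟨⟨_, B, k, e, k', rfl⟩, rfl⟩
  · rw [a8, fibSpec _ _ _ π q hT gs gq hπ fπ a6, F.equivFin.symm.sum_comp fun x : F => q x,
      Finset.sum_coe_sort, ← finsum_mem_eq_finite_toFinset_sum, wsum, wsum,
      finsum_mem_eq_finite_toFinset_sum _ (gq.lf _), finsum_mem_eq_finite_toFinset_sum _ (gq.lf _),
      Finset.sum_mul]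
    refine Finset.sum_congr rfl fun y _ => ?_
    obtain ⟨g, rfl⟩ := QuotientGroup.mk_surjective y
    rw [Pi.one_apply, div_mul_eq_mul_div, one_mul]
    congr 1
    refine (finsum_mem_eq_of_bijOn (g • ·) ⟨fun x hx => ?_, (MulAction.injective g).injOn,
      fun x hx => ⟨g⁻¹ • x, ?_, smul_inv_smul _ _⟩⟩ fun x _ => (a6 g x).symm).symm
    · simp only [Set.mem_ofPred_eq] at hx ⊢
      rw [hπ, hx, MulAction.Quotient.smul_mk, smul_eq_mul, mul_one]
    · simp only [Set.mem_ofPred_eq] at hx ⊢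
      rw [hπ, hx, MulAction.Quotient.smul_mk, smul_eq_mul, inv_mul_cancel]

end Pool.Agent.MP_77f003_co.H49
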