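import Pool.Agent.MP_77f003_co.H51.HBasic

/-!
A rotating group with a fixed point far out has orbits that are connected at a bounded scale:
at the last level where two parts of an orbit merge one finds a cross.
-/

namespace Pool.Agent.MP_77f003_co.H49

namespace Last

open SimpleGraph Filter Set

variable {V : Type} {G : SimpleGraph V} {κ N t : ℕ} {Y : Set V} {R : ZMod N → ℕ → V}
  {pos : V → ZMod N}

/-- The position is close to the slot. -/
def Sl (pos : V → ZMod N) (a : ℤ) (y : V) : Prop :=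
  ∃ e : ℤ, |e| ≤ 13 ∧ pos y = ((a + e : ℤ) : ZMod N)

/-- A point at the standard depth, seen from the centre `c`, in the slot `a`. -/
structure Term (G : SimpleGraph V) (κ t : ℕ) (Y : Set V) (R : ZMod N → ℕ → V) (pos : V → ZMod N)
    (c u : V) (a : ℤ) : Prop where
  ball : ∀ y, G.dist c y ≤ t → y ∈ Y
  near : G.dist c u ≤ t + (11 * κ + 2)
  slot : ∃ e : ℤ, |e| ≤ 12 ∧ pos u = ((a + e : ℤ) : ZMod N)
  link : ∃ b k, Lk G {v | 11 * κ + 2 ≤ dp G Y v} u (R b k)

/-- The points of a piece: on a geodesic to the terminal, or deep and in the slot. -/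
def Pc (G : SimpleGraph V) (κ : ℕ) (Y : Set V) (pos : V → ZMod N) (c u : V) (a : ℤ) : Set V :=
  {y | G.dist c y + G.dist y u ≤ G.dist c u ∨ 10 * κ + 2 ≤ dp G Y y ∧ Sl pos a y}

theorem Term.deep {c u : V} {a : ℤ} (h : Term G κ t Y R pos c u a) : 11 * κ + 2 ≤ dp G Y u :=
  let ⟨_, _, l⟩ := h.link
  l.left

theorem Term.sl {c u : V} {a : ℤ} (h : Term G κ t Y R pos c u a) : Sl pos a u :=
  let ⟨e, h1, h2⟩ := h.slot
  ⟨e, by omega, h2⟩

variable [Fact G.Connected]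

theorem dp_ball {c : V} (h : ∀ y, G.dist c y ≤ t → y ∈ Y) (y : V) :
    dp G Y y ≤ G.dist c y - t := by
  obtain ⟨q, q0, q1, q2⟩ := exists_geo' (G := G) c y
  rcases le_total t (G.dist c y) with k | k
  · have e1 := q2 0 t (Nat.zero_le _) k
    have e2 := q2 t _ k le_rfl
    rw [q0] at e1
    rw [q1] at e2
    exact (dp_le (h (q t) (by omega)) y).trans e2.le
  · have := dp_le (G := G) (h y k) y
    rw [SimpleGraph.dist_self] at this
    omega

theorem sep (h : PS G κ Y R pos) (hN : 3 ≤ N) {a b : ℤ} {y y' : V}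
    (hab : 28 ≤ |a - b| ∧ |a - b| + 28 ≤ N) (hy : Sl pos a y) (hy' : Sl pos b y')
    (hd : 10 * κ + 2 ≤ dp G Y y) : 8 * κ < G.dist y y' := by
  by_contra c
  obtain ⟨e, e1, e2⟩ := h.near hN hd (not_lt.1 c)
  obtain ⟨f, f1, f2⟩ := hy
  obtain ⟨g, g1, g2⟩ := hy'
  rw [f2, g2, ← Int.cast_add, ZMod.intCast_eq_intCast_iff_dvd_sub] at e2
  have := Int.eq_zero_of_abs_lt_dvd e2 (by
    rw [abs_lt]
    rw [abs_le] at e1 f1 g1
    rcases abs_cases (a - b) with k | k <;> constructor <;> omega)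
  rw [abs_le] at e1 f1 g1
  rcases abs_cases (a - b) with k | k <;> omega

theorem far_pc (h : PS G κ Y R pos) (hN : 3 ≤ N) {c u c' u' : V} {a b : ℤ}
    (T : Term G κ t Y R pos c u a) (T' : Term G κ t Y R pos c' u' b) (hc : 2 * t ≤ G.dist c c')
    (hu : 25 * κ + 4 < G.dist u u') (hab : 28 ≤ |a - b| ∧ |a - b| + 28 ≤ N) :
    Far G κ (Pc G κ Y pos c u a) (Pc G κ Y pos c' u' b) := by
  intro y hy y' hy'
  by_contra k
  have c1 := dcomm (G := G) y y'
  have n1 := T.near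
  have n2 := T'.near
  rcases hy with hy | hy <;> rcases hy' with hy' | hy'
  · have d1 := T.deep.trans (dp_ball T'.ball u)
    have d2 := T'.deep.trans (dp_ball T.ball u')
    have t1 := tri (G := G) c' y' u
    have t2 := tri (G := G) y' y u
    have t3 := tri (G := G) c y u'
    have t4 := tri (G := G) y y' u'
    have t5 := tri (G := G) c y c'
    have t6 := tri (G := G) y y' c'
    have t7 := tri (G := G) u y u'
    have c2 := dcomm (G := G) y' c'
    have c3 := dcomm (G := G) u y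
    omega
  · have d1 := dp_ball T.ball y
    have d2 := dp_tri (G := G) h.ne y y'
    have d3 := sep h hN (by rwa [abs_sub_comm]) hy'.2 T.sl hy'.1
    have t1 := tri (G := G) y' y u
    have := hy'.1
    omega
  · have d1 := dp_ball T'.ball y'
    have d2 := dp_tri (G := G) h.ne y' y
    have d3 := sep h hN hab hy.2 T'.sl hy.1
    have t1 := tri (G := G) y y' u'
    have := hy.1
    omega
  · have d3 := sep h hN hab hy.2 hy'.2 hy.1
    omega

theorem piece (h : PS G κ Y R pos) (hN : 3 ≤ N) (hκ : 1 ≤ κ) {c u : V} {a : ℤ}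
    (T : Term G κ t Y R pos c u a) : ∃ (L : Set V) (a' : ℤ) (m : ℕ), L.Finite ∧ |a' - a| ≤ 13 ∧
      Lk G L c (R a' m) ∧ L ∪ R a' '' Ici m ⊆ Pc G κ Y pos c u a := by
  obtain ⟨b, k, p, hp⟩ := T.link
  obtain ⟨v, μ, h1, ⟨m, h2⟩, h3, h4⟩ := h.first hN p (fun z hz => le_trans (by omega) (hp z hz))
    ⟨b, k, by simp⟩
  obtain ⟨e, e1, e2⟩ := T.slot
  have hv : pos v = ((a + (e + dw pos μ) : ℤ) : ZMod N) := by
    have := dw_cast (pos := pos) μ
    rw [← add_assoc, Int.cast_add, this, ← e2]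
    ring
  have he : |e + dw pos μ| ≤ 13 := by
    rw [abs_le] at e1 ⊢
    omega
  have hvd : 11 * κ + 2 ≤ dp G Y v := hp v (h1 v μ.end_mem_support)
  have geo : ∀ z, G.dist v z + G.dist z (R (pos v) m) ≤ G.dist v (R (pos v) m) →
      10 * κ + 2 ≤ dp G Y z ∧ Sl pos a z := by
    intro z hz
    have d1 := dp_tri (G := G) h.ne z v
    have d2 := dcomm (G := G) z v
    exact ⟨by omega, _, he, (h.on _ m z (by omega) (by omega)).trans hv⟩
  have l : Lk G (Pc G κ Y pos c u a) c (R (pos v) m) := by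
    refine (Lk.geo fun z hz => Or.inl hz).trans (Lk.trans ⟨μ, fun z hz => Or.inr ⟨?_, ?_⟩⟩
      (Lk.geo fun z hz => Or.inr (geo z hz)))
    · exact le_trans (by omega) (hp z (h1 z hz))
    · rcases h4 z hz with rfl | k
      · exact ⟨_, he, hv⟩
      · exact ⟨e, by omega, k.1.trans e2⟩
  obtain ⟨L, l1, l2, l3, l4⟩ := l.fin
  refine ⟨L, a + (e + dw pos μ), m, l1, by rwa [add_sub_cancel_left], hv ▸ l4 c l3,
    union_subset l2 ?_⟩
  rintro _ ⟨n, hn, rfl⟩
  have d0 := (geo (R (pos v) m) (by simp)).1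
  have d1 := h.toPB.up (t := 10 * κ + 2) (by omega) d0 hn
  rw [← hv]
  exact Or.inr ⟨d1, _, he, (h.on _ n _ (by omega) (by simp)).trans hv⟩

theorem cross (h : PS G κ Y R pos) (hκ : 1 ≤ κ) {x x' u₁ u₂ u₃ u₄ : V} {a b c d : ℤ}
    (T₁ : Term G κ t Y R pos x u₁ a) (T₂ : Term G κ t Y R pos x' u₂ b)
    (T₃ : Term G κ t Y R pos x u₃ c) (T₄ : Term G κ t Y R pos x' u₄ d)
    (hc : 2 * t ≤ G.dist x x') (h12 : 25 * κ + 4 < G.dist u₁ u₂) (h14 : 25 * κ + 4 < G.dist u₁ u₄)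
    (h32 : 25 * κ + 4 < G.dist u₃ u₂) (h34 : 25 * κ + 4 < G.dist u₃ u₄)
    (ab : a + 28 ≤ b) (bc : b + 28 ≤ c) (cd : c + 28 ≤ d) (da : d + 28 ≤ a + N) : False := by
  have hN : 3 ≤ N := by omega
  obtain ⟨L₁, a', m₁, f1, s1, l1, p1⟩ := piece h hN hκ T₁
  obtain ⟨L₂, b', m₂, f2, s2, l2, p2⟩ := piece h hN hκ T₂
  obtain ⟨L₃, c', m₃, f3, s3, l3, p3⟩ := piece h hN hκ T₃
  obtain ⟨L₄, d', m₄, f4, s4, l4, p4⟩ := piece h hN hκ T₄
  rw [abs_le] at s1 s2 s3 s4
  have g12 := far_pc h hN T₁ T₂ hc h12 (by rcases abs_cases (a - b) with k | k <;> omega)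
  have g14 := far_pc h hN T₁ T₄ hc h14 (by rcases abs_cases (a - d) with k | k <;> omega)
  have g32 := far_pc h hN T₃ T₂ hc h32 (by rcases abs_cases (c - b) with k | k <;> omega)
  have g34 := far_pc h hN T₃ T₄ hc h34 (by rcases abs_cases (c - d) with k | k <;> omega)
  refine h.nx a' b' c' d' (by omega) (by omega) (by omega) (by omega)
    ⟨L₁ ∪ L₃, L₂ ∪ L₄, m₁, m₃, m₂, m₄, f1.union f3, f2.union f4,
      (l1.symm.mono subset_union_left).trans (l3.mono subset_union_right),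
      (l2.symm.mono subset_union_left).trans (l4.mono subset_union_right),
      ((g12.union' g14).union (g32.union' g34)).mono ?_ ?_⟩
  · rintro z (((k | k) | k) | k)
    exacts [Or.inl (p1 (Or.inl k)), Or.inr (p3 (Or.inl k)), Or.inl (p1 (Or.inr k)),
      Or.inr (p3 (Or.inr k))]
  · rintro z (((k | k) | k) | k)
    exacts [Or.inl (p2 (Or.inl k)), Or.inr (p4 (Or.inl k)), Or.inl (p2 (Or.inr k)),
      Or.inr (p4 (Or.inr k))]

theorem pick [G.LocallyFinite] {Δ r : ℕ} (hΔ : ∀ v, G.degree v ≤ Δ) (y y' : V) (u : ℕ → V)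
    (hu : ∀ i j, i < j → j ≤ 2 * (Δ + 1) ^ r → u i ≠ u j) :
    ∃ i ≤ 2 * (Δ + 1) ^ r, r < G.dist y (u i) ∧ r < G.dist y' (u i) := by
  classical
  by_contra c
  push Not at c
  have := Finset.card_le_card_of_injOn (s := Finset.range (2 * (Δ + 1) ^ r + 1))
    (t := ball G y r ∪ ball G y' r) u (fun i hi => by
      have := c i (Nat.lt_succ_iff.1 (Finset.mem_range.1 hi))
      simp only [Finset.coe_union, mem_union, Finset.mem_coe, mem_ball]
      omega) (fun i hi j hj e => by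
      have hi := Nat.lt_succ_iff.1 (Finset.mem_range.1 hi)
      have hj := Nat.lt_succ_iff.1 (Finset.mem_range.1 hj)
      rcases lt_trichotomy i j with k | k | k
      exacts [absurd e (hu i j k hj), k, absurd e.symm (hu j i k hi)])
  have h1 := Finset.card_union_le (ball G y r) (ball G y' r)
  have h2 := card_ball_le hΔ y r
  have h3 := card_ball_le hΔ y' r
  rw [Finset.card_range] at this
  omega

theorem no_two [G.LocallyFinite] {Δ : ℕ} (hΔ : ∀ v, G.degree v ≤ Δ) (h : PS G κ Y R pos)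
    (hκ : 1 ≤ κ) (hN : N = 56 * (2 * (Δ + 1) ^ (25 * κ + 4) + 2)) {x x' : V} {u u' : ℤ → V}
    (T : ∀ a, Term G κ t Y R pos x (u a) a) (T' : ∀ a, Term G κ t Y R pos x' (u' a) a)
    (hc : 2 * t ≤ G.dist x x') : False := by
  obtain ⟨β, hβ⟩ : ∃ β, (Δ + 1) ^ (25 * κ + 4) = β := ⟨_, rfl⟩
  have key : ∀ o : ℤ, ∃ i : ℕ, i ≤ 2 * β ∧ 25 * κ + 4 < G.dist (u 0) (u' (o + 28 * i)) ∧
      25 * κ + 4 < G.dist (u (28 * (2 * β + 2))) (u' (o + 28 * i)) := by
    intro o
    rw [← hβ]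
    refine pick hΔ _ _ (fun i : ℕ => u' (o + 28 * i)) fun i j hij hj e => ?_
    have := sep h (by omega) (a := o + 28 * i) (b := o + 28 * j) (by
      rcases abs_cases (o + 28 * i - (o + 28 * j)) with k | k <;> omega) (T' _).sl (T' _).sl
      (le_trans (by omega) (T' _).deep)
    rw [e, SimpleGraph.dist_self] at this
    omega
  obtain ⟨i, i1, i2, i3⟩ := key 28
  obtain ⟨j, j1, j2, j3⟩ := key (28 * (2 * β + 3))
  exact cross h hκ (T 0) (T' _) (T _) (T' _) hc i2 j2 i3 j3 (by omega) (by omega) (by omega)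
    (by omega)

end Last

open SimpleGraph Filter Set Last in
theorem finSpec' (hP : PosSpec) (hF : FootSpec) (hR : RLSpec) (hM : MDSpec) : FinSpec := by
  intro Δ κ hκ
  refine ⟨56 * (2 * (Δ + 1) ^ (25 * κ + 4) + 2), by omega, ?_⟩
  generalize hN : 56 * (2 * (Δ + 1) ^ (25 * κ + 4) + 2) = N
  have hN16 : 16 ≤ N := by omega
  intro _ V G _ _ ω R x hΔ hω hO
  refine ⟨Finset.univ.sup fun a => G.dist x (R a 0), fun W D z hW hw hz => ?_⟩
  generalize hT : (Finset.univ.sup fun a => G.dist x (R a 0)) = T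
  have hT' : ∀ a, G.dist x (R a 0) ≤ T := fun a =>
    hT ▸ Finset.le_sup (f := fun a => G.dist x (R a 0)) (Finset.mem_univ a)
  let B : ℕ → Set V := fun t => {v | ∃ w ∈ W, G.dist (w x) v ≤ t}
  have hB : ∀ t, (∀ w ∈ W, Lk G (B t) x (w x)) → Conn G (B t) := by
    intro t h
    have : ∀ v ∈ B t, Lk G (B t) x v := fun v ⟨w, h1, h2⟩ =>
      (h w h1).trans (Lk.ball fun y hy => ⟨w, h1, hy.trans h2⟩)
    exact fun v hv v' hv' => (this v hv).symm.trans (this v' hv')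
  have mono : ∀ s t, s ≤ t → B s ⊆ B t := fun s t h v ⟨w, h1, h2⟩ => ⟨w, h1, h2.trans h⟩
  have hD : ∀ w ∈ W, Lk G (B D) x (w x) := fun w h =>
    Lk.ball fun y hy => ⟨1, W.one_mem, hy.trans (hw w h).2.1⟩
  refine hB T ?_
  by_contra hc
  classical
  have ex : ∃ t, ∀ w ∈ W, Lk G (B t) x (w x) := ⟨D, hD⟩
  have t1 := Nat.find_spec ex
  have t2 : Nat.find ex ≤ D := Nat.find_min' ex hD
  have t3 : T < Nat.find ex := by
    by_contra k
    exact hc fun w h => (t1 w h).mono (mono _ _ (not_lt.1 k))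
  have t4 := Nat.find_min ex (m := Nat.find ex - 1) (by omega)
  generalize Nat.find ex = t at t1 t2 t3 t4
  push Not at t4
  obtain ⟨w₀, hw₀, t4⟩ := t4
  have far : 2 * t ≤ G.dist x (w₀ x) := by
    by_contra k
    refine t4 (Lk.geo fun y hy => ?_)
    rcases le_or_gt (G.dist x y) (t - 1) with l | l
    · exact ⟨1, W.one_mem, l⟩
    · exact ⟨w₀, hw₀, by rw [dcomm]; omega⟩
  have in2 : ∀ y ∈ B t, G.dist x y ≤ 2 * D := fun y ⟨w, h1, h2⟩ => by
    have := tri (G := G) x (w x) y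
    have := (hw w h1).2.1
    omega
  have fin : (B t).Finite := (finite_ball x (2 * D)).subset in2
  have xB : x ∈ B t := ⟨1, W.one_mem, by simp⟩
  have st : ∀ w ∈ W, w ∈ (stab (B t) : Subgroup (G ≃g G)) := by
    have : ∀ w ∈ W, ∀ v ∈ B t, w v ∈ B t := fun w h v ⟨g, h1, h2⟩ =>
      ⟨w * g, W.mul_mem h h1, (dist_iso w (g x) v).le.trans h2⟩
    exact fun w h v => ⟨fun k => by simpa using this w⁻¹ (W.inv_mem h) _ k, this w h v⟩
  obtain ⟨R', r1, r2⟩ := hF G (12 * κ + 2) (12 * κ + 2) (B t) R fin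
    (fun a => ⟨hO.rf.lr a, 1, W.one_mem, (hT' a).trans t3.le⟩)
    fun a b h => (hO.rf.far a b h).le (by omega)
  have pb : PB G κ (B t) R' := ⟨fin, ⟨x, xB⟩, hB t t1, fun a => (r1 a).1, r2,
    fun a b c d h1 h2 h3 h4 h => hO.nx a b c d h1 h2 h3 h4 (h.te4 (r1 _).1 (r1 _).1 (r1 _).1
      (r1 _).1 (r1 _).2.1 (r1 _).2.1 (r1 _).2.1 (r1 _).2.1),
    fun a => (r1 a).2.2.1, fun a => (r1 a).2.2.2⟩
  obtain ⟨pos, ps⟩ := hP G κ N (B t) R' hκ (by omega) pb
  have low : ∀ a, dp G (B t) (R' a (11 * κ + 2)) = 11 * κ + 2 := fun a => pb.low a _ (by omega)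
  have zl : ∀ a, Lk G {v | 11 * κ + 2 ≤ dp G (B t) v} z (R' a (11 * κ + 2)) := by
    intro a
    have se : SE G (R' a) ω :=
      ((r1 a).2.1.se (r1 a).1).trans (hO.rf.se a) (r1 a).1 (hO.rf.lr a) hω
    obtain ⟨k, ⟨k1, k2⟩, k3⟩ := (((se.ev (r1 a).1 hω x (2 * D + (12 * κ + 3))).and hz).and
      (eventually_ge_atTop (11 * κ + 2))).exists
    have sub : ∀ v, 2 * D + (12 * κ + 2) < G.dist x v → 11 * κ + 2 ≤ dp G (B t) v := by
      intro v hv
      obtain ⟨y, y1, y2⟩ := dp_ex (G := G) pb.ne v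
      have := in2 y y1
      have := tri (G := G) x y v
      omega
    refine ((k2.mono sub).trans ((k1 k k le_rfl le_rfl).symm.mono fun v hv => sub v hv)).trans
      ((r1 a).1.lk fun j j1 _ => pb.up (by omega) (low a).ge ?_)
    rwa [min_eq_right k3] at j1
  have rl := hR G κ N (B t) R' pos W z hκ hN16 ps hW (fun w h => ⟨st w h, (hw w h).1, by
    obtain ⟨c, hc⟩ := (hw w h).2.2
    exact ⟨c, ((hM G _).1 _ _ _ (((MD.refl (fun a => (r1 a).1) r2).te
      fun a => (r1 a).2.1).map w) hc).te fun a => (r1 _).2.1.symm⟩⟩) zl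
  have term : ∀ a : ℤ, ∃ u, ∀ g ∈ W, Term G κ t (B t) R' pos (g x) (g u) a := by
    intro a
    obtain ⟨y, ⟨w, h1, h2⟩, y2⟩ := dp_ex (G := G) pb.ne (R' a (11 * κ + 2))
    refine ⟨w⁻¹ (R' a (11 * κ + 2)), fun g hg => ?_⟩
    have hm := W.mul_mem hg (W.inv_mem h1)
    refine ⟨fun v hv => ⟨g, hg, hv⟩, ?_, ?_, a, 11 * κ + 2, ?_⟩
    · have e := dist_iso w x (w⁻¹ (R' a (11 * κ + 2)))
      have := tri (G := G) (w x) y (R' a (11 * κ + 2))
      have := low a
      rw [dist_iso, ← e]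
      simp only [RelIso.apply_inv_self]
      omega
    · obtain ⟨e, e1, e2⟩ := rl _ hm a
      exact ⟨e, e1, by rw [Int.cast_add]; exact e2⟩
    · have l := (zl a).map (g * w⁻¹)
      rw [(hw _ hm).1] at l
      refine (l.symm.mono ?_).trans (zl a)
      rintro _ ⟨v, hv, rfl⟩
      exact (dp_map (st _ hm) v).ge.trans' hv
  choose u hu using term
  exact no_two hΔ ps hκ hN.symm (fun a => hu a 1 W.one_mem) (fun a => hu a w₀ hw₀) far

end Pool.Agent.MP_77f003_co.H49
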