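import Pool.Agent.MP_77f003_co.H49.Join
import Pool.Agent.MP_77f003_co.H51.HFin
import Pool.Agent.MP_77f003_co.H51.Z
import Pool.Agent.MP_77f003_co.H51.RL
import Pool.Agent.MP_77f003_co.H4.LTS
import Pool.Agent.MP_77f003_co.H4.R
import Pool.Agent.MP_77f003_co.H54.Board
import Pool.Agent.MP_77f003_co.H93.Pym
import Pool.Agent.MP_77f003_co.H84.UP
import Pool.Agent.MP_77f003_co.H30.USE
import Pool.Agent.MP_77f003_co.H76.MD
import Pool.Agent.MP_77f003_co.H56.Ord
import Pool.Agent.MP_77f003_co.H78.Om
import Pool.Agent.MP_77f003_co.H88.Gad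
import Pool.Agent.MP_77f003_co.H51.Fin

/-! The last case, assembled from all the statements about rays in one end. -/

namespace Pool.Agent.MP_77f003_co.H49

theorem hAll : HSpec :=
  have hU : UPSpec := upSpec pymSpec reachSpec moveSpec (slideSpec moveSpec)
  have hM : MDSpec := mdSpec hU
  hSpec ltSpec (omSpec omegaSpec)
    (rSpec (gadSpec ltSpec hU (useSpec pymSpec reachSpec)) (divSpec hM) hU reachSpec moveSpec edgeSpec
      (slideSpec moveSpec))
    (ordSpec hM reachSpec) (epsSpec posSpec footSpec zSpec hM)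
    (finSpec' posSpec footSpec (rlSpec zSpec) hM) (clusterSpec willisSpec (ellSpec omegaSpec))

end Pool.Agent.MP_77f003_co.H49
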