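import Pool.Agent.MP_77f003_co.H51.HSpec

/-!
Basic facts on lazy rays, ends, tails, depths and displacements.
-/

namespace Pool.Agent.MP_77f003_co.H49

open SimpleGraph Filter Set

variable {V : Type} {G : SimpleGraph V} {a b c d w ω : ℕ → V}

theorem Far.le {K K' : ℕ} {S T : Set V} (h : Far G K S T) (h' : K' ≤ K) : Far G K' S T :=
  fun x hx y hy => h'.trans (h x hx y hy)

theorem RF.le {S S' : ℕ} {ι : Type} {R : ι → ℕ → V} (h : RF G S ω R) (h' : S' ≤ S) :
    RF G S' ω R := ⟨h.lr, h.se, fun i j e => (h.far i j e).le h'⟩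

theorem RF.comp {S : ℕ} {ι κ : Type} {R : ι → ℕ → V} (h : RF G S ω R) {e : κ → ι}
    (he : Function.Injective e) : RF G S ω fun i => R (e i) :=
  ⟨fun _ => h.lr _, fun _ => h.se _, fun _ _ k => h.far _ _ (he.ne k)⟩

theorem Lnk.le {K K' : ℕ} (h : Lnk G K a b c d) (h' : K' ≤ K) : Lnk G K' a b c d :=
  let ⟨L, L', m1, m2, m3, m4, h1, h2, h3, h4, h5⟩ := h
  ⟨L, L', m1, m2, m3, m4, h1, h2, h3, h4, h5.le h'⟩

theorem TE.refl (a : ℕ → V) : TE a a := ⟨0, 0, fun _ => rfl⟩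

theorem TE.symm (h : TE a b) : TE b a := let ⟨m, n, h⟩ := h; ⟨n, m, fun k => (h k).symm⟩

theorem TE.trans (h : TE a b) (h' : TE b c) : TE a c := by
  obtain ⟨m, n, h⟩ := h
  obtain ⟨m', n', h'⟩ := h'
  exact ⟨m + m', n' + n, fun k => by
    rw [add_assoc, h, add_assoc, ← h', ← add_assoc, ← add_assoc, add_comm n]⟩

theorem TE.shift (a : ℕ → V) (n : ℕ) : TE (fun k => a (n + k)) a := ⟨0, n, fun k => by simp⟩

theorem TE.map (h : TE a b) (f : V → V) : TE (fun k => f (a k)) fun k => f (b k) :=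
  let ⟨m, n, h⟩ := h; ⟨m, n, fun k => congrArg f (h k)⟩

theorem SE.symm (h : SE G a b) : SE G b a := fun x t =>
  let ⟨m, n, l⟩ := h x t; ⟨n, m, l.symm⟩

theorem LR.shift (h : LR G w) (n : ℕ) : LR G fun k => w (n + k) :=
  ⟨fun k => h.1 (n + k), fun x t => (tendsto_add_atTop_nat n).eventually (h.2 x t) |>.mono
    fun k hk => by rwa [add_comm] at hk⟩

theorem MD.comp {σ : ℕ} {ι κ : Type} {M L : ι → ℕ → V} (h : MD G σ M L) {e : κ → ι}
    (he : Function.Injective e) : MD G σ (fun i => M (e i)) fun i => L (e i) := fun x t =>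
  let ⟨Ψ, h1, h2⟩ := h x t
  ⟨fun i => Ψ (e i), fun _ => h1 _, fun _ _ k => h2 _ _ (he.ne k)⟩

theorem MD.te {σ : ℕ} {ι : Type} {M L L' : ι → ℕ → V} (h : MD G σ M L) (k : ∀ i, TE (L i) (L' i)) :
    MD G σ M L' := fun x t =>
  let ⟨Ψ, h1, h2⟩ := h x t
  ⟨Ψ, fun i => ⟨(h1 i).1, (h1 i).2.1.trans (k i), (h1 i).2.2⟩, h2⟩

theorem MD.refl {σ : ℕ} {ι : Type} {M : ι → ℕ → V} (h : ∀ i, LR G (M i))
    (h' : ∀ i j, i ≠ j → Far G σ (range (M i)) (range (M j))) : MD G σ M M := fun x t =>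
  ⟨M, fun i => ⟨h i, TE.refl _, let ⟨n, hn⟩ := eventually_atTop.1 ((h i).2 x t)
    ⟨max n t, le_max_right _ _, fun _ _ => rfl, fun k hk => hn k (le_of_max_le_left hk)⟩⟩, h'⟩

theorem dp_le {Y : Set V} {y : V} (hy : y ∈ Y) (x : V) : dp G Y x ≤ G.dist y x :=
  Nat.sInf_le ⟨y, hy, rfl⟩

theorem dp_ex {Y : Set V} (h : Y.Nonempty) (x : V) : ∃ y ∈ Y, G.dist y x = dp G Y x :=
  Nat.sInf_mem (s := {d | ∃ y ∈ Y, G.dist y x = d}) (let ⟨y, hy⟩ := h; ⟨_, y, hy, rfl⟩)

section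

variable {N : ℕ} {pos : V → ZMod N} {x y z : V}

@[simp] theorem dw_nil : dw pos (Walk.nil : G.Walk x x) = 0 := rfl

theorem dw_cons (h : G.Adj x y) (p : G.Walk y z) :
    dw pos (Walk.cons h p) = (pos y - pos x).valMinAbs + dw pos p := rfl

theorem dw_append (p : G.Walk x y) (q : G.Walk y z) :
    dw pos (p.append q) = dw pos p + dw pos q := by
  simp [dw, Walk.darts_append]

theorem dw_cast (p : G.Walk x y) : ((dw pos p : ℤ) : ZMod N) = pos y - pos x := by
  induction p with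
  | nil => simp
  | cons h p ih => simp [dw_cons, ih]

theorem dw_copy (p : G.Walk x y) {x' y' : V} (h : x = x') (h' : y = y') :
    dw pos (p.copy h h') = dw pos p := by
  subst h h'
  rfl

end

variable [Fact G.Connected]

theorem LR.lk (h : LR G w) {S : Set V} {i j : ℕ}
    (hS : ∀ k, min i j ≤ k → k ≤ max i j → w k ∈ S) : Lk G S (w i) (w j) := lk_lazy h.1 hS

theorem LR.dist_le (h : LR G w) {i j : ℕ} (hij : i ≤ j) : G.dist (w i) (w j) ≤ j - i := by
  obtain ⟨k, rfl⟩ := Nat.exists_eq_add_of_le hij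
  simpa using dist_seq_le (G := G) (n := i + k) (c := 1) (fun i _ => h.1 i) i k le_rfl

omit [Fact G.Connected] in
/-- A far point of a sequence has a large index. -/
theorem idx_of_far (w : ℕ → V) (x : V) (n : ℕ) :
    ∀ᶠ t in atTop, ∀ m, t ≤ G.dist x (w m) → n ≤ m := by
  obtain ⟨r, hr⟩ := ((finite_Iio n).image fun k => G.dist x (w k)).bddAbove
  filter_upwards [eventually_gt_atTop r] with t ht m hm
  by_contra k
  have := hr ⟨m, not_le.1 k, rfl⟩
  simp only at this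
  omega

theorem LR.map (h : LR G w) (φ : G ≃g G) : LR G fun k => φ (w k) :=
  ⟨fun k => (dist_iso φ _ _).trans_le (h.1 k), fun x t => (h.2 (φ.symm x) t).mono fun k hk => by
    rwa [← dist_iso φ, φ.apply_symm_apply] at hk⟩

/-- A finite set is far from the outside of a large ball. -/
theorem far_out {S : Set V} (hS : S.Finite) (x : V) (K : ℕ) :
    ∀ᶠ t in atTop, Far G K S {z | t ≤ G.dist x z} :=
  (far_of_bound (o := x) hS K).mono fun _ h => (h ∅).mono le_rfl fun _ hz => ⟨hz, by simp⟩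

/-- The tail of a ray is far from a finite set. -/
theorem LR.tail (h : LR G w) {S : Set V} (hS : S.Finite) (K : ℕ) :
    ∀ᶠ n in atTop, Far G K S (w '' Ici n) := by
  obtain ⟨t, ht⟩ := (far_out (G := G) hS (w 0) K).exists
  obtain ⟨n, hn⟩ := eventually_atTop.1 (h.2 (w 0) t)
  filter_upwards [eventually_ge_atTop n] with m hm
  exact ht.mono le_rfl (by rintro _ ⟨k, hk, rfl⟩; exact hn k (hm.trans hk))

/-- In the same end all late points are linked far out. -/
theorem SE.ev (h : SE G a b) (ha : LR G a) (hb : LR G b) (x : V) (t : ℕ) :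
    ∀ᶠ k in atTop, ∀ m n, k ≤ m → k ≤ n → Lk G {z | t ≤ G.dist x z} (a m) (b n) := by
  obtain ⟨k, hk⟩ := eventually_atTop.1 ((ha.2 x t).and (hb.2 x t))
  obtain ⟨s, ⟨s1, s2⟩, s3⟩ := (((idx_of_far (G := G) a x k).and (idx_of_far (G := G) b x k)).and
    (eventually_ge_atTop t)).exists
  obtain ⟨m', n', l⟩ := h x s
  filter_upwards [eventually_ge_atTop k] with k' hk' m n hm hn
  have e1 := s1 _ l.left
  have e2 := s2 _ l.right
  exact ((ha.lk fun i _ _ => (hk i (by omega)).1).trans (l.mono fun z hz => s3.trans hz)).trans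
    (hb.lk fun i _ _ => (hk i (by omega)).2)

omit [Fact G.Connected] in
theorem SE.refl (ha : LR G a) : SE G a a := fun x t =>
  let ⟨n, hn⟩ := (ha.2 x t).exists; ⟨n, n, Lk.refl hn⟩

theorem SE.trans (h : SE G a b) (h' : SE G b c) (ha : LR G a) (hb : LR G b) (hc : LR G c) :
    SE G a c := fun x t =>
  let ⟨k, h1, h2⟩ := ((h.ev ha hb x t).and (h'.ev hb hc x t)).exists
  ⟨k, k, (h1 k k le_rfl le_rfl).trans (h2 k k le_rfl le_rfl)⟩

omit [Fact G.Connected] in
theorem TE.se (h : TE a b) (ha : LR G a) : SE G a b := fun x t => by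
  obtain ⟨m, n, h⟩ := h
  obtain ⟨k, hk⟩ := ((ha.shift m).2 x t).exists
  exact ⟨m + k, n + k, h k ▸ Lk.refl hk⟩

theorem SE.map (h : SE G a b) (φ : G ≃g G) : SE G (fun k => φ (a k)) fun k => φ (b k) :=
  fun x t => let ⟨m, n, l⟩ := h (φ.symm x) t
    ⟨m, n, (l.map φ).mono (by
      rintro _ ⟨z, hz, rfl⟩
      rwa [mem_ofPred_eq, ← dist_iso φ, φ.apply_symm_apply] at hz)⟩

theorem Far.map {K : ℕ} {S T : Set V} (h : Far G K S T) (φ : G ≃g G) :
    Far G K (φ '' S) (φ '' T) := by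
  rintro _ ⟨x, hx, rfl⟩ _ ⟨y, hy, rfl⟩
  rw [dist_iso]
  exact h x hx y hy

theorem RF.map {S : ℕ} {ι : Type} {R : ι → ℕ → V} (h : RF G S ω R) (φ : G ≃g G) :
    RF G S (fun k => φ (ω k)) fun i k => φ (R i k) :=
  ⟨fun i => (h.lr i).map φ, fun i => (h.se i).map φ, fun i j e => by
    simpa only [← range_comp, Function.comp_def] using (h.far i j e).map φ⟩

theorem RF.se2 {S : ℕ} {ι : Type} {R : ι → ℕ → V} (h : RF G S ω R) (hω : LR G ω) (i j : ι) :
    SE G (R i) (R j) := (h.se i).trans (h.se j).symm (h.lr i) hω (h.lr j)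

theorem MD.map {σ : ℕ} {ι : Type} {M L : ι → ℕ → V} (h : MD G σ M L) (φ : G ≃g G) :
    MD G σ (fun i k => φ (M i k)) fun i k => φ (L i k) := fun x t => by
  obtain ⟨Ψ, h1, h2⟩ := h (φ.symm x) t
  refine ⟨fun i k => φ (Ψ i k), fun i => ?_, fun i j e => by
    simpa only [← range_comp, Function.comp_def] using (h2 i j e).map φ⟩
  obtain ⟨k1, k2, n, k3, k4, k5⟩ := h1 i
  exact ⟨k1.map φ, k2.map φ, n, k3, fun k hk => congrArg φ (k4 k hk), fun k hk => by
    have := k5 k hk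
    rwa [← dist_iso φ, φ.apply_symm_apply] at this⟩

theorem Lnk.map {K : ℕ} (h : Lnk G K a b c d) (φ : G ≃g G) :
    Lnk G K (fun k => φ (a k)) (fun k => φ (b k)) (fun k => φ (c k)) fun k => φ (d k) := by
  obtain ⟨L, L', m1, m2, m3, m4, h1, h2, h3, h4, h5⟩ := h
  exact ⟨_, _, m1, m2, m3, m4, h1.image φ, h2.image φ, h3.map φ, h4.map φ, by
    simpa only [image_union, image_image] using h5.map φ⟩

/-- Links only depend on tails. -/
theorem Lnk.te {K : ℕ} {a' : ℕ → V} (h : Lnk G K a b c d) (ha : LR G a) (k : TE a a') :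
    Lnk G K a' b c d := by
  obtain ⟨L, L', m1, m2, m3, m4, h1, h2, h3, h4, h5⟩ := h
  obtain ⟨m, n, k⟩ := k
  refine ⟨L ∪ a '' Icc m1 (m + m1), L', n + m1, m2, m3, m4, h1.union ((finite_Icc _ _).image _), h2,
    k m1 ▸ (ha.lk fun i _ _ => Or.inr ⟨i, ⟨by omega, by omega⟩, rfl⟩).trans
      (h3.mono subset_union_left), h4, h5.mono ?_ le_rfl⟩
  rintro z (((hz | ⟨i, hi, rfl⟩) | ⟨i, hi, rfl⟩) | hz)
  · exact Or.inl (Or.inl hz)
  · exact Or.inl (Or.inr ⟨i, hi.1, rfl⟩)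
  · obtain ⟨j, rfl⟩ := Nat.exists_eq_add_of_le (show n ≤ i from le_of_add_le_left hi)
    exact Or.inl (Or.inr ⟨m + j, by have : n + m1 ≤ n + j := hi; change m1 ≤ m + j; omega, k j⟩)
  · exact Or.inr hz

theorem Lnk.te4 {K : ℕ} {a' b' c' d' : ℕ → V} (h : Lnk G K a b c d) (ha : LR G a) (hb : LR G b)
    (hc : LR G c) (hd : LR G d) (k1 : TE a a') (k2 : TE b b') (k3 : TE c c') (k4 : TE d d') :
    Lnk G K a' b' c' d' :=
  ((((h.te ha k1).s1.te hb k2).s1.s2.te hc k3).s1.te hd k4).s1.s2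

/-- An initial segment followed by a ray. -/
def cat (a : ℕ → V) (n : ℕ) (b : ℕ → V) (k : ℕ) : V := if k ≤ n then a k else b (k - n)

omit [Fact G.Connected] in
theorem cat_spec {n : ℕ} (ha : ∀ k < n, G.dist (a k) (a (k + 1)) ≤ 1) (hb : LR G b)
    (h : b 0 = a n) : LR G (cat a n b) ∧ (∀ k ≤ n, cat a n b k = a k) ∧
      (∀ k, cat a n b (n + k) = b k) ∧ range (cat a n b) ⊆ a '' Iic n ∪ range b := by
  have e : ∀ k, cat a n b (n + k) = b k := fun k => by
    rcases k with _ | k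
    · simp [cat, h]
    · simp [cat]
  refine ⟨⟨fun k => ?_, fun x t => ?_⟩, fun k hk => if_pos hk, e, ?_⟩
  · rcases lt_or_ge k n with hk | hk
    · simpa [cat, hk.le, Nat.succ_le_of_lt hk] using ha k hk
    · obtain ⟨j, rfl⟩ := Nat.exists_eq_add_of_le hk
      rw [add_assoc, e, e]
      exact hb.1 j
  · obtain ⟨m, hm⟩ := eventually_atTop.1 (hb.2 x t)
    filter_upwards [eventually_ge_atTop (n + m)] with k hk
    obtain ⟨j, rfl⟩ := Nat.exists_eq_add_of_le (le_of_add_le_left hk)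
    rw [e]
    exact hm j (by omega)
  · rintro _ ⟨k, rfl⟩
    by_cases hk : k ≤ n
    · exact Or.inl ⟨k, hk, (if_pos hk).symm⟩
    · exact Or.inr ⟨_, (if_neg hk).symm⟩

omit [Fact G.Connected] in
/-- A connected set followed by a tail contains a ray. -/
theorem splice (h : LR G w) {Z : Set V} {x : V} {n : ℕ} (l : Lk G Z x (w n)) :
    ∃ ψ, LR G ψ ∧ ψ 0 = x ∧ TE ψ w ∧ range ψ ⊆ Br Z w n := by
  obtain ⟨p, hp⟩ := l
  obtain ⟨h1, h2, h3, h4⟩ := cat_spec (G := G) (a := p.getVert) (n := p.length)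
    (fun k hk => (dist_adj (p.adj_getVert_succ hk)).le) (h.shift n) (by simp)
  refine ⟨_, h1, (h2 0 (Nat.zero_le _)).trans p.getVert_zero, ⟨_, n, h3⟩, h4.trans ?_⟩
  rintro _ (⟨k, -, rfl⟩ | ⟨k, rfl⟩)
  exacts [Or.inl (hp _ (p.getVert_mem_support k)), tail_mem_Br (Nat.le_add_right _ _)]

theorem dp_tri {Y : Set V} (h : Y.Nonempty) (x z : V) : dp G Y z ≤ dp G Y x + G.dist x z :=
  let ⟨y, hy, e⟩ := dp_ex (G := G) h x
  (dp_le hy z).trans (e ▸ tri y x z)

theorem dp_map {Y : Set V} {φ : G ≃g G} (h : φ ∈ (stab Y : Subgroup (G ≃g G))) (x : V) :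
    dp G Y (φ x) = dp G Y x :=
  congrArg sInf (Set.ext fun _ => ⟨fun ⟨y, hy, e⟩ => ⟨φ.symm y, (h _).1 (by simpa using hy), by
    rwa [← dist_iso φ, φ.apply_symm_apply]⟩, fun ⟨y, hy, e⟩ =>
      ⟨φ y, (h y).2 hy, by rwa [dist_iso]⟩⟩)

variable {κ N : ℕ} {Y : Set V} {R : ZMod N → ℕ → V} {pos : V → ZMod N} {x y : V}

omit [Fact G.Connected] in
theorem PB.up (h : PB G κ Y R) {e : ZMod N} {k m t : ℕ} (ht : t ≤ 12 * κ + 2)
    (h1 : t ≤ dp G Y (R e k)) (hk : k ≤ m) : t ≤ dp G Y (R e m) := by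
  rcases le_total m (12 * κ + 2) with h2 | h2
  · rw [h.low e k (hk.trans h2)] at h1
    rw [h.low e m h2]
    omega
  · exact ht.trans (h.high e m h2)

omit [Fact G.Connected] in
theorem PS.dstep (h : PS G κ Y R pos) (hN : 3 ≤ N) (e : G.Adj x y) (hx : 2 * κ + 1 < dp G Y x)
    (hy : 2 * κ + 1 < dp G Y y) : (pos y - pos x).valMinAbs = 0 ∨
      ((pos y - pos x).valMinAbs = 1 ∧ ∃ k, G.dist y (R (pos y) k) ≤ κ) ∨
      (pos y - pos x).valMinAbs = -1 ∧ ∃ k, G.dist x (R (pos x) k) ≤ κ := by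
  have : NeZero N := ⟨by omega⟩
  rcases h.step x y e hx hy with k | ⟨k, k'⟩ | ⟨k, k'⟩
  · simp [k]
  · exact Or.inr (Or.inl ⟨(ZMod.valMinAbs_spec _ _).2 ⟨by simp [k], by omega, by omega⟩, k'⟩)
  · exact Or.inr (Or.inr ⟨(ZMod.valMinAbs_spec _ _).2 ⟨by simp [k], by omega, by omega⟩, k'⟩)

omit [Fact G.Connected] in
theorem PS.dw_reverse (h : PS G κ Y R pos) (hN : 3 ≤ N) (p : G.Walk x y)
    (hp : Deep G Y (2 * κ + 2) p) : dw pos p.reverse = -dw pos p := by
  have : NeZero N := ⟨by omega⟩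
  induction p with
  | nil => rfl
  | @cons u v z e p ih =>
    rw [Walk.reverse_cons, dw_append, ih fun z hz => hp z (by simp [hz]), dw_cons, dw_cons, dw_nil,
      ← neg_sub (pos v), ZMod.valMinAbs_neg_of_ne_half]
    · ring
    · intro k
      have k' := ZMod.valMinAbs_natCast_of_le_half (n := N) (a := (pos v - pos u).val) (by omega)
      rw [ZMod.natCast_zmod_val] at k'
      rcases h.dstep hN e (hp u (by simp)) (hp v (by simp)) with k | k | k <;> omega

omit [Fact G.Connected] in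
/-- Every lifted position passed by a deep walk belongs to a ray touched by the walk. -/
theorem PS.pass (h : PS G κ Y R pos) (hN : 3 ≤ N) (p : G.Walk x y)
    (hp : Deep G Y (2 * κ + 2) p) {P m : ℤ} (hP : (P : ZMod N) = pos x)
    (hm : P < m ∧ m ≤ P + dw pos p ∨ P + dw pos p < m ∧ m ≤ P) :
    ∃ v ∈ p.support, ∃ k, G.dist v (R m k) ≤ κ := by
  induction p generalizing P with
  | nil => simp only [dw_nil] at hm; omega
  | @cons u v z e p ih =>
    have hv : ((P + (pos v - pos u).valMinAbs : ℤ) : ZMod N) = pos v := by simp [hP]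
    rw [dw_cons, ← add_assoc] at hm
    have k := h.dstep hN e (hp u (by simp)) (hp v (by simp))
    by_cases c : P + (pos v - pos u).valMinAbs < m ∧ m ≤ P + (pos v - pos u).valMinAbs + dw pos p ∨
        P + (pos v - pos u).valMinAbs + dw pos p < m ∧ m ≤ P + (pos v - pos u).valMinAbs
    · obtain ⟨t, t1, t2⟩ := ih (fun z hz => hp z (by simp [hz])) hv c
      exact ⟨t, by simp [t1], t2⟩
    · rcases k with k | ⟨k, k'⟩ | ⟨k, k'⟩
      · omega
      · obtain rfl : m = P + (pos v - pos u).valMinAbs := by omega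
        exact ⟨v, by simp, by rw [hv]; exact k'⟩
      · obtain rfl : m = P := by omega
        exact ⟨u, by simp, hP ▸ k'⟩

/-- Deep points that are close have almost equal positions. -/
theorem PS.near (h : PS G κ Y R pos) (hN : 3 ≤ N) (hx : 10 * κ + 2 ≤ dp G Y x)
    (hxy : G.dist x y ≤ 8 * κ) : ∃ e : ℤ, |e| ≤ 1 ∧ pos y = pos x + e := by
  have : NeZero N := ⟨by omega⟩
  obtain ⟨p, hp⟩ := (Fact.out : G.Connected).exists_walk_length_eq_dist x y
  have hd : ∀ z ∈ p.support, G.dist x z + G.dist z y ≤ 8 * κ := fun z hz =>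
    (dist_add_le_length p hz).trans (hp ▸ hxy)
  have dp' : Deep G Y (2 * κ + 2) p := fun z hz => by
    have := dp_tri (G := G) h.ne z x
    have := hd z hz
    rw [dcomm z x] at *
    omega
  refine ⟨dw pos p, ?_, by rw [dw_cast, add_sub_cancel]⟩
  by_contra k
  obtain ⟨m, m1, m2⟩ : ∃ m : ℤ, (((pos x).val : ℤ) < m ∧ m ≤ (pos x).val + dw pos p ∨
      (pos x).val + dw pos p < m ∧ m ≤ (pos x).val) ∧ (((pos x).val : ℤ) < m + 1 ∧
      m + 1 ≤ (pos x).val + dw pos p ∨ (pos x).val + dw pos p < m + 1 ∧ m + 1 ≤ (pos x).val) := by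
    rcases lt_abs.1 (not_le.1 k) with k | k
    exacts [⟨(pos x).val + 1, by omega⟩, ⟨(pos x).val - 1, by omega⟩]
  obtain ⟨u, u1, i, u2⟩ := h.pass hN p dp' (by simp) m1
  obtain ⟨v, v1, j, v2⟩ := h.pass hN p dp' (by simp) m2
  have e1 := h.far (m : ZMod N) (m + 1 : ℤ) (fun e => by
    have := (ZMod.intCast_eq_intCast_iff_dvd_sub _ _ _).1 e
    have := Int.le_of_dvd (by omega) this
    omega) _ ⟨i, rfl⟩ _ ⟨j, rfl⟩
  have e2 := tri (G := G) (R m i) u (R (m + 1 : ℤ) j)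
  have e3 := tri (G := G) u v (R (m + 1 : ℤ) j)
  have e4 := tri (G := G) u x v
  have e5 := tri (G := G) u y v
  have e6 := hd u u1
  have e7 := hd v v1
  rw [dcomm (R m i) u] at e2
  rw [dcomm u x] at e4
  rw [dcomm y v] at e5
  omega

omit [Fact G.Connected] in
/-- A deep walk splits at a contact with any lifted position that it passes. -/
theorem PS.split (h : PS G κ Y R pos) (hN : 3 ≤ N) (p : G.Walk x y)
    (hp : Deep G Y (2 * κ + 2) p) {P m : ℤ} (hP : (P : ZMod N) = pos x)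
    (hm : P < m ∧ m ≤ P + dw pos p ∨ P + dw pos p < m ∧ m ≤ P) :
    ∃ (v : V) (p₁ : G.Walk x v) (p₂ : G.Walk v y), p = p₁.append p₂ ∧ P + dw pos p₁ = m ∧
      ∃ k, G.dist v (R m k) ≤ κ := by
  induction p generalizing P with
  | nil => simp only [dw_nil] at hm; omega
  | @cons u v z e p ih =>
    have hv : ((P + (pos v - pos u).valMinAbs : ℤ) : ZMod N) = pos v := by simp [hP]
    rw [dw_cons, ← add_assoc] at hm
    have k := h.dstep hN e (hp u (by simp)) (hp v (by simp))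
    by_cases c : P + (pos v - pos u).valMinAbs < m ∧ m ≤ P + (pos v - pos u).valMinAbs + dw pos p ∨
        P + (pos v - pos u).valMinAbs + dw pos p < m ∧ m ≤ P + (pos v - pos u).valMinAbs
    · obtain ⟨t, p₁, p₂, rfl, t1, t2⟩ := ih (fun z hz => hp z (by simp [hz])) hv c
      exact ⟨t, Walk.cons e p₁, p₂, rfl, by rw [dw_cons, ← add_assoc, t1], t2⟩
    · rcases k with k | ⟨k, k'⟩ | ⟨k, k'⟩
      · omega
      · obtain rfl : m = P + (pos v - pos u).valMinAbs := by omega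
        exact ⟨v, Walk.cons e Walk.nil, p, rfl, by simp [dw_cons], by rw [hv]; exact k'⟩
      · obtain rfl : m = P := by omega
        exact ⟨u, Walk.nil, _, rfl, by simp, hP ▸ k'⟩

omit [Fact G.Connected] in
/-- The initial part of a deep walk up to its first contact. -/
theorem PS.first (h : PS G κ Y R pos) (hN : 3 ≤ N) (p : G.Walk x y)
    (hp : Deep G Y (2 * κ + 2) p) (hy : ∃ b k, G.dist y (R b k) ≤ κ) :
    ∃ (v : V) (μ : G.Walk x v), (∀ z ∈ μ.support, z ∈ p.support) ∧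
      (∃ k, G.dist v (R (pos v) k) ≤ κ) ∧ (dw pos μ = 0 ∨ dw pos μ = 1) ∧
      ∀ z ∈ μ.support, z = v ∨ pos z = pos x ∧ ∀ a k, κ < G.dist z (R a k) := by
  have key : ∀ {u z} (q : G.Walk u z), Deep G Y (2 * κ + 2) q → (∃ b k, G.dist u (R b k) ≤ κ) →
      ∃ k, G.dist u (R (pos u) k) ≤ κ := fun q hq ⟨b, k, e⟩ =>
    ⟨k, h.on b k _ (hq _ q.start_mem_support) e ▸ e⟩
  induction p with
  | nil => exact ⟨_, Walk.nil, by simp, key _ hp hy, by simp, by simp⟩
  | @cons u v z e p ih =>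
    by_cases c : ∃ b k, G.dist u (R b k) ≤ κ
    · exact ⟨u, Walk.nil, by simp, key _ hp c, by simp, by simp⟩
    push Not at c
    rcases h.dstep hN e (hp u (by simp)) (hp v (by simp)) with k | ⟨k, k'⟩ | ⟨-, j, k⟩
    · obtain ⟨t, μ, m1, m2, m3, m4⟩ := ih (fun z hz => hp z (by simp [hz])) hy
      have e' : pos v = pos u := sub_eq_zero.1 ((ZMod.valMinAbs_eq_zero _).1 k)
      refine ⟨t, Walk.cons e μ, fun z hz => ?_, m2, by rwa [dw_cons, k, zero_add], fun z hz => ?_⟩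
      all_goals rcases List.mem_cons.1 hz with rfl | hz
      exacts [by simp, by simp [m1 z hz], Or.inr ⟨rfl, c⟩, e' ▸ m4 z hz]
    · refine ⟨v, Walk.cons e Walk.nil, by simp, k', by simp [dw_cons, k], fun z hz => ?_⟩
      rcases List.mem_cons.1 hz with rfl | hz
      exacts [Or.inr ⟨rfl, c⟩, Or.inl (by simpa using hz)]
    · exact absurd k (not_le.2 (c _ _))

omit [Fact G.Connected] in
theorem BG.comp {ι ι' : Type} {s : ℕ} {ρ : ι → ℕ → V} {f : ι' → ι} (hf : Function.Injective f)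
    {i j : ι'} (h : (BG G s ρ).Adj (f i) (f j)) : (BG G s fun i => ρ (f i)).Adj i j :=
  ⟨fun e => h.1 (congrArg f e), fun x t => let ⟨m, n, l⟩ := h.2 x t
    ⟨m, n, l.mono fun _ k => ⟨k.1, fun c h1 h2 => k.2 (f c) (hf.ne h1) (hf.ne h2)⟩⟩⟩

omit [Fact G.Connected] in
theorem Rch.symm {ι : Type} {H : SimpleGraph ι} {U : Set ι} {i j : ι} (h : Rch H U i j) :
    Rch H U j i :=
  Relation.ReflTransGen.trans_induction_on h (fun _ => .refl)
    (fun k => .single ⟨k.2.1, k.1, k.2.2.symm⟩) fun _ _ k k' => k'.trans k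

/-- A path in the graph of a family gives deep links avoiding the rays off the path. -/
theorem Rch.lk {ι : Type} {s : ℕ} {ρ : ι → ℕ → V} {U : Set ι} {i j : ι}
    (h : Rch (BG G s ρ) U i j) (hi : i ∈ U) (h1 : ∀ c, LR G (ρ c))
    (h2 : ∀ c d, c ≠ d → Far G s (range (ρ c)) (range (ρ d))) (x : V) (t : ℕ) :
    ∃ m n, Lk G {z | t ≤ G.dist x z ∧ ∀ c ∉ U, ∀ k, s ≤ G.dist z (ρ c k)} (ρ i m) (ρ j n) := by
  have key : ∀ c ∈ U, ∀ k, ∀ d ∉ U, ∀ l, s ≤ G.dist (ρ c k) (ρ d l) := fun c hc k d hd l =>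
    h2 c d (fun e => hd (e ▸ hc)) _ ⟨k, rfl⟩ _ ⟨l, rfl⟩
  induction h generalizing t with
  | refl => exact let ⟨n, hn⟩ := ((h1 i).2 x t).exists; ⟨n, n, Lk.refl ⟨hn, key i hi n⟩⟩
  | @tail c d _ e ih =>
    obtain ⟨k, hk⟩ := eventually_atTop.1 ((h1 c).2 x t)
    obtain ⟨r, r1, r2⟩ := ((idx_of_far (G := G) (ρ c) x k).and (eventually_ge_atTop t)).exists
    obtain ⟨m, n, l⟩ := ih r
    obtain ⟨m', n', l'⟩ := e.2.2.2 x r
    have e1 := r1 _ l.right.1
    have e2 := r1 _ l'.left.1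
    refine ⟨m, n', ((l.mono ?_).trans ((h1 c).lk fun k _ _ => ?_)).trans (l'.mono ?_)⟩
    exacts [fun z hz => ⟨r2.trans hz.1, hz.2⟩, ⟨hk k (by omega), key c e.1 k⟩, fun z hz =>
      ⟨r2.trans hz.1, fun a ha => hz.2 a (fun k => ha (k ▸ e.1)) fun k => ha (k ▸ e.2.1)⟩]

/-- The graph of a far family in one end is connected. -/
theorem RF.rch (hR : ReachSpec) {ι : Type} [Finite ι] {s : ℕ} {ρ : ι → ℕ → V} (hs : 1 ≤ s)
    (h : RF G (2 * s) ω ρ) (hω : LR G ω) (i j : ι) : Rch (BG G s ρ) univ i j :=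
  let ⟨t, ht⟩ := hR G s ρ (ω 0) hs h.far
  let ⟨m, n, l⟩ := h.se2 hω i j (ω 0) t
  ht univ i j m n trivial trivial (l.mono fun _ k => ⟨k, fun _ e => absurd trivial e⟩)

omit [Fact G.Connected] in
/-- A large connected graph contains a large star or a long geodesic. -/
theorem star_or_path {ι : Type} [Fintype ι] (H : SimpleGraph ι) (hc : ∀ i j, Rch H univ i j)
    {d n : ℕ} (h : (d + 1) ^ n < Fintype.card ι) :
    (∃ (c : ι) (e : Fin (d + 1) → ι), Function.Injective e ∧ ∀ i, H.Adj c (e i)) ∨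
      H.Connected ∧ ∃ r : ℕ → ι, ∀ i j, i ≤ j → j ≤ n → H.dist (r i) (r j) = j - i := by
  classical
  have : Nonempty ι := Fintype.card_pos_iff.1 (by omega)
  have hc' : H.Connected := ⟨fun i j => (reachable_iff_reflTransGen i j).2
    (Relation.ReflTransGen.trans_induction_on (hc i j) (fun _ => .refl)
      (fun k => .single k.2.2) fun _ _ k k' => k.trans k')⟩
  have : Fact H.Connected := ⟨hc'⟩
  by_cases k : ∀ c, H.degree c ≤ d
  · obtain ⟨i⟩ := ‹Nonempty ι›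
    obtain ⟨j, hj⟩ : ∃ j, j ∉ ball H i n := by
      by_contra e
      push Not at e
      have := card_ball_le (G := H) (fun c => by convert k c) i n
      rw [Finset.eq_univ_of_forall e, Finset.card_univ] at this
      omega
    obtain ⟨q, -, -, hq⟩ := exists_geo' (G := H) i j
    rw [mem_ball] at hj
    exact Or.inr ⟨hc', q, fun a b h1 h2 => hq a b h1 (by omega)⟩
  · push Not at k
    obtain ⟨c, k⟩ := k
    obtain ⟨e⟩ := Function.Embedding.nonempty_of_card_le (α := Fin (d + 1))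
      (β := H.neighborSet c) (by rwa [Fintype.card_fin, card_neighborSet_eq_degree])
    exact Or.inl ⟨c, fun i => e i, Subtype.val_injective.comp e.injective, fun i => (e i).2⟩

end Pool.Agent.MP_77f003_co.H49
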