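import Pool.Agent.MP_77f003_co.H49.Core

/-!
Statements used to show that the stabiliser of a limit of cuts has an infinite orbit, without
assuming unimodularity: the work is done in a subgroup acting on one of its orbits.
-/

namespace Pool.Agent.MP_77f003_co.H49

open SimpleGraph MulAction

variable {V : Type}

/-- A point within `D` of the orbit of `o`. -/
def Near (G : SimpleGraph V) (Γ : Subgroup (G ≃g G)) (o : V) (D : ℕ) (x : V) : Prop :=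
  ∃ φ ∈ Γ, G.dist (φ o) x ≤ D

/-- The darts starting near the orbit of `o`. -/
def ND (G : SimpleGraph V) [Fact G.Connected] (Γ : Subgroup (G ≃g G)) (o : V) (D : ℕ) :
    SubMulAction Γ G.Dart where
  carrier := {d | Near G Γ o D d.fst}
  smul_mem' := fun g _ ⟨φ, h1, h2⟩ => ⟨g.1 * φ, mul_mem g.2 h1, (dist_iso g.1 _ _).trans_le h2⟩

/-- The base point of the orbit. -/
def bp {G : SimpleGraph V} (Γ : Subgroup (G ≃g G)) (o : V) : orbit Γ o := ⟨o, mem_orbit_self o⟩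

/-- A nested family of sets invariant under a subgroup. -/
structure GFam (G : SimpleGraph V) (Γ : Subgroup (G ≃g G)) (N : Set (Set V)) : Prop where
  compl : ∀ A ∈ N, Aᶜ ∈ N
  nest : ∀ A ∈ N, ∀ B ∈ N, A ⊆ B ∨ A ⊆ Bᶜ ∨ Aᶜ ⊆ B ∨ Aᶜ ⊆ Bᶜ
  inv : ∀ A ∈ N, ∀ φ ∈ Γ, φ ⁻¹' A ∈ N

/-- The exact sequence of tracks and regions, and the arithmetic of its dimensions. -/
def GTrackSpec : Prop := ∀ {V : Type} (G : SimpleGraph V) [Fact G.Connected] [G.LocallyFinite]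
  (Γ P : Subgroup (G ≃g G)) (M : Set (Set V)) (o u v : V) (D : ℕ), TU Γ (bp Γ o) → GFam G Γ M →
  FinOrb P → (∀ φ ∈ Γ, φ u = u → φ v = v → φ ∈ P) →
  (∀ B ∈ M, ∃ g ∈ Γ, ∀ φ ∈ Γ, φ ∈ stab B → g⁻¹ * φ * g ∈ P) →
  (∀ B ∈ M, ∀ p ∈ cb G 1 B, Near G Γ o D p.1) →
  ∃ m : ℝ, 0 < m ∧ ∀ L s : ℕ, 1 ≤ L → (∀ B ∈ M, ∀ e ∈ cb G L B, (trk G L B e).encard ≤ s) →
    ∃ (X R : Type) (_ : MulAction Γ X) (_ : MulAction Γ R) (sX : X → Set (orbit Γ o))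
      (sR : R → Set (orbit Γ o)) (t : X → ND G Γ o D → ℝ) (D' : X → R → ℝ),
      GS Γ sX ∧ GS Γ sR ∧ Mat t ∧ Mat D' ∧ Inv Γ t ∧ Inv Γ D' ∧
      (∀ b ∈ Ker D', b = 0) ∧ (∀ c, c ∈ Ker (fun e x => t x e) ↔ ∃ b, L2 b ∧ c = app D' b) ∧
      Set.range t = {z | ∃ B ∈ M, ∃ e ∈ cb G L B, z = fun d => sg G (trk G L B e) d.1} ∧
      ∃ (p : ℕ) (q : Fin p → ℝ), (∀ i, q i = 1 / 2 ∨ ∃ k : ℕ, 3 ≤ k ∧ q i = 1 / 2 - 1 / k) ∧
        wsum sX (bp Γ o) 1 - wsum sR (bp Γ o) 1 = m * ∑ i, q i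

/-- If the limit cut stays near a unimodular level, its stabiliser has an infinite orbit. -/
def GNcSpec : Prop := ∀ {V : Type} (G : SimpleGraph V) [Fact G.Connected] [G.LocallyFinite]
  (Γ : Subgroup (G ≃g G)) (o : V) (D : ℕ), VT G → TU Γ (bp Γ o) → ∀ N u v A, Lim G N u v A →
  (∀ p ∈ cb G 1 (⋃ j, A j), Near G Γ o D p.1 ∧ Near G Γ o D p.2) →
  ¬ FinOrb (stab (⋃ j, A j) : Subgroup (G ≃g G))

/-- A chain can be recentred so that a limit cut with a small stabiliser stays near a level. -/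
def RecSpec : Prop := ∀ {V : Type} (G : SimpleGraph V) [Fact G.Connected] [G.LocallyFinite],
  VT G → ∀ N u v A, Lim G N u v A → ∃ u' v' A', Lim G N u' v' A' ∧
    (FinOrb (stab (⋃ j, A' j) : Subgroup (G ≃g G)) → ∃ (Γ : Subgroup (G ≃g G)) (o : V) (D : ℕ),
      TU Γ (bp Γ o) ∧
      ∀ p ∈ cb G 1 (⋃ j, A' j), Near G Γ o D p.1 ∧ Near G Γ o D p.2)

theorem ncSpec (h1 : ChainSpec) (h2 : RecSpec) (h3 : GNcSpec) : NcSpec := by
  intro V G _ _ ht hn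
  obtain ⟨N, u, v, A, h⟩ := h1 G ht hn
  obtain ⟨u', v', A', h', k⟩ := h2 G ht N u v A h
  refine ⟨N, u', v', A', h', fun hf => ?_⟩
  obtain ⟨Γ, o, D, k1, k2⟩ := k hf
  exact h3 G Γ o D ht k1 N u' v' A' h' k2 hf

end Pool.Agent.MP_77f003_co.H49
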