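import Pool.Agent.MP_77f003_co.H51.NSpec

/-!
Abstract systems of tracks: the tracks through a pair are linearly ordered, regions are the classes
generated by consecutive tracks, and functions with vanishing sums have a potential on regions.
-/

namespace Pool.Agent.MP_77f003_co.H49

open Relation

/-- An abstract system of oriented tracks `X` made of pairs `P`. -/
structure TO (X P : Type) where
  m : P → X → Prop
  rv : X → X
  sw : P → P
  le : X → X → Prop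
  rv_rv : ∀ x, rv (rv x) = x
  sw_sw : ∀ e, sw (sw e) = e
  m_rv : ∀ e x, m e (rv x) ↔ m (sw e) x
  refl : ∀ x, le x x
  trans : ∀ {x y z}, le x y → le y z → le x z
  tot : ∀ {e x y}, m e x → m e y → le x y ∨ le y x
  anti : ∀ {e x y}, m e x → m e y → le x y → le y x → x = y
  le_rv : ∀ {x y}, le x y → le (rv y) (rv x)
  fin : ∀ e, {x | m e x}.Finite
  ne : ∀ x, ∃ e, m e x
  asym : ∀ {e x}, m e x → ¬ m (sw e) x
  ext : ∀ {x y}, (∀ e, m e x ↔ m e y) → x = y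
  conn : ∀ {x e e'}, m e x → m e' x → ReflTransGen (fun p q => m q x ∧
    ((∀ y, le y x → (m p y ↔ m q y)) ∨ ∀ y, le x y → (m p y ↔ m q y))) e e'

namespace TO

variable {X P : Type} (T : TO X P)

/-- The tracks through `e` up to `x`. -/
def lo (e : P) (x : X) : Set X := {y | T.m e y ∧ T.le y x}

/-- Consecutive tracks. -/
def Cov (x y : X) : Prop :=
  x ≠ y ∧ T.le x y ∧ ∃ e, T.m e x ∧ T.m e y ∧ ∀ z, T.m e z → T.le z x ∨ T.le y z

/-- The region behind a track. -/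
def cls (x : X) : Set X := {y | EqvGen (fun a b => T.Cov a (T.rv b)) x y}

/-- A last track. -/
def Occ (x : X) : Prop := ∃ e, T.m e x ∧ ∀ y, T.m e y → T.le y x

/-- A finite region without vertices. -/
def Good (x : X) : Prop := (T.cls x).Finite ∧ ∀ y ∈ T.cls x, ¬ T.Occ y

variable {T}

theorem lo_fin (e : P) (x : X) : (T.lo e x).Finite := (T.fin e).subset fun _ h => h.1

theorem m_sw {e x} (h : T.m e x) : T.m (T.sw e) (T.rv x) := by rwa [T.m_rv, T.sw_sw]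

theorem le_rv' {x y} (h : T.le (T.rv y) x) : T.le (T.rv x) y := by
  simpa [T.rv_rv] using T.le_rv h

theorem le_rv'' {x y} (h : T.le x (T.rv y)) : T.le y (T.rv x) := by
  simpa [T.rv_rv] using T.le_rv h

theorem rv_inj : Function.Injective T.rv := Function.Involutive.injective T.rv_rv

theorem rv_ne (x : X) : T.rv x ≠ x := fun h => by
  obtain ⟨e, he⟩ := T.ne x
  exact T.asym he (h ▸ m_sw he)

theorem Cov.rv {x y} (h : T.Cov x y) : T.Cov (T.rv y) (T.rv x) := by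
  obtain ⟨h1, h2, e, h3, h4, h5⟩ := h
  refine ⟨fun k => h1 (rv_inj k).symm, T.le_rv h2, _, m_sw h4, m_sw h3, fun z hz => ?_⟩
  exact (h5 (T.rv z) ((T.m_rv _ _).2 hz)).symm.imp le_rv'' le_rv'

theorem ex_max {e} {S : Set X} (hS : ∀ x ∈ S, T.m e x) (hn : S.Nonempty) :
    ∃ x ∈ S, ∀ y ∈ S, T.le y x := by
  obtain ⟨x, h1, h2⟩ := Set.exists_max_image S (fun x => (T.lo e x).ncard)
    ((T.fin e).subset hS) hn
  refine ⟨x, h1, fun y hy => (T.tot (hS y hy) (hS x h1)).elim id fun k => ?_⟩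
  have := Set.eq_of_subset_of_ncard_le (s := T.lo e x) (t := T.lo e y)
    (fun z hz => ⟨hz.1, T.trans hz.2 k⟩) (h2 y hy) (lo_fin e y)
  exact (this.symm ▸ ⟨hS y hy, T.refl y⟩ : y ∈ T.lo e x).2

theorem lo_cov {e x y} (h1 : T.m e x) (h2 : T.m e y) (h3 : x ≠ y) (h4 : T.le x y)
    (h5 : ∀ z, T.m e z → T.le z x ∨ T.le y z) :
    T.lo e y = insert y (T.lo e x) ∧ y ∉ T.lo e x :=
  ⟨Set.ext fun z => ⟨fun hz => (h5 z hz.1).symm.imp (T.anti hz.1 h2 hz.2) fun k => ⟨hz.1, k⟩,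
    fun hz => hz.elim (by rintro rfl; exact ⟨h2, T.refl _⟩) fun k => ⟨k.1, T.trans k.2 h4⟩⟩,
    fun k => h3 (T.anti h1 h2 h4 k.2)⟩

theorem ex_pred {e y} (h : T.m e y) : (∀ z, T.m e z → T.le y z) ∨
    ∃ x, T.m e x ∧ x ≠ y ∧ T.le x y ∧ ∀ z, T.m e z → T.le z x ∨ T.le y z := by
  by_cases k : (T.lo e y \ {y}).Nonempty
  · obtain ⟨x, h1, h2⟩ := ex_max (e := e) (fun _ h => h.1.1) k
    refine Or.inr ⟨x, h1.1.1, h1.2, h1.1.2, fun z hz => ?_⟩
    by_cases k' : z = y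
    · exact Or.inr (k' ▸ T.refl _)
    · exact (T.tot hz h).imp_left fun k'' => h2 z ⟨⟨hz, k''⟩, k'⟩
  · refine Or.inl fun z hz => (T.tot hz h).elim (fun k' => ?_) id
    by_contra k''
    exact k ⟨z, ⟨hz, k'⟩, fun e => k'' (e ▸ T.refl _)⟩

theorem occ_rv {e y} (h : T.m e y) (k : ∀ z, T.m e z → T.le y z) : T.Occ (T.rv y) :=
  ⟨_, m_sw h, fun _ hz => le_rv'' (k _ ((T.m_rv _ _).2 hz))⟩

theorem ex_succ {e x} (h : T.m e x) (k : ¬ T.Occ x) : ∃ y, T.m e y ∧ T.Cov x y := by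
  rcases ex_pred (m_sw h) with k' | ⟨z, h1, h2, h3, h4⟩
  · exact absurd (T.rv_rv x ▸ occ_rv (m_sw h) k') k
  · exact ⟨T.rv z, (T.m_rv _ _).2 h1, T.rv_rv x ▸ Cov.rv ⟨h2, h3, _, h1, m_sw h, h4⟩⟩

theorem tele {β : X → ℝ} (h1 : ∀ x y, T.Cov x y → β x = β (T.rv y)) (h2 : ∀ x, T.Occ x → β x = 0)
    {e y} (h : T.m e y) : ∑ᶠ z ∈ T.lo e y, (β z - β (T.rv z)) = β y := by
  induction hn : (T.lo e y).ncard using Nat.strong_induction_on generalizing y with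
  | _ n ih =>
    rcases ex_pred h with k | ⟨x, k1, k2, k3, k4⟩
    · rw [show T.lo e y = {y} from Set.ext fun z => ⟨fun hz => T.anti hz.1 h hz.2 (k z hz.1),
        by rintro rfl; exact ⟨h, T.refl _⟩⟩, finsum_mem_singleton, h2 _ (occ_rv h k), sub_zero]
    · obtain ⟨e1, e2⟩ := lo_cov k1 h k2 k3 k4
      rw [e1, Set.ncard_insert_of_notMem e2 (lo_fin e x)] at hn
      rw [e1, finsum_mem_insert _ e2 (lo_fin e x), ih _ (by omega) k1 rfl,
        h1 x y ⟨k2, k3, e, k1, h, k4⟩, sub_add_cancel]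

theorem tele0 {β : X → ℝ} (h1 : ∀ x y, T.Cov x y → β x = β (T.rv y)) (h2 : ∀ x, T.Occ x → β x = 0)
    (e : P) : ∑ᶠ z ∈ {z | T.m e z}, (β z - β (T.rv z)) = 0 := by
  rcases Set.eq_empty_or_nonempty {z | T.m e z} with k | k
  · rw [k, finsum_mem_empty]
  · obtain ⟨y, k1, k2⟩ := ex_max (e := e) (fun _ h => h) k
    rw [show {z | T.m e z} = T.lo e y from Set.ext fun z => ⟨fun hz => ⟨hz, k2 z hz⟩, fun hz => hz.1⟩,
      tele h1 h2 k1, h2 y ⟨e, k1, k2⟩]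

theorem split {a : X → ℝ} (h : ∀ e, ∑ᶠ z ∈ {z | T.m e z}, a z = 0) {e x} (he : T.m e x) :
    ∑ᶠ z ∈ T.lo e x, a z = a x - ∑ᶠ z ∈ {z | T.m e z ∧ T.le x z}, a z := by
  have := finsum_mem_union_inter (f := a) (lo_fin (T := T) e x)
    ((T.fin e).subset fun _ h => h.1 : {z | T.m e z ∧ T.le x z}.Finite)
  rw [show T.lo e x ∪ {z | T.m e z ∧ T.le x z} = {z | T.m e z} from Set.ext fun z =>
    ⟨fun hz => hz.elim (·.1) (·.1), fun hz => (T.tot hz he).imp (⟨hz, ·⟩) (⟨hz, ·⟩)⟩,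
    show T.lo e x ∩ {z | T.m e z ∧ T.le x z} = {x} from Set.ext fun z =>
      ⟨fun hz => T.anti hz.1.1 he hz.1.2 hz.2.2, by rintro rfl; exact ⟨⟨he, T.refl _⟩, he, T.refl _⟩⟩,
    h, finsum_mem_singleton] at this
  linarith

theorem indep {a : X → ℝ} (h : ∀ e, ∑ᶠ z ∈ {z | T.m e z}, a z = 0) {e e' x} (he : T.m e x)
    (he' : T.m e' x) : ∑ᶠ z ∈ T.lo e x, a z = ∑ᶠ z ∈ T.lo e' x, a z := by
  have k := T.conn he he'
  clear he'
  suffices T.m e' x ∧ _ from this.2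
  induction k with
  | refl => exact ⟨he, rfl⟩
  | @tail p q _ k ih =>
    refine ⟨k.1, ih.2.trans ?_⟩
    rcases k.2 with k' | k'
    · exact finsum_mem_congr (Set.ext fun z => and_congr_left (k' z)) fun _ _ => rfl
    · rw [split h ih.1, split h k.1]
      congr 1
      exact finsum_mem_congr (Set.ext fun z => and_congr_left (k' z)) fun _ _ => rfl

/-- The potential. -/
noncomputable def pot (T : TO X P) (a : X → ℝ) (x : X) : ℝ := ∑ᶠ z ∈ T.lo (T.ne x).choose x, a z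

theorem pot_eq {a : X → ℝ} (h : ∀ e, ∑ᶠ z ∈ {z | T.m e z}, a z = 0) {e x} (he : T.m e x) :
    T.pot a x = ∑ᶠ z ∈ T.lo e x, a z := indep h (T.ne x).choose_spec he

theorem pot_rv {a : X → ℝ} (h : ∀ e, ∑ᶠ z ∈ {z | T.m e z}, a z = 0) (ha : ∀ x, a (T.rv x) = -a x)
    (x : X) : T.pot a (T.rv x) = T.pot a x - a x := by
  obtain ⟨e, he⟩ := T.ne x
  have : T.lo (T.sw e) (T.rv x) = T.rv '' {z | T.m e z ∧ T.le x z} := Set.ext fun z =>
    ⟨fun hz => ⟨T.rv z, ⟨(T.m_rv _ _).2 hz.1, le_rv'' hz.2⟩, T.rv_rv z⟩,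
      by rintro ⟨w, hw, rfl⟩; exact ⟨m_sw hw.1, T.le_rv hw.2⟩⟩
  rw [pot_eq h (m_sw he), pot_eq h he, split h he, this, finsum_mem_image rv_inj.injOn]
  simp only [ha]
  rw [finsum_mem_neg_distrib _ ((T.fin e).subset fun _ h => h.1)]
  ring

theorem pot_cov {a : X → ℝ} (h : ∀ e, ∑ᶠ z ∈ {z | T.m e z}, a z = 0) (ha : ∀ x, a (T.rv x) = -a x)
    {x y} (k : T.Cov x y) : T.pot a x = T.pot a (T.rv y) := by
  obtain ⟨k1, k2, e, k3, k4, k5⟩ := k
  obtain ⟨e1, e2⟩ := lo_cov k3 k4 k1 k2 k5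
  rw [pot_rv h ha, pot_eq h k4, e1, finsum_mem_insert _ e2 (lo_fin e x), pot_eq h k3]
  ring

theorem pot_occ {a : X → ℝ} (h : ∀ e, ∑ᶠ z ∈ {z | T.m e z}, a z = 0) {x} (k : T.Occ x) :
    T.pot a x = 0 := by
  obtain ⟨e, k1, k2⟩ := k
  rw [pot_eq h k1, ← h e]
  exact finsum_mem_congr (Set.ext fun z => ⟨fun hz => hz.1, fun hz => ⟨hz, k2 z hz⟩⟩) fun _ _ => rfl

theorem cls_self (x : X) : x ∈ T.cls x := EqvGen.refl x

theorem cls_eq {x y} (h : y ∈ T.cls x) : T.cls y = T.cls x :=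
  Set.ext fun _ => ⟨EqvGen.trans _ _ _ h, EqvGen.trans _ _ _ (EqvGen.symm _ _ h)⟩

theorem Cov.mem {x y} (h : T.Cov x y) : T.rv y ∈ T.cls x := EqvGen.rel _ _ (by rwa [T.rv_rv])

theorem cls_const {A : Type} {β : X → A} (h : ∀ x y, T.Cov x y → β x = β (T.rv y)) {x y}
    (k : y ∈ T.cls x) : β x = β y := by
  induction k with
  | rel a b k => simpa [T.rv_rv] using h _ _ k
  | refl => rfl
  | symm _ _ _ ih => exact ih.symm
  | trans _ _ _ _ _ i j => exact i.trans j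

theorem Good.three {x} (h : T.Good x) : 3 ≤ (T.cls x).ncard := by
  have key : ∀ y ∈ T.cls x, ∀ e, T.m e y → ∃ z ∈ T.cls x, z ≠ y ∧ T.rv z ≠ y ∧ T.m e (T.rv z) := by
    intro y hy e he
    obtain ⟨z, h1, h2⟩ := ex_succ he (h.2 y hy)
    exact ⟨T.rv z, cls_eq hy ▸ h2.mem, fun k => T.asym he (k ▸ m_sw h1), by
      rw [T.rv_rv]; exact ⟨h2.1.symm, h1⟩⟩
  obtain ⟨e, he⟩ := T.ne x
  obtain ⟨y, h1, h2, h3, -⟩ := key x (cls_self x) e he
  by_contra hn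
  have two : ∀ z ∈ T.cls x, z = x ∨ z = y := fun z hz => by
    by_contra k
    push Not at k
    exact hn ((Set.two_lt_ncard h.1).2 ⟨z, hz, x, cls_self x, y, h1, k.1, k.2, h2.symm⟩)
  refine h3 (T.ext fun p => ⟨fun hp => ?_, fun hp => ?_⟩)
  · obtain ⟨z, k1, k2, -, k3⟩ := key y h1 _ ((T.m_rv _ _).1 hp)
    rw [(two z k1).resolve_right k2, T.m_rv, T.sw_sw] at k3
    exact k3
  · obtain ⟨z, k1, k2, -, k3⟩ := key x (cls_self x) p hp
    exact (two z k1).resolve_left k2 ▸ k3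

end TO

end Pool.Agent.MP_77f003_co.H49
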