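import Pool.Agent.MP_77f003_co.H51.TrA
import Pool.Agent.MP_77f003_co.H84.Fib

/-!
Invariant partitions into finite classes, and the exact sequence of an invariant system of tracks.
-/

namespace Pool.Agent.MP_77f003_co.H49

open scoped Pointwise

theorem Mat.trAdd {X Y : Type} {t t' : Y → X → ℝ} (h : Mat t) (h' : Mat t') :
    Mat fun y x => t y x + t' y x := by
  obtain ⟨b, h1, h2, h3⟩ := h
  obtain ⟨b', k1, k2, k3⟩ := h'
  have key : ∀ {A : Type} {f g : A → ℝ}, {a | f a ≠ 0}.encard ≤ b → {a | g a ≠ 0}.encard ≤ b' →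
      {a | f a + g a ≠ 0}.encard ≤ (b + b' : ℕ) := fun {A f g} e1 e2 => by
    refine (Set.encard_le_encard (t := {a | f a ≠ 0} ∪ {a | g a ≠ 0}) fun a ha => ?_).trans
      ((Set.encard_union_le _ _).trans (by push_cast; exact add_le_add e1 e2))
    by_contra k
    simp only [Set.mem_union, Set.mem_ofPred_eq, not_or, not_not] at k
    exact ha (by rw [k.1, k.2, add_zero])
  exact ⟨b + b', fun y x => (abs_add_le _ _).trans (by push_cast; exact add_le_add (h1 y x) (k1 y x)),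
    fun y => key (h2 y) (k2 y), fun x => key (h3 x) (k3 x)⟩

theorem Mat.trNeg {X Y : Type} {t : Y → X → ℝ} (h : Mat t) : Mat fun y x => -t y x := by
  simpa only [Mat, abs_neg, neg_ne_zero] using h

theorem Mat.trComp {X Y Z : Type} {t : Y → X → ℝ} (h : Mat t) {f : Z → Y}
    (hf : Function.Injective f) : Mat fun z => t (f z) := by
  obtain ⟨b, h1, h2, h3⟩ := h
  exact ⟨b, fun z => h1 _, fun z => h2 _, fun x =>
    (Set.encard_le_encard_of_injOn (f := f) (t := {y | t y x ≠ 0}) (fun _ h => h) hf.injOn).trans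
      (h3 x)⟩

theorem Mat.trSwap {X Y : Type} {t : Y → X → ℝ} (h : Mat t) : Mat fun x y => t y x :=
  let ⟨b, h1, h2, h3⟩ := h
  ⟨b, fun _ _ => h1 _ _, h3, h2⟩

open Classical in
theorem trMat_ind {X Y : Type} {r : Y → X → Prop} {b : ℕ} (h1 : ∀ y, {x | r y x}.encard ≤ b)
    (h2 : ∀ x, {y | r y x}.encard ≤ b) : Mat fun y x => if r y x then (1 : ℝ) else 0 := by
  refine ⟨b + 1, fun y x => ?_, fun y => ?_, fun x => ?_⟩
  · have : (0 : ℝ) ≤ b := b.cast_nonneg
    push_cast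
    split_ifs <;> simp [*]; linarith
  · simpa using (h1 y).trans le_self_add
  · simpa using (h2 x).trans le_self_add

open Classical in
theorem trApp_ind {X Y : Type} (r : Y → X → Prop) (c : X → ℝ) (y : Y) :
    app (fun y x => if r y x then (1 : ℝ) else 0) c y = ∑ᶠ x ∈ {x | r y x}, c x := by
  rw [app, finsum_mem_def]
  exact finsum_congr fun x => by simp [Set.indicator_apply]

theorem trApp_add {X Y : Type} {t t' : Y → X → ℝ} (h : Mat t) (h' : Mat t') (c : X → ℝ) (y : Y) :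
    app (fun y x => t y x + t' y x) c y = app t c y + app t' c y := by
  have key : ∀ {t : Y → X → ℝ}, Mat t → (Function.support fun x => t y x * c x).Finite :=
    fun ⟨_, _, h, _⟩ => (Set.finite_of_encard_le_coe (h y)).subset
      fun _ hx => left_ne_zero_of_mul hx
  simp only [app, add_mul]
  exact finsum_add_distrib (key h) (key h')

theorem trApp_neg {X Y : Type} (t : Y → X → ℝ) (c : X → ℝ) (y : Y) :
    app (fun y x => -t y x) c y = -app t c y := by
  simp only [app, neg_mul, finsum_neg_distrib]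

theorem L2.trLin {X : Type} {c c' : X → ℝ} (h : L2 c) (h' : L2 c') (a b : ℝ) :
    L2 fun x => a * c x + b * c' x :=
  ((h.mul_left (2 * a ^ 2)).add (h'.mul_left (2 * b ^ 2))).of_nonneg_of_le (fun _ => sq_nonneg _)
    fun x => by nlinarith [sq_nonneg (a * c x - b * c' x)]

theorem L2.trZero {X : Type} {c : X → ℝ} (h : L2 c) {S : Set X} (hS : S.Infinite) {v : ℝ}
    (k : ∀ x ∈ S, c x = v) : v = 0 := by
  by_contra hv
  have := h.tendsto_cofinite_zero.eventually (gt_mem_nhds (show (0 : ℝ) < v ^ 2 by positivity))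
  exact hS (this.subset fun x hx => by simp [k x hx])

variable {O Γ X : Type} [Group Γ] [MulAction Γ O] [MulAction Γ X] {o : O} {s : X → Set O}

theorem GS.trRep (h : GS Γ s) (hT : TU Γ o) (x : X) : ∃ g : Γ, o ∈ s (g • x) :=
  let ⟨v, hv⟩ := h.ne x
  let ⟨g, hg⟩ := hT.1 v o
  ⟨g, hg ▸ h.eqv g x v hv⟩

theorem GS.trBdd (h : GS Γ s) (hT : TU Γ o) {f : X → Set X} (hf : ∀ x, (f x).Finite)
    (hi : ∀ (g : Γ) x, ∀ y ∈ f x, g • y ∈ f (g • x)) : ∃ b : ℕ, ∀ x, (f x).encard ≤ b := by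
  obtain ⟨b, hb⟩ := ((h.lf o).image fun x => (f x).ncard).bddAbove
  refine ⟨b, fun x => ?_⟩
  obtain ⟨g, hg⟩ := h.trRep hT x
  refine (Set.encard_le_encard_of_injOn (hi g x) (MulAction.injective g).injOn).trans ?_
  rw [← (hf _).cast_ncard_eq]
  exact_mod_cast hb ⟨_, hg, rfl⟩

theorem GS.trComp (h : GS Γ s) {Y : Type} [MulAction Γ Y] {π : Y → X}
    (h1 : ∀ (g : Γ) y, π (g • y) = g • π y) (h2 : ∀ x, {y | π y = x}.Finite) :
    GS Γ fun y => s (π y) :=
  ⟨fun _ => h.fin _, fun _ => h.ne _, fun g y v hv => h1 g y ▸ h.eqv g _ v hv,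
    fun v => ((h.lf v).biUnion fun x _ => h2 x).subset fun y hy => Set.mem_biUnion (x := π y) hy rfl⟩

/-- An invariant partition, some of whose finite classes are selected. -/
structure Part (Γ X : Type) [Group Γ] [MulAction Γ X] where
  cl : X → Set X
  good : X → Prop
  self : ∀ x, x ∈ cl x
  eq : ∀ {x y}, y ∈ cl x → cl y = cl x
  gd : ∀ {x y}, good x → y ∈ cl x → good y
  fin : ∀ {x}, good x → (cl x).Finite
  smul : ∀ (g : Γ) x, cl (g • x) = g • cl x
  gs : ∀ (g : Γ) x, good x → good (g • x)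

namespace Part

variable (Q : Part Γ X)

/-- The selected classes. -/
def R : SubMulAction Γ (Set X) where
  carrier := {S | ∃ x, Q.good x ∧ S = Q.cl x}
  smul_mem' := by
    rintro g _ ⟨x, h, rfl⟩
    exact ⟨g • x, Q.gs g x h, (Q.smul g x).symm⟩

/-- The points of the selected classes. -/
def Y : SubMulAction Γ X where
  carrier := {x | Q.good x}
  smul_mem' := Q.gs

open Classical in
/-- A function on classes seen as a function on points. -/
noncomputable def lift (b : Q.R → ℝ) (x : X) : ℝ := if h : Q.good x then b ⟨_, x, h, rfl⟩ else 0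

variable {Q}

theorem mem {S : Q.R} {x} (h : x ∈ S.1) : ∃ k : Q.good x, S = ⟨_, x, k, rfl⟩ := by
  obtain ⟨_, y, h1, rfl⟩ := S
  exact ⟨Q.gd h1 h, Subtype.ext (Q.eq h).symm⟩

theorem gs' (g : Γ) (x : X) : Q.good (g • x) ↔ Q.good x :=
  ⟨fun h => by simpa using Q.gs g⁻¹ _ h, Q.gs g x⟩

theorem rfin (S : Q.R) : S.1.Finite := by
  obtain ⟨_, y, h1, rfl⟩ := S
  exact Q.fin h1

theorem rne (S : Q.R) : S.1.Nonempty := by
  obtain ⟨_, y, h1, rfl⟩ := S
  exact ⟨y, Q.self y⟩

theorem sub (x : X) : {S : Q.R | x ∈ S.1}.Subsingleton := fun S h S' h' => by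
  obtain ⟨_, rfl⟩ := mem h
  exact (mem h').2.symm

theorem gsR (h : GS Γ s) : GS Γ fun S : Q.R => ⋃ x ∈ S.1, s x where
  fin S := (rfin S).biUnion fun x _ => h.fin x
  ne S := let ⟨x, hx⟩ := rne S; (h.ne x).mono (Set.subset_biUnion_of_mem (u := s) hx)
  eqv g S v hv := by
    obtain ⟨x, h1, h2⟩ := Set.mem_iUnion₂.1 hv
    exact Set.mem_biUnion (Set.smul_mem_smul_set h1) (h.eqv g x v h2)
  lf v := ((h.lf v).biUnion fun x _ => (sub (Q := Q) x).finite).subset fun S hS => by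
    obtain ⟨x, h1, h2⟩ := Set.mem_iUnion₂.1 hS
    exact Set.mem_biUnion h2 h1

open Classical in
theorem wsumR (hT : TU Γ o) (h : GS Γ s) : wsum (fun S : Q.R => ⋃ x ∈ S.1, s x) o 1 =
    wsum s o fun x => if Q.good x then 1 / (Q.cl x).ncard else 0 := by
  have f1 : ∀ x, {y : Q.Y | y.1 = x}.Finite := fun x =>
    Set.Subsingleton.finite fun a h b h' => Subtype.ext (h.trans h'.symm)
  have g1 := h.trComp (π := fun y : Q.Y => y.1) (fun _ _ => rfl) f1
  have i : ∀ (g : Γ) (y : Q.Y), 1 / ((Q.cl (g • y).1).ncard : ℝ) = 1 / (Q.cl y.1).ncard :=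
    fun g y => by rw [SubMulAction.val_smul, Q.smul, Set.ncard_smul_set]
  have e2 : ∀ S : Q.R, {y : Q.Y | (⟨_, y.1, y.2, rfl⟩ : Q.R) = S} = Subtype.val ⁻¹' S.1 :=
    fun S => Set.ext fun y => ⟨by rintro rfl; exact Q.self _, fun k => (mem k).2.symm⟩
  have f2 : ∀ S : Q.R, (Subtype.val ⁻¹' S.1 : Set Q.Y).Finite := fun S =>
    (rfin S).preimage Subtype.val_injective.injOn
  have k1 := fibSpec o _ _ _ (fun y : Q.Y => 1 / ((Q.cl y.1).ncard : ℝ)) hT g1 h (fun _ _ => rfl) f1 i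
  have k2 := fibSpec o _ _ (fun y : Q.Y => (⟨_, y.1, y.2, rfl⟩ : Q.R))
    (fun y : Q.Y => 1 / ((Q.cl y.1).ncard : ℝ)) hT g1 (gsR h)
    (fun g y => Subtype.ext (Q.smul g y.1)) (fun S => e2 S ▸ f2 S) i
  convert k2.symm.trans k1 using 2
  · funext S
    rw [e2, finsum_mem_congr rfl (g := fun _ => 1 / (S.1.ncard : ℝ)) fun y hy => by
      rw [(mem hy).2], finsum_mem_eq_finite_toFinset_sum _ (f2 S), Finset.sum_const,
      ← Set.ncard_eq_toFinset_card _ (f2 S), Set.ncard_preimage_of_injective_subset_range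
        (s := S.1) (f := fun y : Q.Y => y.1) Subtype.val_injective
        fun x hx => ⟨⟨x, (mem hx).1⟩, rfl⟩, nsmul_eq_mul, mul_one_div_cancel]
    · rfl
    · exact Nat.cast_ne_zero.2 ((Set.ncard_pos (rfin S)).2 (rne S)).ne'
  · funext x
    split_ifs with k
    · rw [show {y : Q.Y | y.1 = x} = {⟨x, k⟩} from Set.ext fun y =>
        ⟨fun e => Subtype.ext e, fun e => congrArg Subtype.val e⟩,
        finsum_mem_singleton]
    · rw [show {y : Q.Y | y.1 = x} = ∅ from Set.eq_empty_of_forall_notMem fun y hy =>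
        k (hy ▸ y.2), finsum_mem_empty]

open Classical in
theorem mat (hT : TU Γ o) (h : GS Γ s) : Mat fun x (S : Q.R) => if x ∈ S.1 then (1 : ℝ) else 0 := by
  obtain ⟨b, hb⟩ := h.trBdd hT (f := fun x => {y | Q.good x ∧ y ∈ Q.cl x})
    (fun x => by by_cases k : Q.good x <;> simp [k, Q.fin])
    fun g x y hy => ⟨Q.gs g x hy.1, Q.smul g x ▸ Set.smul_mem_smul_set hy.2⟩
  refine trMat_ind (b := b + 1) (fun x => ?_) ?_
  · exact (Set.encard_le_one_iff_subsingleton.2 (sub x)).trans (by push_cast; exact le_add_self)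
  · rintro ⟨_, x, k, rfl⟩
    refine le_trans (Set.encard_le_encard fun y hy => ?_) ((hb x).trans (by simp))
    exact ⟨k, hy⟩

open Classical in
theorem app_eq (b : Q.R → ℝ) (x : X) :
    app (fun x (S : Q.R) => if x ∈ S.1 then (1 : ℝ) else 0) b x = Q.lift b x := by
  rw [trApp_ind, lift]
  split_ifs with k
  · rw [(sub x).eq_singleton_of_mem (x := ⟨_, x, k, rfl⟩) (Q.self x), finsum_mem_singleton]
  · rw [show {S : Q.R | x ∈ S.1} = ∅ from Set.eq_empty_of_forall_notMem fun S hS => k (mem hS).1,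
      finsum_mem_empty]

theorem lift_cl (b : Q.R → ℝ) {x y} (h : y ∈ Q.cl x) : Q.lift b x = Q.lift b y := by
  have : Q.good x ↔ Q.good y := ⟨fun k => Q.gd k h, fun k => Q.gd k (Q.eq h ▸ Q.self x)⟩
  by_cases k : Q.good x
  · simp only [lift, k, this.1 k, Q.eq h, dif_pos]
  · simp only [lift, k, this.not.1 k, dif_neg, not_false_eq_true]

theorem lift_zero {b : Q.R → ℝ} (h : ∀ x, Q.lift b x = 0) : b = 0 := by
  funext ⟨_, x, k, rfl⟩
  simpa [lift, k] using h x

theorem desc {ψ : X → ℝ} (h : L2 ψ) (h1 : ∀ x, ∀ y ∈ Q.cl x, ψ x = ψ y)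
    (h2 : ∀ x, ¬ Q.good x → ψ x = 0) : ∃ b, L2 b ∧ Q.lift b = ψ := by
  refine ⟨fun S => ψ (rne S).some, h.comp_injective fun S S' k =>
    sub _ (rne S).some_mem (k ▸ (rne S').some_mem), funext fun x => ?_⟩
  rw [lift]
  split_ifs with k
  exacts [(h1 x _ (rne ⟨_, x, k, rfl⟩).some_mem).symm, (h2 x k).symm]

end Part

end Pool.Agent.MP_77f003_co.H49
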