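import Pool.Agent.MP_77f003_co.H51.TrB

/-!
The exact sequence of an invariant abstract system of tracks.
-/

namespace Pool.Agent.MP_77f003_co.H49

open scoped Pointwise
open Relation Sum

variable {O Γ X P : Type} [Group Γ] [MulAction Γ O] [MulAction Γ X] [MulAction Γ P] {o : O}
  {s : X → Set O} {T : TO X P}

/-- An invariant system of tracks. -/
structure TO.Eqv (Γ : Type) [Group Γ] [MulAction Γ X] [MulAction Γ P] (T : TO X P) : Prop where
  m : ∀ (g : Γ) e x, T.m e x → T.m (g • e) (g • x)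
  rv : ∀ (g : Γ) x, T.rv (g • x) = g • T.rv x
  le : ∀ (g : Γ) x y, T.le x y → T.le (g • x) (g • y)
  fin : ∀ x, {e | T.m e x}.Finite

namespace TO.Eqv

theorem all (h : T.Eqv Γ) (g : Γ) {e : P} {p : X → Prop} (k : ∀ z, T.m e z → p (g • z)) :
    ∀ z, T.m (g • e) z → p z := fun z hz => by
  simpa using k (g⁻¹ • z) (by simpa using h.m g⁻¹ _ _ hz)

theorem cls (h : T.Eqv Γ) (g : Γ) {x y} (k : y ∈ T.cls x) : g • y ∈ T.cls (g • x) := by
  induction k with
  | rel a b k =>
    obtain ⟨k1, k2, e, k3, k4, k5⟩ := k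
    refine EqvGen.rel _ _ (h.rv g b ▸ ⟨fun k => k1 (MulAction.injective g k), h.le g _ _ k2, _,
      h.m g _ _ k3, h.m g _ _ k4, h.all g fun z hz => ?_⟩)
    exact (k5 z hz).imp (h.le g _ _) (h.le g _ _)
  | refl => exact EqvGen.refl _
  | symm _ _ _ ih => exact ih.symm
  | trans _ _ _ _ _ i j => exact i.trans _ _ _ j

theorem cls' (h : T.Eqv Γ) (g : Γ) (x : X) : T.cls (g • x) = g • T.cls x := Set.ext fun y => by
  rw [Set.mem_smul_set_iff_inv_smul_mem]
  exact ⟨fun k => by simpa using h.cls g⁻¹ k, fun k => by simpa using h.cls g k⟩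

theorem good (h : T.Eqv Γ) (g : Γ) {x} (k : T.Good x) : T.Good (g • x) := by
  refine ⟨h.cls' g x ▸ k.1.smul_set, fun y hy ⟨e, h1, h2⟩ => k.2 (g⁻¹ • y)
    (by simpa using h.cls g⁻¹ hy) ⟨_, h.m g⁻¹ _ _ h1, h.all g⁻¹ fun z hz => h.le _ _ _ (h2 z hz)⟩⟩

/-- Unoriented tracks and finite empty regions. -/
def part (h : T.Eqv Γ) : Part Γ (X ⊕ X) where
  cl := Sum.elim (fun x => {inl x, inl (T.rv x)}) fun x => inr '' T.cls x
  good := Sum.elim (fun _ => True) T.Good
  self := by
    rintro (x | x)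
    exacts [Or.inl rfl, ⟨x, cls_self x, rfl⟩]
  eq := by
    rintro (x | x) y
    · rintro (rfl | rfl)
      exacts [rfl, by simp [T.rv_rv, Set.pair_comm]]
    · rintro ⟨y, k, rfl⟩
      simp [cls_eq k]
  gd := by
    rintro (x | x) y k
    · rintro (rfl | rfl) <;> trivial
    · rintro ⟨y, k', rfl⟩
      exact ⟨cls_eq k' ▸ k.1, cls_eq k' ▸ k.2⟩
  fin := by
    rintro (x | x) k
    exacts [(Set.finite_singleton _).insert _, k.1.image _]
  smul := by
    rintro g (x | x)
    · simp [h.rv, Set.smul_set_insert]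
    · simp only [smul_inr, elim_inr, h.cls', ← Set.image_smul, Set.image_image]
  gs := by
    rintro g (x | x) k
    exacts [trivial, h.good g k]

theorem exact (h : T.Eqv Γ) (hT : TU Γ o) (hs : GS Γ s) :
    ∃ (R : Type) (_ : MulAction Γ R) (sR : R → Set O) (D : X → R → ℝ) (q : X → ℝ),
      GS Γ sR ∧ Mat D ∧ Inv Γ D ∧ (∀ b ∈ Ker D, b = 0) ∧
      (∀ c, (L2 c ∧ ∀ e, ∑ᶠ z ∈ {z | T.m e z}, (c z - c (T.rv z)) = 0) ↔
        ∃ b, L2 b ∧ c = app D b) ∧
      (∀ (g : Γ) x, q (g • x) = q x) ∧ (∀ x, q x = 1 / 2 ∨ ∃ k : ℕ, 3 ≤ k ∧ q x = 1 / 2 - 1 / k) ∧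
      wsum s o 1 - wsum sR o 1 = wsum s o q := by
  classical
  have fb : ∀ x : X, {z : X ⊕ X | z.elim id id = x} = {inl x, inr x} := fun x =>
    Set.ext (by rintro (z | z) <;> simp)
  have pi : ∀ (g : Γ) (z : X ⊕ X), (g • z).elim id id = g • z.elim id id := by
    rintro g (z | z) <;> rfl
  have g1 := hs.trComp pi fun x => fb x ▸ Set.toFinite _
  have m0 := Part.mat (Q := h.part) hT g1
  have m1 := m0.trComp (f := inl) inl_injective
  have m2 := m0.trComp (f := inr) inr_injective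
  have m3 := (m0.trComp (f := inr ∘ T.rv) (inr_injective.comp rv_inj)).trNeg
  have ap : ∀ b x, app _ b x = h.part.lift b (inl x) + h.part.lift b (inr x) +
      -h.part.lift b (inr (T.rv x)) := fun b x => by
    rw [trApp_add (m1.trAdd m2) m3, trApp_add m1 m2, trApp_neg, ← Part.app_eq, ← Part.app_eq,
      ← Part.app_eq]
    rfl
  have l1 : ∀ b x, h.part.lift b (inl (T.rv x)) = h.part.lift b (inl x) := fun b x =>
    (Part.lift_cl b (Or.inr rfl)).symm
  have l2 : ∀ b x y, T.Cov x y → h.part.lift b (inr x) = h.part.lift b (inr (T.rv y)) :=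
    fun b x y k => Part.lift_cl b ⟨_, k.mem, rfl⟩
  have l3 : ∀ b x, T.Occ x → h.part.lift b (inr x) = 0 := fun b x k =>
    dif_neg fun k' => k'.2 x (cls_self x) k
  have iv : ∀ (g : Γ) z (S : h.part.R), g • z ∈ (g • S).1 ↔ z ∈ S.1 := fun g z S =>
    Set.smul_mem_smul_set_iff
  have qi : ∀ (g : Γ) z, (if h.part.good (g • z) then 1 / ((h.part.cl (g • z)).ncard : ℝ) else 0) =
      if h.part.good z then 1 / ((h.part.cl z).ncard : ℝ) else 0 := fun g z => by
    rw [Part.gs', h.part.smul, Set.ncard_smul_set]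
  have nc : ∀ x, (h.part.cl (inr x)).ncard = (T.cls x).ncard := fun x =>
    Set.ncard_image_of_injective _ inr_injective
  refine ⟨h.part.R, inferInstance, _, _, fun x => 1 / 2 -
    if h.part.good (inr x) then 1 / ((h.part.cl (inr x)).ncard : ℝ) else 0, Part.gsR g1,
    (m1.trAdd m2).trAdd m3, fun g x S => ?_, fun b hb => Part.lift_zero fun z => ?_,
    fun c => ⟨fun ⟨c1, c2⟩ => ?_, ?_⟩, fun g x => congrArg _ (qi g (inr x)), fun x => ?_, ?_⟩
  · simp only [Function.comp, h.rv, ← smul_inl, ← smul_inr, iv]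
  · have k : ∀ x, h.part.lift b (inl x) = 0 ∧
        h.part.lift b (inr x) - h.part.lift b (inr (T.rv x)) = 0 := fun x => by
      have k1 := (ap b x).symm.trans (hb.2 x)
      have k2 := (ap b _).symm.trans (hb.2 (T.rv x))
      rw [l1, T.rv_rv] at k2
      constructor <;> linarith
    rcases z with x | x
    · exact (k x).1
    · obtain ⟨e, he⟩ := T.ne x
      rw [← tele (l2 b) (l3 b) he]
      simp [fun x => (k x).2]
  · have ha : ∀ x, c (T.rv x) - c (T.rv (T.rv x)) = -(c x - c (T.rv x)) := fun x => by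
      rw [T.rv_rv, neg_sub]
    have c3 : L2 fun x => c (T.rv x) := c1.comp_injective rv_inj
    obtain ⟨n, hn⟩ := hs.trBdd hT (f := fun x => {y | ∃ e, T.m e x ∧ T.m e y})
      (fun x => ((h.fin x).biUnion fun e _ => T.fin e).subset fun y ⟨e, k, k'⟩ =>
        Set.mem_biUnion k k') fun g x y ⟨e, k, k'⟩ => ⟨_, h.m g _ _ k, h.m g _ _ k'⟩
    have c4 : L2 (T.pot fun x => c x - c (T.rv x)) := by
      have := matSpec _ _ (trMat_ind (r := fun x z => z ∈ T.lo (T.ne x).choose x) (b := n)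
        (fun x => le_trans (Set.encard_le_encard fun y hy => ?_) (hn x))
        fun x => le_trans (Set.encard_le_encard fun y hy => ?_) (hn x)) (c1.trLin c3 1 (-1))
      · convert this using 1
        funext x
        rw [trApp_ind]
        exact finsum_mem_congr rfl fun _ _ => by ring
      · exact ⟨_, (T.ne x).choose_spec, hy.1⟩
      · exact ⟨_, hy.1, (T.ne y).choose_spec⟩
    have c5 : ∀ x, ∀ y ∈ T.cls x, _ := fun x y k => cls_const (fun _ _ => pot_cov c2 ha) k
    obtain ⟨b, b1, b2⟩ := Part.desc (Q := h.part) (ψ := Sum.elim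
      (fun x => 1 / 2 * c x + 1 / 2 * c (T.rv x)) fun x => 1 / 2 * T.pot _ x + 0 * T.pot _ x)
      (Summable.sum _ (c1.trLin c3 _ _) (c4.trLin c4 _ _)) (by
        rintro (x | x) y
        · rintro (rfl | rfl)
          exacts [rfl, by simp [T.rv_rv, add_comm]]
        · rintro ⟨y, k, rfl⟩
          simp [c5 x y k]) (by
        rintro (x | x) k
        · exact absurd trivial k
        · by_cases k' : (T.cls x).Finite
          · obtain ⟨y, k1, k2⟩ : ∃ y ∈ T.cls x, T.Occ y := by
              by_contra! k''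
              exact k ⟨k', k''⟩
            simp [c5 x y k1, pot_occ c2 k2]
          · simp [c4.trZero k' fun y hy => (c5 x y hy).symm])
    refine ⟨b, b1, funext fun x => ?_⟩
    rw [ap, b2]
    simp only [elim_inl, elim_inr, pot_rv c2 ha]
    ring
  · rintro ⟨b, b1, rfl⟩
    refine ⟨matSpec _ _ ((m1.trAdd m2).trAdd m3) b1, fun e => ?_⟩
    refine Eq.trans (finsum_mem_congr rfl fun x _ => ?_) (tele0
      (β := fun x => 2 * h.part.lift b (inr x)) (fun x y k => by rw [l2 b x y k])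
      (fun x k => by rw [l3 b x k, mul_zero]) e)
    rw [ap, ap, l1, T.rv_rv]
    ring
  · dsimp only
    split_ifs with k
    exacts [Or.inr ⟨_, Good.three k, by rw [nc]⟩, Or.inl (sub_zero _)]
  · rw [Part.wsumR hT g1, fibSpec o _ _ _ _ hT g1 hs pi (fun x => fb x ▸ Set.toFinite _) qi, wsum,
      wsum, wsum, ← finsum_mem_sub_distrib _ _ (hs.lf o)]
    refine finsum_mem_congr rfl fun x _ => ?_
    have : (h.part.cl (inl x)).ncard = 2 := Set.ncard_pair fun k => rv_ne x (inl_injective k).symm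
    rw [fb, finsum_mem_pair inl_ne_inr, if_pos (show h.part.good (inl x) from trivial), this, ← sub_div]
    congr 1
    push_cast
    rw [Pi.one_apply]
    ring

end TO.Eqv

end Pool.Agent.MP_77f003_co.H49
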